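import Pool.Agent.W24.Perc.Site
import Pool.Agent.W870.PD.Crit

set_option autoImplicit false

/-!
# The polynomial lower bound at the critical point, for edges as unordered pairs
-/

namespace Pool.Agent.W24.Perc

open MeasureTheory ProbabilityTheory
open scoped ENNReal NNReal

/-- bond percolation as a model, edges are unordered pairs -/
def symMod (n : ℕ) : Mod (n + 1) (Sym2 (Fin (n + 1) → ℤ)) where
  a x y := s(x, y)
  ax := by
    intro z z' u u' h1 h2 h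
    rw [Sym2.eq_iff] at h
    rcases h with ⟨-, h⟩ | ⟨h3, h4⟩
    · exact Or.inl h.symm
    · exact Or.inr ⟨h4.symm, h3.symm⟩

theorem sym_inv {n : ℕ} (g : (Fin (n + 1) → ℤ) ≃ (Fin (n + 1) → ℤ))
    (hg : ∀ x y, (lat (n + 1)).Adj x y ↔ (lat (n + 1)).Adj (g x) (g y)) : (symMod n).Inv g :=
  ⟨hg, Pool.Agent.W804.HP.s2 g, fun _ _ _ => rfl⟩

namespace For870

open Pool.Agent.W804.HP (openB openS InfB InfS XB XS)
open Pool.Agent.W870.PD (PolB PolS pcB pcS pcB_le pcS_le)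
open Pool.Agent.H978R2 (bm)

theorem lat_eq (d : ℕ) : Pool.Agent.W804.HP.lat d = lat d := rfl

theorem bx_eq {d : ℕ} (r : ℕ) (x : Fin d → ℤ) :
    x ∈ Pool.Agent.W804.HP.bx (0 : Fin d → ℤ) r ↔ x ∈ bx d r := by
  rw [Pool.Agent.W804.HP.mem_bx, mem_bx]
  simp

theorem reachB {n : ℕ} {ω : Sym2 (Fin (n + 1) → ℤ) → Bool}
    {S : Set (Fin (n + 1) → ℤ)} {x y : Fin (n + 1) → ℤ} (hx : x ∈ S) :
    (openB ω S).Reachable x y ↔ y ∈ (symMod n).cl S ω x := by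
  rw [SimpleGraph.reachable_iff_reflTransGen]
  constructor
  · intro h
    induction h with
    | refl => exact Mod.self_mem_cl _ _ _
    | @tail b c hb h ih =>
      obtain ⟨h1, h2, h3, h4⟩ := h
      exact Mod.cl_snoc ih ⟨h1, h4, h3⟩
  · intro h
    induction h with
    | refl => exact Relation.ReflTransGen.refl
    | @tail b c hb h ih =>
      exact ih.tail ⟨h.1, Mod.cl_sub hx hb, h.2.2, h.2.1⟩

theorem reachS {n : ℕ} {ω : (Fin (n + 1) → ℤ) → Bool}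
    {S : Set (Fin (n + 1) → ℤ)} {x y : Fin (n + 1) → ℤ}
    (h : (openS ω S).Reachable x y) : y ∈ (siteMod n).cl S ω x := by
  rw [SimpleGraph.reachable_iff_reflTransGen] at h
  induction h with
  | refl => exact Mod.self_mem_cl _ _ _
  | @tail b c hb h ih =>
    obtain ⟨h1, h2, h3, h4, h5⟩ := h
    exact Mod.cl_snoc ih ⟨h1, h5, h3⟩

theorem clS {n : ℕ} {ω : (Fin (n + 1) → ℤ) → Bool}
    {S : Set (Fin (n + 1) → ℤ)} {x y : Fin (n + 1) → ℤ} (hx : x ∈ S) (hω : ω x = true)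
    (h : y ∈ (siteMod n).cl S ω x) : y ∈ S ∧ ω y = true ∧ (openS ω S).Reachable x y := by
  rw [SimpleGraph.reachable_iff_reflTransGen]
  induction h with
  | refl => exact ⟨hx, hω, Relation.ReflTransGen.refl⟩
  | @tail b c hb h ih =>
    exact ⟨h.2.2, h.2.1, ih.2.2.tail ⟨h.1, ih.1, h.2.2, ih.2.1, h.2.1⟩⟩

theorem aboveB (n : ℕ) : AboveCrit (symMod n) (pcB (n + 1)) := by
  intro p hp h
  refine le_csSup ⟨1, by rintro q ⟨hq, -⟩; exact hq⟩ ⟨hp, ?_⟩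
  have h1 : InfB (0 : Fin (n + 1) → ℤ) ⊆ {ω | ((symMod n).cl Set.univ ω 0).Infinite} := by
    intro ω hω
    exact Set.Infinite.mono (fun y hy => (reachB (Set.mem_univ _)).1 hy) hω
  have h2 : (bm _ p hp) {ω | ((symMod n).cl Set.univ ω 0).Infinite} = 0 := h
  rw [Measure.real, measure_mono_null h1 h2]
  rfl

theorem aboveS (n : ℕ) : AboveCrit (siteMod n) (pcS (n + 1)) := by
  intro p hp h
  refine le_csSup ⟨1, by rintro q ⟨hq, -⟩; exact hq⟩ ⟨hp, ?_⟩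
  have h1 : InfS (0 : Fin (n + 1) → ℤ) ⊆ {ω | ((siteMod n).cl Set.univ ω 0).Infinite} := by
    intro ω hω
    exact Set.Infinite.mono (fun y hy => reachS hy) hω
  have h2 : (bm _ p hp) {ω | ((siteMod n).cl Set.univ ω 0).Infinite} = 0 := h
  rw [Measure.real, measure_mono_null h1 h2]
  rfl

theorem pcB_pos (n : ℕ) : 0 < pcB (n + 1) :=
  Pool.Agent.W24.Perc.pc_pos (fun v => sym_inv _ (adj_add v)) (pcB_le _) (aboveB n)

theorem pcS_pos (n : ℕ) : 0 < pcS (n + 1) :=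
  Pool.Agent.W24.Perc.pc_pos (fun v => site_inv _ (adj_add v)) (pcS_le _) (aboveS n)

/-- the polynomial lower bound with exponent `d (d - 1)` for bond percolation -/
theorem polB_exp (d : ℕ) (hd : 1 ≤ d) : ∃ C : ℕ, 1 ≤ C ∧ ∀ n : ℕ, 1 ≤ n →
    ∀ y ∈ Pool.Agent.W804.HP.bx (0 : Fin d → ℤ) n,
    (1 : ℝ) ≤ C * (n : ℝ) ^ (d * (d - 1)) * (bm _ (pcB d) (pcB_le d)).real (XB 0 y 0 (C * n)) := by
  obtain ⟨k, rfl⟩ : ∃ k, d = k + 1 := ⟨d - 1, by omega⟩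
  obtain ⟨c, hc, C, h⟩ := main (M := symMod k) (fun v => sym_inv _ (adj_add v))
    (fun w => sym_inv _ (adj_act w)) (pcB_le (k + 1)) (aboveB k)
  refine ⟨C + ⌈1 / c⌉₊ + 1, by omega, ?_⟩
  intro n hn y hy
  have hy' := (bx_eq n y).1 hy
  have h1 := h n y hn (mem_bx.1 hy')
  have hn0 : (0 : ℝ) < n := by exact_mod_cast hn
  have e : (k + 1) * (k + 1 - 1) = k * (k + 1) := by
    rw [Nat.add_sub_cancel, mul_comm]
  rw [e]
  have h2 : (mu _ (pcB (k + 1)) (pcB_le (k + 1))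
      {ω | y ∈ (symMod k).cl ↑(bx (k + 1) (C * n)) ω 0}).toReal ≤
      (bm _ (pcB (k + 1)) (pcB_le (k + 1))).real (XB 0 y 0 ((C + ⌈1 / c⌉₊ + 1) * n)) := by
    refine ENNReal.toReal_mono (measure_ne_top _ _) ?_
    show bm _ _ _ _ ≤ _
    apply measure_mono
    intro ω hω
    show Pool.Agent.W804.HP.Con _ _ _ _ _
    rw [Pool.Agent.W804.HP.con_bond, reachB]
    · refine Mod.cl_mono ?_ (fun _ h => h) _ hω
      intro z hz
      rw [Finset.mem_coe, mem_bx] at hz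
      rw [Finset.mem_coe, bx_eq, mem_bx]
      intro i
      refine (hz i).trans ?_
      have : C * n ≤ (C + ⌈1 / c⌉₊ + 1) * n := Nat.mul_le_mul_right _ (by omega)
      exact_mod_cast this
    · rw [Finset.mem_coe, bx_eq, mem_bx]
      intro i
      simp
      positivity
  have h3 := h1.trans h2
  rw [div_le_iff₀ (by positivity)] at h3
  have h4 : (1 : ℝ) / c ≤ ((C + ⌈1 / c⌉₊ + 1 : ℕ) : ℝ) := by
    push_cast
    have := Nat.le_ceil (1 / c)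
    have h5 : (0 : ℝ) ≤ C := Nat.cast_nonneg _
    linarith
  calc (1 : ℝ) = 1 / c * c := by field_simp
    _ ≤ ((C + ⌈1 / c⌉₊ + 1 : ℕ) : ℝ) * ((bm _ (pcB (k + 1)) (pcB_le (k + 1))).real
        (XB 0 y 0 ((C + ⌈1 / c⌉₊ + 1) * n)) * (n : ℝ) ^ (k * (k + 1))) := by gcongr
    _ = _ := by ring

/-- the polynomial lower bound with exponent `d (d - 1)` for site percolation -/
theorem polS_exp (d : ℕ) (hd : 1 ≤ d) : ∃ C : ℕ, 1 ≤ C ∧ ∀ n : ℕ, 1 ≤ n →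
    ∀ y ∈ Pool.Agent.W804.HP.bx (0 : Fin d → ℤ) n,
    (1 : ℝ) ≤ C * (n : ℝ) ^ (d * (d - 1)) * (bm _ (pcS d) (pcS_le d)).real (XS 0 y 0 (C * n)) := by
  obtain ⟨k, rfl⟩ : ∃ k, d = k + 1 := ⟨d - 1, by omega⟩
  obtain ⟨c', hc', C, h⟩ := main (M := siteMod k) (fun v => site_inv _ (adj_add v))
    (fun w => site_inv _ (adj_act w)) (pcS_le (k + 1)) (aboveS k)
  have hpos : (0 : ℝ) < pcS (k + 1) := pcS_pos k
  set c : ℝ := pcS (k + 1) * c' with hcdef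
  have hc : 0 < c := by positivity
  refine ⟨C + ⌈1 / c⌉₊ + 1, by omega, ?_⟩
  intro n hn y hy
  have hy' := (bx_eq n y).1 hy
  have h1 := h n y hn (mem_bx.1 hy')
  have hn0 : (0 : ℝ) < n := by exact_mod_cast hn
  have e : (k + 1) * (k + 1 - 1) = k * (k + 1) := by
    rw [Nat.add_sub_cancel, mul_comm]
  rw [e]
  have hfkg := harris (pcS (k + 1)) (pcS_le _) {ω : (Fin (k + 1) → ℤ) → Bool | ω 0 = true}
    {ω | y ∈ (siteMod k).cl ↑(bx (k + 1) (C * n)) ω 0} (Mod.bit_meas 0) (Mod.cl_meas _ _ _)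
    (fun ω ω' hω h => hω _ h) (fun ω ω' hω h => Mod.cl_mono (Set.Subset.refl _) hω _ h)
  rw [Mod.bit_prob] at hfkg
  have hsub : mu _ (pcS (k + 1)) (pcS_le _) ({ω : (Fin (k + 1) → ℤ) → Bool | ω 0 = true} ∩
      {ω | y ∈ (siteMod k).cl ↑(bx (k + 1) (C * n)) ω 0}) ≤ bm _ (pcS (k + 1)) (pcS_le _)
      (XS 0 y 0 ((C + ⌈1 / c⌉₊ + 1) * n)) := by
    show bm _ _ _ _ ≤ _
    apply measure_mono
    rintro ω ⟨h4, h5⟩
    have h0 : (0 : Fin (k + 1) → ℤ) ∈ (↑(Pool.Agent.W804.HP.bx (0 : Fin (k + 1) → ℤ)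
        ((C + ⌈1 / c⌉₊ + 1) * n)) : Set (Fin (k + 1) → ℤ)) := by
      rw [Finset.mem_coe, bx_eq, mem_bx]
      intro i
      simp
      positivity
    have h6 := clS h0 h4 (Mod.cl_mono (by
      intro z hz
      rw [Finset.mem_coe, mem_bx] at hz
      rw [Finset.mem_coe, bx_eq, mem_bx]
      intro i
      refine (hz i).trans ?_
      have : C * n ≤ (C + ⌈1 / c⌉₊ + 1) * n := Nat.mul_le_mul_right _ (by omega)
      exact_mod_cast this) (fun _ h => h) _ h5)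
    exact ⟨⟨h0, h6.1, h4, h6.2.1⟩, h6.2.2⟩
  have h2 := ENNReal.toReal_mono (measure_ne_top _ _) (hfkg.trans hsub)
  rw [ENNReal.toReal_mul, ENNReal.coe_toReal] at h2
  have h3 : c / (n : ℝ) ^ (k * (k + 1)) ≤ (bm _ (pcS (k + 1)) (pcS_le _)).real
      (XS 0 y 0 ((C + ⌈1 / c⌉₊ + 1) * n)) := by
    refine le_trans ?_ h2
    rw [hcdef, mul_div_assoc]
    gcongr
  rw [div_le_iff₀ (by positivity)] at h3
  have h4 : (1 : ℝ) / c ≤ ((C + ⌈1 / c⌉₊ + 1 : ℕ) : ℝ) := by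
    push_cast
    have := Nat.le_ceil (1 / c)
    have h5 : (0 : ℝ) ≤ C := Nat.cast_nonneg _
    linarith
  calc (1 : ℝ) = 1 / c * c := by field_simp
    _ ≤ ((C + ⌈1 / c⌉₊ + 1 : ℕ) : ℝ) * ((bm _ (pcS (k + 1)) (pcS_le (k + 1))).real
        (XS 0 y 0 ((C + ⌈1 / c⌉₊ + 1) * n)) * (n : ℝ) ^ (k * (k + 1))) := by gcongr
    _ = _ := by ring

theorem polB_crit (d : ℕ) (hd : 1 ≤ d) : PolB d (pcB d) (pcB_le d) := by
  obtain ⟨C, hC, h⟩ := polB_exp d hd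
  exact ⟨C, d * (d - 1), hC, h⟩

theorem polS_crit (d : ℕ) (hd : 1 ≤ d) : PolS d (pcS d) (pcS_le d) := by
  obtain ⟨C, hC, h⟩ := polS_exp d hd
  exact ⟨C, d * (d - 1), hC, h⟩

end For870

end Pool.Agent.W24.Perc
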