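import Pool.Agent.W24.Perc.Cut

set_option autoImplicit false

/-!
# A lower bound for products of `tau` along decompositions
-/

namespace Pool.Agent.W24.Perc

open Finset

/-- nearest neighbour graph of `ℤ^d` -/
def lat (d : ℕ) : SimpleGraph (Fin d → ℤ) where
  Adj x y := ∑ k, |x k - y k| = 1
  symm := ⟨by
    intro x y h
    rw [← h]
    exact Finset.sum_congr rfl fun k _ => abs_sub_comm _ _⟩
  loopless := ⟨by
    intro x h
    simp at h⟩

theorem lat_adj_le {d : ℕ} {x y : Fin d → ℤ} (h : (lat d).Adj x y) (k : Fin d) :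
    |y k - x k| ≤ 1 := by
  have h1 : ∑ k, |x k - y k| = 1 := h
  rw [abs_sub_comm, ← h1]
  exact Finset.single_le_sum (f := fun k => |x k - y k|) (fun _ _ => abs_nonneg _)
    (Finset.mem_univ k)

/-- the box `[-N, N]^d` -/
noncomputable def bx (d N : ℕ) : Finset (Fin d → ℤ) := Fintype.piFinset (fun _ => Finset.Icc (-(N : ℤ)) N)

theorem mem_bx {d N : ℕ} {x : Fin d → ℤ} : x ∈ bx d N ↔ ∀ k, |x k| ≤ N := by
  unfold bx
  rw [Fintype.mem_piFinset]
  exact forall_congr' fun k => by rw [Finset.mem_Icc, abs_le]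

theorem card_bx (d N : ℕ) : (bx d N).card = (2 * N + 1) ^ d := by
  unfold bx
  rw [Fintype.card_piFinset_const, Int.card_Icc]
  congr 1
  omega

/-- the points at distance at least `N` -/
def far (d N : ℕ) : Set (Fin d → ℤ) := {b | ∃ k, (N : ℤ) ≤ |b k|}

theorem act_injective {d : ℕ} (w : SPerm d) : Function.Injective (act w : (Fin d → ℤ) → Fin d → ℤ) := by
  intro x y h
  funext k
  have h1 := congrFun h (w.1.symm k)
  simp only [act, Equiv.apply_symm_apply] at h1
  rcases Int.units_eq_one_or (w.2 (w.1.symm k)) with h2 | h2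
  · simpa [h2] using h1
  · simpa [h2] using h1

theorem card_sol {d : ℕ} (n : ℕ) (L : Finset (Fin d → ℤ)) (w : Fin (n + 1) → SPerm d)
    (v : Fin d → ℤ) :
    ((Fintype.piFinset (fun _ : Fin (n + 1) => L)).filter
      (fun x => ∑ i, act (w i) (x i) = v)).card ≤ L.card ^ n := by
  have e : L.card ^ n = (Fintype.piFinset (fun _ : Fin n => L)).card := by
    rw [Fintype.card_piFinset_const]
  rw [e]
  apply Finset.card_le_card_of_injOn (fun x => Fin.tail x)
  · intro x hx
    simp only [Finset.coe_filter, Set.mem_ofPred_eq, Fintype.mem_piFinset] at hx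
    simp only [Finset.mem_coe, Fintype.mem_piFinset]
    exact fun i => hx.1 i.succ
  · intro x hx x' hx' h
    simp only [Finset.coe_filter, Set.mem_ofPred_eq, Fintype.mem_piFinset] at hx hx'
    have h1 := hx.2.trans hx'.2.symm
    rw [Fin.sum_univ_succ, Fin.sum_univ_succ] at h1
    have h2 : ∀ i : Fin n, x i.succ = x' i.succ := fun i => congrFun h i
    have h3 : ∑ i : Fin n, act (w i.succ) (x i.succ) = ∑ i : Fin n, act (w i.succ) (x' i.succ) :=
      Finset.sum_congr rfl fun i _ => by rw [h2]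
    rw [h3] at h1
    have h4 := act_injective _ (add_right_cancel h1)
    funext i
    refine Fin.cases h4 (fun i => h2 i) i

/-- cut property of `tau` in the box `[-N, N]^d` with constant `c` -/
def CutProp (d N : ℕ) (tau : (Fin d → ℤ) → ℝ) (c : ℝ) : Prop :=
  ∀ K ⊆ bx d N, (∀ b ∈ far d N, ∀ w : (lat d).Walk 0 b, (∀ z ∈ w.support, z ∈ bx d N) →
    ∃ x ∈ w.support, x ∈ K) → c ≤ ∑ x ∈ K, tau x

theorem abstract_bound (n : ℕ) : ∃ c1 : ℝ, 0 < c1 ∧ ∀ c0 : ℝ, 0 < c0 → ∃ c2 : ℝ, 0 < c2 ∧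
    ∀ N : ℕ, 1 ≤ N → ∀ tau : (Fin (n + 1) → ℤ) → ℝ, (∀ x, 0 ≤ tau x) →
      CutProp (n + 1) N tau c0 → ∀ y : Fin (n + 1) → ℤ, (∀ k, (|y k| : ℝ) < c1 * N) →
      ∃ (x : Fin (n + 1) → Fin (n + 1) → ℤ) (w : Fin (n + 1) → SPerm (n + 1))
        (e : Fin (n + 1) → ℤ), (∀ i, x i ∈ bx (n + 1) N) ∧ ∑ i, act (w i) (x i) = y + e ∧
        (∀ j, |e j| ≤ n + 1) ∧ c2 / (N : ℝ) ^ (n * (n + 1)) ≤ ∏ i, tau (x i) := by
  classical
  obtain ⟨c1, hc1, hcov⟩ := cover n
  refine ⟨c1, hc1, ?_⟩
  intro c0 hc0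
  set I : Finset ((Fin (n + 1) → SPerm (n + 1)) × (Fin (n + 1) → ℤ)) :=
    Finset.univ ×ˢ bx (n + 1) (n + 1) with hI
  have hIc : 0 < (I.card : ℝ) := by
    have : (1, 0) ∈ I := by
      rw [hI, Finset.mem_product]
      refine ⟨Finset.mem_univ _, mem_bx.2 fun k => ?_⟩
      simp
      positivity
    exact_mod_cast Finset.card_pos.2 ⟨_, this⟩
  refine ⟨c0 ^ (n + 1) / (2 * I.card * 3 ^ (n * (n + 1))), by positivity, ?_⟩
  intro N hN tau htau hcut y hy
  by_contra hcon
  push Not at hcon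
  set A : ℝ := c0 ^ (n + 1) / (2 * I.card * 3 ^ (n * (n + 1))) / (N : ℝ) ^ (n * (n + 1)) with hA
  set L := bx (n + 1) N with hL
  set F : Set (Finset (Fin (n + 1) → ℤ)) := {S | ∃ b ∈ far (n + 1) N,
    ∃ w : (lat (n + 1)).Walk 0 b, (∀ z ∈ w.support, z ∈ L) ∧ S = w.support.toFinset} with hF
  have h0L : (0 : Fin (n + 1) → ℤ) ∈ L := mem_bx.2 fun k => by simp
  have hFl : ∀ l : (Fin (n + 1) → ℤ) → ℝ, (∀ x, 0 ≤ l x) → (∀ S ∈ F, 1 ≤ ∑ x ∈ S, l x) →
      c0 ≤ ∑ x ∈ L, tau x * l x := by
    intro l hl h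
    refine length_area h0L (far (n + 1) N) tau htau c0 hcut hl ?_
    intro b hb w hw
    exact h _ ⟨b, hb, w, hw, rfl⟩
  set Phi : (Fin (n + 1) → Fin (n + 1) → ℤ) → ℝ := fun x =>
    ∑ q ∈ I, if ∑ i, act (q.1 i) (x i) = y + q.2 then 1 else 0 with hPhi
  have hPhi0 : ∀ x, 0 ≤ Phi x := fun x => Finset.sum_nonneg fun q _ => by split_ifs <;> norm_num
  have hmul := multi L F tau htau c0 hc0 hFl (n + 1) Phi hPhi0 (by
    intro S hS
    choose b hb w hw hSw using hS
    obtain ⟨k, v, hk, hv⟩ := hcov N (fun i => (w i).length) (fun i j => (w i).getVert j)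
      (fun i => (w i).getVert_zero) (fun i j hj l => lat_adj_le ((w i).adj_getVert_succ hj) l)
      (fun i => by rw [SimpleGraph.Walk.getVert_length]; exact hb i) y hy
    have hx : (fun i => (w i).getVert (k i)) ∈ Fintype.piFinset S := by
      rw [Fintype.mem_piFinset]
      intro i
      rw [hSw i, List.mem_toFinset]
      exact (w i).getVert_mem_support _
    refine le_trans ?_ (Finset.single_le_sum (fun x _ => hPhi0 x) hx)
    set e : Fin (n + 1) → ℤ := (∑ i, act (v i) ((w i).getVert (k i))) - y with he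
    have hq : (v, e) ∈ I := by
      rw [hI, Finset.mem_product]
      refine ⟨Finset.mem_univ _, mem_bx.2 fun j => ?_⟩
      have := hv j
      simpa [he] using this
    have h1 : (if ∑ i, act (v i) ((w i).getVert (k i)) = y + e then (1 : ℝ) else 0) ≤
        Phi (fun i => (w i).getVert (k i)) := by
      refine Finset.single_le_sum (f := fun q : (Fin (n + 1) → SPerm (n + 1)) × (Fin (n + 1) → ℤ) =>
        if ∑ i, act (q.1 i) ((w i).getVert (k i)) = y + q.2 then (1 : ℝ) else 0) ?_ hq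
      intro q _
      split_ifs <;> norm_num
    rw [if_pos (by rw [he]; abel)] at h1
    exact h1)
  have hle : ∑ x ∈ Fintype.piFinset (fun _ : Fin (n + 1) => L), (∏ i, tau (x i)) * Phi x ≤
      I.card * ((L.card : ℝ) ^ n * A) := by
    have e1 : ∑ x ∈ Fintype.piFinset (fun _ : Fin (n + 1) => L), (∏ i, tau (x i)) * Phi x =
        ∑ q ∈ I, ∑ x ∈ (Fintype.piFinset (fun _ : Fin (n + 1) => L)).filter
          (fun x => ∑ i, act (q.1 i) (x i) = y + q.2), ∏ i, tau (x i) := by
      simp only [hPhi, Finset.mul_sum]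
      rw [Finset.sum_comm]
      apply Finset.sum_congr rfl
      intro q _
      rw [Finset.sum_filter]
      apply Finset.sum_congr rfl
      intro x _
      split_ifs <;> simp
    rw [e1]
    calc _ ≤ ∑ q ∈ I, (L.card : ℝ) ^ n * A := by
          apply Finset.sum_le_sum
          intro q hq
          calc _ ≤ ∑ x ∈ (Fintype.piFinset (fun _ : Fin (n + 1) => L)).filter
                (fun x => ∑ i, act (q.1 i) (x i) = y + q.2), A := by
                apply Finset.sum_le_sum
                intro x hx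
                rw [Finset.mem_filter, Fintype.mem_piFinset] at hx
                rw [hI, Finset.mem_product] at hq
                refine (hcon x q.1 q.2 hx.1 hx.2 ?_).le
                intro j
                have := mem_bx.1 hq.2 j
                exact_mod_cast this
            _ = (((Fintype.piFinset (fun _ : Fin (n + 1) => L)).filter
                (fun x => ∑ i, act (q.1 i) (x i) = y + q.2)).card : ℝ) * A := by
                rw [Finset.sum_const, nsmul_eq_mul]
            _ ≤ (L.card : ℝ) ^ n * A := by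
                apply mul_le_mul_of_nonneg_right
                · exact_mod_cast card_sol n L q.1 (y + q.2)
                · rw [hA]; positivity
      _ = _ := by rw [Finset.sum_const, nsmul_eq_mul]
  have hN0 : (0 : ℝ) < N := by exact_mod_cast hN
  have hLc : (L.card : ℝ) ^ n ≤ 3 ^ (n * (n + 1)) * (N : ℝ) ^ (n * (n + 1)) := by
    have h1 : (L.card : ℝ) ≤ (3 * (N : ℝ)) ^ (n + 1) := by
      rw [hL, card_bx]
      push_cast
      apply pow_le_pow_left₀ (by positivity)
      have : (1 : ℝ) ≤ N := by exact_mod_cast hN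
      linarith
    calc (L.card : ℝ) ^ n ≤ ((3 * (N : ℝ)) ^ (n + 1)) ^ n :=
          pow_le_pow_left₀ (Nat.cast_nonneg _) h1 _
      _ = 3 ^ (n * (n + 1)) * (N : ℝ) ^ (n * (n + 1)) := by
          rw [← pow_mul, mul_comm (n + 1) n, mul_pow]
  have hfin : (I.card : ℝ) * ((L.card : ℝ) ^ n * A) ≤ c0 ^ (n + 1) / 2 := by
    have hA0 : 0 ≤ A := by rw [hA]; positivity
    calc (I.card : ℝ) * ((L.card : ℝ) ^ n * A) ≤
        I.card * ((3 ^ (n * (n + 1)) * (N : ℝ) ^ (n * (n + 1))) * A) := by gcongr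
      _ = c0 ^ (n + 1) / 2 := by
          rw [hA]
          field_simp
  have hpos : 0 < c0 ^ (n + 1) := by positivity
  have := hmul.trans (hle.trans hfin)
  linarith

end Pool.Agent.W24.Perc
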