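import Pool.Agent.W24.Perc.Chain

set_option autoImplicit false

/-!
# Bond percolation
-/

namespace Pool.Agent.W24.Perc

open MeasureTheory ProbabilityTheory
open scoped ENNReal NNReal

theorem adj_iff {d : ℕ} {x y : Fin d → ℤ} : (lat d).Adj x y ↔
    ∃ i, y = x + (Pi.single i 1 : Fin d → ℤ) ∨ x = y + (Pi.single i 1 : Fin d → ℤ) := by
  constructor
  · intro h
    rw [lat_adj] at h
    obtain ⟨i, hi⟩ : ∃ i, x i - y i ≠ 0 := by
      by_contra hcon
      push Not at hcon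
      rw [Finset.sum_eq_zero fun k _ => by rw [hcon k]; simp] at h
      exact zero_ne_one h
    have h1 : 1 ≤ |x i - y i| := Int.one_le_abs hi
    rw [← Finset.add_sum_erase _ _ (Finset.mem_univ i)] at h
    have h2 : 0 ≤ ∑ k ∈ Finset.univ.erase i, |x k - y k| := Finset.sum_nonneg fun _ _ => abs_nonneg _
    have h3 : ∑ k ∈ Finset.univ.erase i, |x k - y k| = 0 := by linarith
    have h4 : |x i - y i| = 1 := by linarith
    have h5 : ∀ k, k ≠ i → x k = y k := by
      intro k hk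
      rw [Finset.sum_eq_zero_iff_of_nonneg fun _ _ => abs_nonneg _] at h3
      have := h3 k (Finset.mem_erase.2 ⟨hk, Finset.mem_univ k⟩)
      rw [abs_eq_zero, sub_eq_zero] at this
      exact this
    refine ⟨i, ?_⟩
    rcases (abs_eq (by norm_num)).1 h4 with h6 | h6
    · right
      funext k
      rw [Pi.add_apply, Pi.single_apply]
      split_ifs with h7
      · rw [h7]; linarith
      · rw [h5 k h7, add_zero]
    · left
      funext k
      rw [Pi.add_apply, Pi.single_apply]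
      split_ifs with h7
      · rw [h7]; linarith
      · rw [h5 k h7, add_zero]
  · rintro ⟨i, h | h⟩
    · rw [h]
      exact lat_single (by norm_num)
    · rw [h]
      exact (lat_single (by norm_num)).symm

theorem adj_add {d : ℕ} (v x y : Fin d → ℤ) :
    (lat d).Adj x y ↔ (lat d).Adj (Equiv.addRight v x) (Equiv.addRight v y) := by
  rw [lat_adj, lat_adj]
  have : ∀ k, |Equiv.addRight v x k - Equiv.addRight v y k| = |x k - y k| := by
    intro k
    show |x k + v k - (y k + v k)| = _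
    congr 1
    ring
  rw [Finset.sum_congr rfl fun k _ => this k]

theorem adj_act {d : ℕ} (w : SPerm d) (x y : Fin d → ℤ) :
    (lat d).Adj x y ↔ (lat d).Adj (actEquiv w x) (actEquiv w y) := by
  rw [lat_adj, lat_adj]
  have : ∀ k, |actEquiv w x k - actEquiv w y k| = |x (w.1 k) - y (w.1 k)| := by
    intro k
    simp only [actEquiv_apply, act]
    rcases Int.units_eq_one_or (w.2 k) with h | h
    · simp [h]
    · simp only [h, Units.val_neg, Units.val_one, neg_smul, one_smul]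
      rw [← neg_add', abs_neg]
      simp [sub_eq_add_neg]
  rw [Finset.sum_congr rfl fun k _ => this k]
  rw [Equiv.sum_comp w.1 (fun k => |x k - y k|)]

/-- the two vertices of an edge -/
noncomputable def ed {n : ℕ} (x y : Fin (n + 1) → ℤ) : (Fin (n + 1) → ℤ) × Fin (n + 1) := by
  classical
  exact if h : ∃ i, y = x + (Pi.single i 1 : Fin (n + 1) → ℤ) then (x, h.choose)
    else if h : ∃ i, x = y + (Pi.single i 1 : Fin (n + 1) → ℤ) then (y, h.choose) else (x, 0)

theorem single_inj {n : ℕ} {i j : Fin (n + 1)}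
    (h : (Pi.single i 1 : Fin (n + 1) → ℤ) = Pi.single j 1) : i = j := by
  by_contra hne
  have := congrFun h i
  rw [Pi.single_eq_same, Pi.single_apply, if_neg hne] at this
  exact one_ne_zero this

theorem ed_add {n : ℕ} (x : Fin (n + 1) → ℤ) (i : Fin (n + 1)) :
    ed x (x + (Pi.single i 1 : Fin (n + 1) → ℤ)) = (x, i) := by
  have h : ∃ j, x + (Pi.single i 1 : Fin (n + 1) → ℤ) = x + (Pi.single j 1 : Fin (n + 1) → ℤ) :=
    ⟨i, rfl⟩
  unfold ed
  rw [dif_pos h]
  rw [← single_inj (add_left_cancel h.choose_spec)]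

theorem ed_add' {n : ℕ} (x : Fin (n + 1) → ℤ) (i : Fin (n + 1)) :
    ed (x + (Pi.single i 1 : Fin (n + 1) → ℤ)) x = (x, i) := by
  have h : ∃ j, x + (Pi.single i 1 : Fin (n + 1) → ℤ) = x + (Pi.single j 1 : Fin (n + 1) → ℤ) :=
    ⟨i, rfl⟩
  have h' : ¬ ∃ j, x = x + (Pi.single i 1 : Fin (n + 1) → ℤ) + (Pi.single j 1 : Fin (n + 1) → ℤ) := by
    rintro ⟨j, hj⟩
    have := congrFun hj i
    rw [Pi.add_apply, Pi.add_apply, Pi.single_eq_same, Pi.single_apply] at this
    split_ifs at this <;> linarith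
  unfold ed
  rw [dif_neg h', dif_pos h]
  rw [← single_inj (add_left_cancel h.choose_spec)]

theorem ed_symm {n : ℕ} {x y : Fin (n + 1) → ℤ} (h : (lat (n + 1)).Adj x y) : ed x y = ed y x := by
  obtain ⟨i, h | h⟩ := adj_iff.1 h
  · rw [h, ed_add, ed_add']
  · rw [h, ed_add, ed_add']

/-- bond percolation as a model -/
noncomputable def bondMod (n : ℕ) : Mod (n + 1) ((Fin (n + 1) → ℤ) × Fin (n + 1)) where
  a := ed
  ax := by
    intro z z' u u' h1 h2 h
    obtain ⟨i, h1 | h1⟩ := adj_iff.1 h1 <;> obtain ⟨j, h2 | h2⟩ := adj_iff.1 h2 <;>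
      rw [h1, h2] at h
    · rw [ed_add, ed_add, Prod.mk.injEq] at h
      left
      rw [h1, h2, h.1, h.2]
    · rw [ed_add, ed_add', Prod.mk.injEq] at h
      right
      rw [h1, h2, h.1, h.2]
      exact ⟨rfl, rfl⟩
    · rw [ed_add, ed_add', Prod.mk.injEq] at h
      right
      rw [h1, h2, h.1, h.2]
      exact ⟨rfl, rfl⟩
    · rw [ed_add', ed_add', Prod.mk.injEq] at h
      left
      rw [h.1]

theorem bond_a {n : ℕ} (x y : Fin (n + 1) → ℤ) : (bondMod n).a x y = ed x y := rfl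

/-- the edge map of a lattice automorphism -/
noncomputable def edMap {n : ℕ} (g : (Fin (n + 1) → ℤ) → (Fin (n + 1) → ℤ))
    (q : (Fin (n + 1) → ℤ) × Fin (n + 1)) : (Fin (n + 1) → ℤ) × Fin (n + 1) :=
  ed (g q.1) (g (q.1 + (Pi.single q.2 1 : Fin (n + 1) → ℤ)))

theorem edMap_ed {n : ℕ} {g : (Fin (n + 1) → ℤ) → (Fin (n + 1) → ℤ)}
    (hg : ∀ x y, (lat (n + 1)).Adj x y → (lat (n + 1)).Adj (g x) (g y))
    {x y : Fin (n + 1) → ℤ} (h : (lat (n + 1)).Adj x y) : edMap g (ed x y) = ed (g x) (g y) := by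
  obtain ⟨i, h1 | h1⟩ := adj_iff.1 h
  · rw [h1, ed_add]
    rfl
  · rw [h1] at h ⊢
    rw [ed_add', ed_symm (hg _ _ h)]
    rfl

theorem bond_inv {n : ℕ} (g : (Fin (n + 1) → ℤ) ≃ (Fin (n + 1) → ℤ))
    (hg : ∀ x y, (lat (n + 1)).Adj x y ↔ (lat (n + 1)).Adj (g x) (g y)) : (bondMod n).Inv g := by
  have hg' : ∀ x y, (lat (n + 1)).Adj x y → (lat (n + 1)).Adj (g.symm x) (g.symm y) := by
    intro x y h
    rw [hg, Equiv.apply_symm_apply, Equiv.apply_symm_apply]
    exact h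
  have hadj : ∀ q : (Fin (n + 1) → ℤ) × Fin (n + 1),
      (lat (n + 1)).Adj q.1 (q.1 + (Pi.single q.2 1 : Fin (n + 1) → ℤ)) := fun q =>
    lat_single (by norm_num)
  refine ⟨hg, ⟨edMap g, edMap g.symm, ?_, ?_⟩, ?_⟩
  · intro q
    show edMap g.symm (ed (g q.1) (g (q.1 + (Pi.single q.2 1 : Fin (n + 1) → ℤ)))) = q
    rw [edMap_ed hg' ((hg _ _).1 (hadj q)), Equiv.symm_apply_apply, Equiv.symm_apply_apply, ed_add]
  · intro q
    show edMap g (ed (g.symm q.1) (g.symm (q.1 + (Pi.single q.2 1 : Fin (n + 1) → ℤ)))) = q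
    rw [edMap_ed (fun x y => (hg x y).1) (hg' _ _ (hadj q)), Equiv.apply_symm_apply,
      Equiv.apply_symm_apply, ed_add]
  · intro x y h
    exact edMap_ed (fun x y => (hg x y).1) h

namespace Bond

/-- bond percolation on `ℤ^d`: the bit `(x, i)` is the state of the edge between `x` and `x + e_i` -/
noncomputable def perc (d : ℕ) (p : ℝ≥0) (hp : p ≤ 1) : Measure ((Fin d → ℤ) × Fin d → Bool) :=
  Measure.infinitePi fun _ => (PMF.bernoulli p hp).toMeasure

/-- the graph of the open edges with both ends in `S` -/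
def openIn {d : ℕ} (ω : (Fin d → ℤ) × Fin d → Bool) (S : Set (Fin d → ℤ)) :
    SimpleGraph (Fin d → ℤ) :=
  SimpleGraph.fromRel fun x z => x ∈ S ∧ z ∈ S ∧ ∃ i : Fin d, z = x + Pi.single i 1 ∧
    ω (x, i) = true

/-- the percolation probability -/
noncomputable def theta (d : ℕ) (p : ℝ≥0) (hp : p ≤ 1) : ℝ :=
  (perc d p hp).real {ω | {y | (openIn ω Set.univ).Reachable 0 y}.Infinite}

/-- the critical point -/
noncomputable def pc (d : ℕ) : ℝ≥0 := sSup {p : ℝ≥0 | ∃ hp : p ≤ 1, theta d p hp = 0}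

theorem pc_le_one (d : ℕ) : pc d ≤ 1 := csSup_le' (by rintro p ⟨hp, -⟩; exact hp)

/-- the box of radius `r` around `x` -/
def box {d : ℕ} (x : Fin d → ℤ) (r : ℕ) : Set (Fin d → ℤ) := {z | ∀ i, |z i - x i| ≤ r}

theorem openIn_adj {n : ℕ} {ω : (Fin (n + 1) → ℤ) × Fin (n + 1) → Bool}
    {S : Set (Fin (n + 1) → ℤ)} {x y : Fin (n + 1) → ℤ} :
    (openIn ω S).Adj x y ↔ x ∈ S ∧ y ∈ S ∧ (lat (n + 1)).Adj x y ∧ ω (ed x y) = true := by
  unfold openIn
  rw [SimpleGraph.fromRel_adj]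
  constructor
  · rintro ⟨hne, ⟨h1, h2, i, h3, h4⟩ | ⟨h1, h2, i, h3, h4⟩⟩
    · refine ⟨h1, h2, adj_iff.2 ⟨i, Or.inl h3⟩, ?_⟩
      rw [h3, ed_add]
      exact h4
    · refine ⟨h2, h1, adj_iff.2 ⟨i, Or.inr h3⟩, ?_⟩
      rw [h3, ed_add']
      exact h4
  · rintro ⟨h1, h2, h3, h4⟩
    refine ⟨h3.ne, ?_⟩
    obtain ⟨i, h5 | h5⟩ := adj_iff.1 h3
    · left
      refine ⟨h1, h2, i, h5, ?_⟩
      rw [h5, ed_add] at h4
      exact h4
    · right
      refine ⟨h2, h1, i, h5, ?_⟩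
      rw [h5, ed_add'] at h4
      exact h4

theorem reach_iff {n : ℕ} {ω : (Fin (n + 1) → ℤ) × Fin (n + 1) → Bool}
    {S : Set (Fin (n + 1) → ℤ)} {x y : Fin (n + 1) → ℤ} (hx : x ∈ S) :
    (openIn ω S).Reachable x y ↔ y ∈ (bondMod n).cl S ω x := by
  rw [SimpleGraph.reachable_iff_reflTransGen]
  constructor
  · intro h
    induction h with
    | refl => exact Mod.self_mem_cl _ _ _
    | @tail b c hb h ih =>
      obtain ⟨h1, h2, h3, h4⟩ := openIn_adj.1 h
      exact Mod.cl_snoc ih ⟨h3, h4, h2⟩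
  · intro h
    induction h with
    | refl => exact Relation.ReflTransGen.refl
    | @tail b c hb h ih =>
      refine ih.tail (openIn_adj.2 ⟨Mod.cl_sub hx hb, h.2.2, h.1, h.2.1⟩)

theorem aboveCrit (n : ℕ) : AboveCrit (bondMod n) (pc (n + 1)) := by
  intro p hp h
  refine le_csSup ⟨1, by rintro q ⟨hq, -⟩; exact hq⟩ ⟨hp, ?_⟩
  unfold theta
  have h1 : {ω : (Fin (n + 1) → ℤ) × Fin (n + 1) → Bool |
      {y | (openIn ω Set.univ).Reachable 0 y}.Infinite} =
      {ω | ((bondMod n).cl Set.univ ω 0).Infinite} := by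
    ext ω
    have : {y | (openIn ω Set.univ).Reachable 0 y} = (bondMod n).cl Set.univ ω 0 := by
      ext y
      exact reach_iff (Set.mem_univ _)
    rw [Set.mem_ofPred_eq, this]
    rfl
  rw [h1]
  have h2 : (perc (n + 1) p hp) {ω | ((bondMod n).cl Set.univ ω 0).Infinite} = 0 := h
  rw [Measure.real, h2]
  rfl

theorem pc_pos (n : ℕ) : 0 < pc (n + 1) :=
  Pool.Agent.W24.Perc.pc_pos (fun v => bond_inv _ (adj_add v)) (pc_le_one _) (aboveCrit n)

theorem cl_shift {n : ℕ} (p : ℝ≥0) (hp : p ≤ 1) (x y : Fin (n + 1) → ℤ) (r : ℕ) :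
    mu _ p hp {ω | y ∈ (bondMod n).cl (box x r) ω x} =
      mu _ p hp {ω | y - x ∈ (bondMod n).cl ↑(bx (n + 1) r) ω 0} := by
  have h := Mod.cl_inv (bond_inv (Equiv.addRight x) (adj_add x)) p hp (↑(bx (n + 1) r)) 0 (y - x)
  have e1 : Equiv.addRight x '' ↑(bx (n + 1) r) = box x r := by
    ext z
    constructor
    · rintro ⟨z', hz', rfl⟩
      rw [Finset.mem_coe, mem_bx] at hz'
      intro i
      show |z' i + x i - x i| ≤ r
      rw [add_sub_cancel_right]
      exact hz' i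
    · intro hz
      refine ⟨z - x, ?_, ?_⟩
      · rw [Finset.mem_coe, mem_bx]
        exact hz
      · show z - x + x = z
        abel
  have e2 : Equiv.addRight x (0 : Fin (n + 1) → ℤ) = x := zero_add x
  have e3 : Equiv.addRight x (y - x) = y := sub_add_cancel y x
  rw [e1, e2, e3] at h
  exact h

theorem final (d : ℕ) (hd : 1 ≤ d) : ∃ c : ℝ, 0 < c ∧ ∃ C : ℕ, ∀ m : ℕ, 1 ≤ m →
    ∀ x y : Fin d → ℤ, (∀ i, |y i - x i| ≤ m) →
      c / (m : ℝ) ^ (d * (d - 1)) ≤ (perc d (pc d) (pc_le_one d)).real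
        {ω | (openIn ω (box x (C * m))).Reachable x y} := by
  obtain ⟨n, rfl⟩ : ∃ n, d = n + 1 := ⟨d - 1, by omega⟩
  obtain ⟨c, hc, C, h⟩ := main (M := bondMod n) (fun v => bond_inv _ (adj_add v))
    (fun w => bond_inv _ (adj_act w)) (pc_le_one (n + 1)) (aboveCrit n)
  refine ⟨c, hc, C, ?_⟩
  intro m hm x y hxy
  have h1 := h m (y - x) hm hxy
  rw [← cl_shift] at h1
  have e : (n + 1) * (n + 1 - 1) = n * (n + 1) := by
    rw [Nat.add_sub_cancel, mul_comm]
  rw [e]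
  refine h1.trans (le_of_eq ?_)
  unfold Measure.real
  congr 1
  show perc (n + 1) (pc (n + 1)) (pc_le_one (n + 1)) _ = _
  congr 1
  ext ω
  exact (reach_iff (fun i => by simp; positivity)).symm

end Bond

end Pool.Agent.W24.Perc
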