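import Pool.Agent.W24.Perc.Crit

set_option autoImplicit false

/-!
# Chaining the connections
-/

namespace Pool.Agent.W24.Perc

open MeasureTheory ProbabilityTheory
open scoped ENNReal NNReal Topology

/-- the bijection given by a signed permutation -/
def actEquiv {d : ℕ} (w : SPerm d) : (Fin d → ℤ) ≃ (Fin d → ℤ) where
  toFun x := act w x
  invFun y k := ((w.2 (w.1.symm k) : ℤˣ) : ℤ) • y (w.1.symm k)
  left_inv x := by
    funext k
    simp only [act, Equiv.apply_symm_apply]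
    rcases Int.units_eq_one_or (w.2 (w.1.symm k)) with h | h <;> simp [h]
  right_inv y := by
    funext k
    simp only [act, Equiv.symm_apply_apply]
    rcases Int.units_eq_one_or (w.2 k) with h | h <;> simp [h]

theorem actEquiv_apply {d : ℕ} (w : SPerm d) (x : Fin d → ℤ) : actEquiv w x = act w x := rfl

theorem act_bx {d : ℕ} (w : SPerm d) {N : ℕ} {x : Fin d → ℤ} (h : x ∈ bx d N) :
    act w x ∈ bx d N := by
  rw [mem_bx] at h ⊢
  intro k
  have := h (w.1 k)
  simp only [act]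
  rcases Int.units_eq_one_or (w.2 k) with h1 | h1
  · simpa [h1] using this
  · simpa [h1] using this

variable {d : ℕ} {E : Type} {M : Mod d E}

/-- moving a connection inside a box by a symmetry -/
theorem move (hT : ∀ v, M.Inv (Equiv.addRight v)) (hS : ∀ w, M.Inv (actEquiv w)) (p : ℝ≥0)
    (hp : p ≤ 1) (w : SPerm d) {N R : ℕ} (s x : Fin d → ℤ) (hs : ∀ k, |s k| + N ≤ R) :
    mu E p hp {ω | x ∈ M.cl ↑(bx d N) ω 0} ≤
      mu E p hp {ω | s + act w x ∈ M.cl ↑(bx d R) ω s} := by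
  rw [← Mod.cl_inv (hS w) p hp, ← Mod.cl_inv (hT s) p hp]
  apply measure_mono
  intro ω hω
  have hω' : Equiv.addRight s (actEquiv w x) ∈ M.cl (Equiv.addRight s '' (actEquiv w '' ↑(bx d N))) ω
    (Equiv.addRight s (actEquiv w 0)) := hω
  have e1 : Equiv.addRight s (actEquiv w 0) = s := by
    rw [actEquiv_apply, act_zero, Equiv.coe_addRight]
    exact zero_add s
  have e2 : Equiv.addRight s (actEquiv w x) = s + act w x := by
    rw [actEquiv_apply, Equiv.coe_addRight, add_comm]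
  rw [e1, e2] at hω'
  refine Mod.cl_mono ?_ (fun _ h => h) _ hω'
  rintro z ⟨z', ⟨z'', hz'', rfl⟩, rfl⟩
  rw [Finset.mem_coe] at hz'' ⊢
  rw [Equiv.coe_addRight, actEquiv_apply, mem_bx]
  intro k
  have h1 := mem_bx.1 (act_bx w hz'') k
  have h2 := hs k
  have h3 := abs_add_le (act w z'' k) (s k)
  show |act w z'' k + s k| ≤ R
  linarith

theorem sum_act_bx {N : ℕ} (m : ℕ) (x : Fin m → Fin d → ℤ) (w : Fin m → SPerm d)
    (hx : ∀ i, x i ∈ bx d N) (k : Fin d) : |(∑ i, act (w i) (x i)) k| ≤ m * N := by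
  rw [Finset.sum_apply]
  calc |∑ i, act (w i) (x i) k| ≤ ∑ i, |act (w i) (x i) k| := Finset.abs_sum_le_sum_abs _ _
    _ ≤ ∑ _i : Fin m, (N : ℤ) := Finset.sum_le_sum fun i _ => mem_bx.1 (act_bx (w i) (hx i)) k
    _ = m * N := by simp

theorem chain [Countable E] (hT : ∀ v, M.Inv (Equiv.addRight v)) (hS : ∀ w, M.Inv (actEquiv w))
    (p : ℝ≥0) (hp : p ≤ 1) {N : ℕ} (m : ℕ) :
    ∀ (x : Fin m → Fin d → ℤ) (w : Fin m → SPerm d), (∀ i, x i ∈ bx d N) →
    ∏ i, mu E p hp {ω | x i ∈ M.cl ↑(bx d N) ω 0} ≤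
      mu E p hp {ω | ∑ i, act (w i) (x i) ∈ M.cl ↑(bx d (m * N)) ω 0} := by
  induction m with
  | zero =>
    intro x w hx
    have : {ω : E → Bool | ∑ i, act (w i) (x i) ∈ M.cl ↑(bx d (0 * N)) ω 0} = Set.univ := by
      apply Set.eq_univ_of_forall
      intro ω
      simp only [Finset.univ_eq_empty, Finset.sum_empty]
      exact Mod.self_mem_cl _ _ _
    rw [this, measure_univ]
    simp
  | succ m ih =>
    intro x w hx
    rw [Fin.prod_univ_castSucc, Fin.sum_univ_castSucc]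
    have h1 := ih (fun i => x i.castSucc) (fun i => w i.castSucc) fun i => hx _
    set s := ∑ i : Fin m, act (w i.castSucc) (x i.castSucc) with hs
    have h2 : mu E p hp {ω | s ∈ M.cl ↑(bx d (m * N)) ω 0} ≤
        mu E p hp {ω | s ∈ M.cl ↑(bx d ((m + 1) * N)) ω 0} := by
      apply measure_mono
      intro ω hω
      refine Mod.cl_mono ?_ (fun _ h => h) _ hω
      intro z hz
      rw [Finset.mem_coe, mem_bx] at hz ⊢
      intro k
      refine (hz k).trans ?_
      have : m * N ≤ (m + 1) * N := Nat.mul_le_mul_right _ (Nat.le_succ _)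
      exact_mod_cast this
    have h3 := move (M := M) hT hS p hp (w (Fin.last m)) (N := N) (R := (m + 1) * N) s (x (Fin.last m))
      (by
        intro k
        have := sum_act_bx m (fun i => x i.castSucc) (fun i => w i.castSucc) (N := N)
          (fun i => hx _) k
        push_cast
        have e : ((m : ℤ) + 1) * N = m * N + N := by ring
        rw [e]
        have h4 : |s k| ≤ m * N := this
        linarith)
    exact (mul_le_mul' (h1.trans h2) h3).trans (Mod.cl_fkg p hp _ _ _ _)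

/-- a connection through a straight path -/
theorem path_prob [Countable E] (p : ℝ≥0) (hp : p ≤ 1) {R : ℕ} (v : Fin d → ℤ)
    (hv : v ∈ bx d R) (m : ℕ) : ∀ u : Fin d → ℤ, u ∈ bx d R → ∑ k, |v k - u k| = m →
    (p : ℝ≥0∞) ^ m ≤ mu E p hp {ω | v ∈ M.cl ↑(bx d R) ω u} := by
  induction m with
  | zero =>
    intro u _ hs
    have h1 : v = u := by
      funext k
      rw [Nat.cast_zero, Finset.sum_eq_zero_iff_of_nonneg (fun _ _ => abs_nonneg _)] at hs
      have := hs k (Finset.mem_univ k)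
      rw [abs_eq_zero, sub_eq_zero] at this
      exact this
    have : {ω : E → Bool | v ∈ M.cl ↑(bx d R) ω u} = Set.univ := by
      apply Set.eq_univ_of_forall
      intro ω
      rw [h1]
      exact Mod.self_mem_cl _ _ _
    rw [this, measure_univ]
    simp
  | succ m ih =>
    intro u hu hs
    obtain ⟨k, hk⟩ : ∃ k, v k ≠ u k := by
      by_contra hcon
      push Not at hcon
      have : ∑ k, |v k - u k| = 0 := Finset.sum_eq_zero fun k _ => by rw [hcon k]; simp
      rw [this] at hs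
      exact absurd hs.symm (by positivity)
    obtain ⟨t, ht, htk, hin⟩ : ∃ t : ℤ, |t| = 1 ∧ |v k - (u k + t)| = |v k - u k| - 1 ∧
        |u k + t| ≤ R := by
      have h1 := mem_bx.1 hu k
      have h2 := mem_bx.1 hv k
      rw [abs_le] at h1 h2
      rcases lt_or_gt_of_ne hk with h | h
      · refine ⟨-1, by norm_num, ?_, ?_⟩
        · rw [abs_of_nonpos (by linarith), abs_of_nonpos (by linarith)]
          ring
        · rw [abs_le]
          constructor <;> linarith
      · refine ⟨1, by norm_num, ?_, ?_⟩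
        · rw [abs_of_nonneg (by linarith), abs_of_nonneg (by linarith)]
          ring
        · rw [abs_le]
          constructor <;> linarith
    set u' : Fin d → ℤ := u + (Pi.single k t : Fin d → ℤ) with hu'
    have hu'k : ∀ j, u' j = if j = k then u k + t else u j := by
      intro j
      rw [hu', Pi.add_apply, Pi.single_apply]
      split_ifs with h
      · rw [h]
      · rw [add_zero]
    have hu'R : u' ∈ bx d R := by
      rw [mem_bx]
      intro j
      rw [hu'k]
      split_ifs with h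
      · exact hin
      · exact mem_bx.1 hu j
    have hs' : ∑ j, |v j - u' j| = m := by
      have h1 : ∀ j, |v j - u' j| = |v j - u j| - if j = k then 1 else 0 := by
        intro j
        rw [hu'k]
        split_ifs with h
        · rw [h, htk]
        · rw [sub_zero]
      rw [Finset.sum_congr rfl fun j _ => h1 j, Finset.sum_sub_distrib, hs]
      simp
    have h1 := ih u' hu'R hs'
    have h2 : (p : ℝ≥0∞) ≤ mu E p hp {ω | u' ∈ M.cl ↑(bx d R) ω u} := by
      rw [← Mod.bit_prob p hp (M.a u u')]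
      apply measure_mono
      intro ω hω
      exact Mod.cl_snoc (Mod.self_mem_cl _ _ _) ⟨lat_single ht, hω, by simpa using hu'R⟩
    rw [pow_succ']
    exact (mul_le_mul' h2 h1).trans (Mod.cl_fkg p hp _ _ _ _)

theorem main {n : ℕ} {M : Mod (n + 1) E} [Countable E] (hT : ∀ v, M.Inv (Equiv.addRight v))
    (hS : ∀ w, M.Inv (actEquiv w)) {pc : ℝ≥0} (hpc : pc ≤ 1) (H : AboveCrit M pc) :
    ∃ c : ℝ, 0 < c ∧ ∃ C : ℕ, ∀ (m : ℕ) (y : Fin (n + 1) → ℤ), 1 ≤ m → (∀ k, |y k| ≤ m) →
      c / (m : ℝ) ^ (n * (n + 1)) ≤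
        (mu E pc hpc {ω | y ∈ M.cl ↑(bx (n + 1) (C * m)) ω 0}).toReal := by
  obtain ⟨c1, hc1, hab⟩ := abstract_bound n
  obtain ⟨c2, hc2, hab⟩ := hab (1 / 3 ^ (n + 1)) (by positivity)
  have hpos : 0 < pc := pc_pos hT hpc H
  have hposR : (0 : ℝ) < pc := hpos
  refine ⟨c2 * (pc : ℝ) ^ ((n + 1) * (n + 1)) / (1 / c1 + 1) ^ (n * (n + 1)), by positivity,
    ⌈((n : ℝ) + 1) * (1 / c1 + 2)⌉₊, ?_⟩
  intro m y hm hy
  have hmR : (1 : ℝ) ≤ m := by exact_mod_cast hm
  set N : ℕ := ⌊(m : ℝ) / c1⌋₊ + 1 with hN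
  have hN1 : (m : ℝ) < c1 * N := by
    have := Nat.lt_floor_add_one ((m : ℝ) / c1)
    rw [div_lt_iff₀ hc1] at this
    rw [hN]
    push_cast
    linarith
  have hN2 : (N : ℝ) ≤ (1 / c1 + 1) * m := by
    have := Nat.floor_le (show 0 ≤ (m : ℝ) / c1 by positivity)
    rw [hN]
    push_cast
    have e : (1 / c1 + 1) * (m : ℝ) = m / c1 + m := by ring
    rw [e]
    linarith
  have hN3 : 1 ≤ N := by omega
  have hNR : (1 : ℝ) ≤ N := by exact_mod_cast hN3
  set R : ℕ := (n + 1) * (N + 1) with hR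
  have hRC : R ≤ ⌈((n : ℝ) + 1) * (1 / c1 + 2)⌉₊ * m := by
    have h1 : (R : ℝ) ≤ (((⌈((n : ℝ) + 1) * (1 / c1 + 2)⌉₊ * m : ℕ)) : ℝ) := by
      rw [hR]
      push_cast
      calc ((n : ℝ) + 1) * (N + 1) ≤ (n + 1) * ((1 / c1 + 1) * m + m) := by
            gcongr
        _ = (((n : ℝ) + 1) * (1 / c1 + 2)) * m := by ring
        _ ≤ _ := by
            gcongr
            exact Nat.le_ceil _
    exact_mod_cast h1
  set tau : (Fin (n + 1) → ℤ) → ℝ := fun x =>
    (mu E pc hpc {ω | x ∈ M.cl ↑(bx (n + 1) N) ω 0}).toReal with htau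
  obtain ⟨x, w, e, hx, hsum, he, hprod⟩ := hab N hN3 tau (fun _ => ENNReal.toReal_nonneg)
    (cut_prop hT hpc H N) y (by
      intro k
      refine lt_of_le_of_lt ?_ hN1
      have := hy k
      exact_mod_cast this)
  have h1 := chain hT hS pc hpc (n + 1) x w hx
  rw [hsum] at h1
  have hyR : y ∈ bx (n + 1) R := by
    rw [mem_bx]
    intro k
    have h2 := sum_act_bx (n + 1) x w hx k
    rw [hsum] at h2
    have h3 := he k
    have h4 : |y k| ≤ |(y + e) k| + |e k| := by
      have := abs_sub ((y + e) k) (e k)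
      rw [Pi.add_apply, add_sub_cancel_right] at this
      rw [Pi.add_apply]
      exact this
    rw [hR]
    push_cast at h2 ⊢
    nlinarith
  have hyeR : y + e ∈ bx (n + 1) R := by
    rw [mem_bx]
    intro k
    have h2 := sum_act_bx (n + 1) x w hx k
    rw [hsum] at h2
    refine h2.trans ?_
    rw [hR]
    push_cast
    nlinarith [Int.natCast_nonneg n]
  have h2 : mu E pc hpc {ω | y + e ∈ M.cl ↑(bx (n + 1) ((n + 1) * N)) ω 0} ≤
      mu E pc hpc {ω | y + e ∈ M.cl ↑(bx (n + 1) R) ω 0} := by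
    apply measure_mono
    intro ω hω
    refine Mod.cl_mono ?_ (fun _ h => h) _ hω
    intro z hz
    rw [Finset.mem_coe, mem_bx] at hz ⊢
    intro k
    refine (hz k).trans ?_
    have : (n + 1) * N ≤ R := Nat.mul_le_mul_left _ (Nat.le_succ _)
    exact_mod_cast this
  obtain ⟨l, hl⟩ : ∃ l : ℕ, ∑ k, |y k - (y + e) k| = l :=
    ⟨(∑ k, |y k - (y + e) k|).toNat, (Int.toNat_of_nonneg
      (Finset.sum_nonneg fun _ _ => abs_nonneg _)).symm⟩
  have hl2 : l ≤ (n + 1) * (n + 1) := by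
    have h3 : (l : ℤ) ≤ ∑ _k : Fin (n + 1), ((n : ℤ) + 1) := by
      rw [← hl]
      apply Finset.sum_le_sum
      intro k _
      rw [Pi.add_apply, sub_add_cancel_left, abs_neg]
      exact he k
    simp only [Finset.sum_const, Finset.card_univ, Fintype.card_fin, nsmul_eq_mul] at h3
    exact_mod_cast h3
  have h3 := path_prob (M := M) pc hpc y hyR l (y + e) hyeR hl
  have h4 : (pc : ℝ≥0∞) ^ ((n + 1) * (n + 1)) ≤ (pc : ℝ≥0∞) ^ l :=
    pow_le_pow_right_of_le_one' (by exact_mod_cast hpc) hl2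
  have h5 := (mul_le_mul' (h1.trans h2) (h4.trans h3)).trans (Mod.cl_fkg (M := M) pc hpc _ _ _ _)
  have h6 : mu E pc hpc {ω | y ∈ M.cl ↑(bx (n + 1) R) ω 0} ≤ mu E pc hpc
      {ω | y ∈ M.cl ↑(bx (n + 1) (⌈((n : ℝ) + 1) * (1 / c1 + 2)⌉₊ * m)) ω 0} := by
    apply measure_mono
    intro ω hω
    refine Mod.cl_mono ?_ (fun _ h => h) _ hω
    intro z hz
    rw [Finset.mem_coe, mem_bx] at hz ⊢
    intro k
    exact (hz k).trans (by exact_mod_cast hRC)
  have h7 := ENNReal.toReal_mono (measure_ne_top _ _) (h5.trans h6)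
  rw [ENNReal.toReal_mul, ENNReal.toReal_prod, ENNReal.toReal_pow, ENNReal.coe_toReal] at h7
  refine le_trans ?_ h7
  have h8 : c2 / (N : ℝ) ^ (n * (n + 1)) * (pc : ℝ) ^ ((n + 1) * (n + 1)) ≤
      (∏ i, tau (x i)) * (pc : ℝ) ^ ((n + 1) * (n + 1)) := by
    gcongr
  refine le_trans ?_ h8
  have h9 : (N : ℝ) ^ (n * (n + 1)) ≤ (1 / c1 + 1) ^ (n * (n + 1)) * (m : ℝ) ^ (n * (n + 1)) := by
    rw [← mul_pow]
    gcongr
  calc c2 * (pc : ℝ) ^ ((n + 1) * (n + 1)) / (1 / c1 + 1) ^ (n * (n + 1)) / (m : ℝ) ^ (n * (n + 1))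
      = c2 * (pc : ℝ) ^ ((n + 1) * (n + 1)) /
        ((1 / c1 + 1) ^ (n * (n + 1)) * (m : ℝ) ^ (n * (n + 1))) := by rw [div_div]
    _ ≤ c2 * (pc : ℝ) ^ ((n + 1) * (n + 1)) / (N : ℝ) ^ (n * (n + 1)) := by
        gcongr
    _ = _ := by ring

end Pool.Agent.W24.Perc
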