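import Mathlib

set_option autoImplicit false

/-!
# Signed permutations `w_i` with `w_1 q_1, ..., w_d q_d` linearly independent for all non-zero
`q_1, ..., q_d` in the closed Weyl chamber
-/

namespace Pool.Agent.W24.Perc

open Finset

/-- the closed Weyl chamber `x_0 ≥ x_1 ≥ ... ≥ 0` -/
def Ch (n : ℕ) : Set (Fin n → ℝ) := {x | Antitone x ∧ ∀ i, 0 ≤ x i}

/-- the signed permutations `w_i`, `i < n` -/
def sg {R : Type} [Neg R] : (n : ℕ) → Fin n → (Fin n → R) → (Fin n → R)
  | 0, i, _ => i.elim0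
  | n + 1, i, x =>
    Fin.cases (motive := fun _ => Fin (n + 1) → R)
      (Fin.cases (motive := fun _ => R) (x 0) (fun j => -(x j.succ)))
      (fun i' => Fin.cases (motive := fun _ => R) (x (Fin.last n))
        (sg n i' (fun k => x k.castSucc))) i

variable {R : Type}

@[simp] theorem sg_zero_zero [Neg R] (n : ℕ) (x : Fin (n + 1) → R) : sg (n + 1) 0 x 0 = x 0 := rfl

@[simp] theorem sg_zero_succ [Neg R] (n : ℕ) (x : Fin (n + 1) → R) (j : Fin n) :
    sg (n + 1) 0 x j.succ = -(x j.succ) := rfl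

@[simp] theorem sg_succ_zero [Neg R] (n : ℕ) (x : Fin (n + 1) → R) (i : Fin n) :
    sg (n + 1) i.succ x 0 = x (Fin.last n) := rfl

@[simp] theorem sg_succ_succ [Neg R] (n : ℕ) (x : Fin (n + 1) → R) (i j : Fin n) :
    sg (n + 1) i.succ x j.succ = sg n i (fun k => x k.castSucc) j := rfl

theorem ch_zero_pos {n : ℕ} {x : Fin (n + 1) → ℝ} (hx : x ∈ Ch (n + 1)) (h0 : x ≠ 0) : 0 < x 0 := by
  rcases (hx.2 0).lt_or_eq with h | h
  · exact h
  · exfalso
    apply h0
    funext i
    exact le_antisymm ((hx.1 (Fin.zero_le i)).trans h.symm.le) (hx.2 i)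

theorem ch_init {n : ℕ} {x : Fin (n + 1) → ℝ} (hx : x ∈ Ch (n + 1)) :
    (fun k : Fin n => x k.castSucc) ∈ Ch n :=
  ⟨fun _ _ h => hx.1 (by simpa using h), fun _ => hx.2 _⟩

theorem ch_tail {n : ℕ} {x : Fin (n + 1) → ℝ} (hx : x ∈ Ch (n + 1)) :
    (fun k : Fin n => x k.succ) ∈ Ch n :=
  ⟨fun _ _ h => hx.1 (by simpa using h), fun _ => hx.2 _⟩

/-- the linear combination -/
def lc (n : ℕ) (q : Fin n → Fin n → ℝ) (a : Fin n → ℝ) : Fin n → ℝ :=
  fun j => ∑ i, a i * sg n i (q i) j

theorem lc_add (n : ℕ) (q : Fin n → Fin n → ℝ) (a b : Fin n → ℝ) :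
    lc n q (a + b) = lc n q a + lc n q b := by
  funext j
  simp [lc, add_mul, Finset.sum_add_distrib]

theorem lc_smul (n : ℕ) (q : Fin n → Fin n → ℝ) (t : ℝ) (a : Fin n → ℝ) :
    lc n q (t • a) = t • lc n q a := by
  funext j
  simp [lc, Finset.mul_sum, mul_assoc]

theorem zero_mem_ch (n : ℕ) : (0 : Fin n → ℝ) ∈ Ch n :=
  ⟨fun _ _ _ => le_rfl, fun _ => le_rfl⟩

/-- coefficients of a vector of the chamber are nonnegative -/
theorem lc_pos (n : ℕ) : ∀ (q : Fin n → Fin n → ℝ), (∀ i, q i ∈ Ch n) → (∀ i, q i ≠ 0) →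
    ∀ a : Fin n → ℝ, lc n q a ∈ Ch n → ∀ i, 0 ≤ a i := by
  induction n with
  | zero => intro q _ _ a _ i; exact i.elim0
  | succ n ih =>
    intro q hq h0 a ha
    set q' : Fin n → Fin n → ℝ := fun i k => q i.succ k.castSucc with hq'
    have hq'c : ∀ i, q' i ∈ Ch n := fun i => ch_init (hq i.succ)
    have hq'0 : ∀ i, q' i ≠ 0 := by
      intro i h
      obtain ⟨m, rfl⟩ : ∃ m, n = m + 1 := ⟨n - 1, by have := i.2; omega⟩
      have h1 := ch_zero_pos (hq i.succ) (h0 i.succ)
      have h2 := congrFun h 0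
      simp only [hq', Pi.zero_apply, Fin.castSucc_zero] at h2
      linarith
    have hinj : Function.Injective (lc n q') := by
      intro b b' hb
      have h1 : lc n q' (b - b') = 0 := by
        have : lc n q' (b - b') + lc n q' b' = lc n q' b := by
          rw [← lc_add]; simp
        rw [hb] at this
        exact add_eq_right.1 this
      have h2 : lc n q' (b' - b) = 0 := by
        have : lc n q' (b' - b) + lc n q' b = lc n q' b' := by
          rw [← lc_add]; simp
        rw [hb] at this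
        exact add_eq_right.1 this
      funext i
      have e1 := ih q' hq'c hq'0 (b - b') (by rw [h1]; exact zero_mem_ch n) i
      have e2 := ih q' hq'c hq'0 (b' - b) (by rw [h2]; exact zero_mem_ch n) i
      simp only [Pi.sub_apply] at e1 e2
      linarith
    let A : (Fin n → ℝ) →ₗ[ℝ] (Fin n → ℝ) :=
      { toFun := lc n q'
        map_add' := lc_add n q'
        map_smul' := lc_smul n q' }
    have hsurj : Function.Surjective (lc n q') := LinearMap.injective_iff_surjective (f := A).1 hinj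
    set c : Fin (n + 1) → ℝ := lc (n + 1) q a with hc
    set c' : Fin n → ℝ := fun k => c k.succ with hc'
    set r0 : Fin n → ℝ := fun k => q 0 k.succ with hr0
    obtain ⟨b2, hb2⟩ := hsurj c'
    obtain ⟨b1, hb1⟩ := hsurj r0
    have hb2n := ih q' hq'c hq'0 b2 (by rw [hb2]; exact ch_tail ha)
    have hb1n := ih q' hq'c hq'0 b1 (by rw [hb1]; exact ch_tail (hq 0))
    set a' : Fin n → ℝ := fun i => a i.succ with ha'
    have hlow : lc n q' a' = c' + a 0 • r0 := by
      funext j
      have e : c j.succ = ∑ i, a i * sg (n + 1) i (q i) j.succ := rfl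
      rw [Fin.sum_univ_succ] at e
      simp only [sg_zero_succ, sg_succ_succ] at e
      simp only [hc', hr0, Pi.add_apply, Pi.smul_apply, smul_eq_mul, e, lc, ha', hq']
      ring
    have hab : a' = b2 + a 0 • b1 := by
      apply hinj
      rw [lc_add, lc_smul, hb2, hb1, hlow]
    have hrow : c 0 = a 0 * q 0 0 + ∑ i, a' i * q i.succ (Fin.last n) := by
      have e : c 0 = ∑ i, a i * sg (n + 1) i (q i) 0 := rfl
      rw [Fin.sum_univ_succ] at e
      simpa only [sg_zero_zero, sg_succ_zero] using e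
    have hlast : ∀ i, 0 ≤ q (Fin.succ i) (Fin.last n) := fun i => (hq i.succ).2 _
    have hr2 : ∑ i, b2 i * q i.succ (Fin.last n) ≤ c 0 := by
      rcases n with _ | m
      · simp only [Finset.univ_eq_empty, Finset.sum_empty]
        exact ha.2 0
      · have e : c' 0 = ∑ i, b2 i * sg (m + 1) i (q' i) 0 := by
          rw [← hb2]; rfl
        have h1 : c' 0 ≤ c 0 := ha.1 (Fin.zero_le _)
        refine le_trans ?_ h1
        rw [e]
        apply Finset.sum_le_sum
        intro i _
        apply mul_le_mul_of_nonneg_left _ (hb2n i)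
        refine Fin.cases ?_ (fun j => ?_) i
        · rw [sg_zero_zero]
          exact (hq _).1 (Fin.le_last _)
        · rw [sg_succ_zero]
          exact (hq _).1 (Fin.le_last _)
    have hs1 : 0 ≤ ∑ i, b1 i * q i.succ (Fin.last n) :=
      Finset.sum_nonneg fun i _ => mul_nonneg (hb1n i) (hlast i)
    have hsum : ∑ i, a' i * q i.succ (Fin.last n) =
        (∑ i, b2 i * q i.succ (Fin.last n)) + a 0 * ∑ i, b1 i * q i.succ (Fin.last n) := by
      rw [Finset.mul_sum, ← Finset.sum_add_distrib]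
      apply Finset.sum_congr rfl
      intro i _
      rw [hab]
      simp only [Pi.add_apply, Pi.smul_apply, smul_eq_mul]
      ring
    have hq00 := ch_zero_pos (hq 0) (h0 0)
    have ha0 : 0 ≤ a 0 := by
      by_contra hneg
      push Not at hneg
      have h1 : a 0 * (q 0 0 + ∑ i, b1 i * q i.succ (Fin.last n)) < 0 :=
        mul_neg_of_neg_of_pos hneg (by linarith)
      rw [hsum] at hrow
      nlinarith
    intro i
    refine Fin.cases ha0 (fun j => ?_) i
    have := congrFun hab j
    simp only [ha', Pi.add_apply, Pi.smul_apply, smul_eq_mul] at this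
    rw [this]
    exact add_nonneg (hb2n j) (mul_nonneg ha0 (hb1n j))

/-- linear independence -/
theorem lc_inj (n : ℕ) (q : Fin n → Fin n → ℝ) (hq : ∀ i, q i ∈ Ch n) (h0 : ∀ i, q i ≠ 0)
    (a : Fin n → ℝ) (h : lc n q a = 0) : a = 0 := by
  funext i
  have h1 := lc_pos n q hq h0 a (by rw [h]; exact zero_mem_ch n) i
  have h2 := lc_pos n q hq h0 (-a) (by
    have : lc n q (-a) = 0 := by
      have := lc_smul n q (-1) a
      simp only [neg_smul, one_smul] at this
      rw [this, h, neg_zero]
    rw [this]; exact zero_mem_ch n) i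
  simp only [Pi.neg_apply, Pi.zero_apply] at h2 ⊢
  linarith

end Pool.Agent.W24.Perc
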