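import Pool.Agent.W24.Perc.Fold
import Pool.Agent.Helper133.Brouwer

set_option autoImplicit false

/-!
# The covering lemma

`d` lattice paths from `0` to distance `N`: every `y` with `|y| < c N` is, up to a bounded error, a
sum of images under signed permutations of one vertex of each path.
-/

namespace Pool.Agent.W24.Perc

open Finset

/-- the folded path, continued by a ray -/
noncomputable def ray {n : ℕ} (z : ℕ → Fin (n + 1) → ℝ) (m : ℕ) (t : ℝ) : Fin (n + 1) → ℝ :=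
  fold (poly z m t) + max (t - m) 0 • Pi.single 0 1

/-- its odd extension -/
noncomputable def oray {n : ℕ} (z : ℕ → Fin (n + 1) → ℝ) (m : ℕ) (t : ℝ) : Fin (n + 1) → ℝ :=
  ray z m (max t 0) - ray z m (max (-t) 0)

theorem e0_mem (n : ℕ) : (Pi.single 0 1 : Fin (n + 1) → ℝ) ∈ Ch (n + 1) := by
  refine ⟨fun i j hij => ?_, fun i => ?_⟩
  · rw [Pi.single_apply, Pi.single_apply]
    split_ifs with h1 h2
    · exact le_rfl
    · subst h1
      exact absurd (Fin.le_zero_iff.1 hij) h2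
    · exact zero_le_one
    · exact le_rfl
  · rw [Pi.single_apply]
    split_ifs
    · exact zero_le_one
    · exact le_rfl

theorem ray_zero {n : ℕ} (z : ℕ → Fin (n + 1) → ℝ) (m : ℕ) : ray z m 0 = 0 := by
  unfold ray
  rw [poly_zero, fold_zero, max_eq_right (by simp), zero_smul, add_zero]

theorem ray_mem {n : ℕ} (z : ℕ → Fin (n + 1) → ℝ) (m : ℕ) (t : ℝ) : ray z m t ∈ Ch (n + 1) :=
  ch_add (fold_mem _) (ch_smul (e0_mem n) (le_max_right _ _))

theorem continuous_ray {n : ℕ} (z : ℕ → Fin (n + 1) → ℝ) (m : ℕ) : Continuous (ray z m) := by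
  unfold ray
  refine ((continuous_fold _).comp (continuous_poly z m)).add ?_
  exact ((continuous_id.sub continuous_const).max continuous_const).smul continuous_const

theorem continuous_oray {n : ℕ} (z : ℕ → Fin (n + 1) → ℝ) (m : ℕ) : Continuous (oray z m) := by
  unfold oray
  exact ((continuous_ray z m).comp (continuous_id.max continuous_const)).sub
    ((continuous_ray z m).comp (continuous_neg.max continuous_const))

theorem oray_nonneg {n : ℕ} (z : ℕ → Fin (n + 1) → ℝ) (m : ℕ) {t : ℝ} (ht : 0 ≤ t) :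
    oray z m t = ray z m t := by
  unfold oray
  rw [max_eq_left ht, max_eq_right (by linarith), ray_zero, sub_zero]

theorem oray_nonpos {n : ℕ} (z : ℕ → Fin (n + 1) → ℝ) (m : ℕ) {t : ℝ} (ht : t ≤ 0) :
    oray z m t = -ray z m (-t) := by
  unfold oray
  rw [max_eq_right ht, max_eq_left (by linarith), ray_zero, zero_sub]

theorem oray_mem {n : ℕ} (z : ℕ → Fin (n + 1) → ℝ) (m : ℕ) (t : ℝ) :
    oray z m t ∈ Ch (n + 1) ∨ -oray z m t ∈ Ch (n + 1) := by
  rcases le_total 0 t with h | h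
  · left
    rw [oray_nonneg z m h]
    exact ray_mem _ _ _
  · right
    rw [oray_nonpos z m h, neg_neg]
    exact ray_mem _ _ _

theorem norm_single_le {n : ℕ} (a : ℝ) : ‖a • (Pi.single 0 1 : Fin (n + 1) → ℝ)‖ ≤ |a| := by
  rw [pi_norm_le_iff_of_nonneg (abs_nonneg a)]
  intro i
  rw [Pi.smul_apply, Pi.single_apply]
  split_ifs
  · simp
  · simp

theorem ray_near {n : ℕ} (z : ℕ → Fin (n + 1) → ℝ) (m : ℕ)
    (hz : ∀ j < m, ‖z (j + 1) - z j‖ ≤ 1) {t : ℝ} (ht : 0 ≤ t) :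
    ‖ray z m t - t • (Pi.single 0 1 : Fin (n + 1) → ℝ)‖ ≤ 2 * m := by
  have e : ray z m t - t • (Pi.single 0 1 : Fin (n + 1) → ℝ) =
      fold (poly z m t) + (max (t - m) 0 - t) • Pi.single 0 1 := by
    unfold ray
    rw [sub_smul]
    abel
  rw [e]
  refine (norm_add_le _ _).trans ?_
  have h1 : ‖fold (poly z m t)‖ ≤ m := by
    rw [norm_fold]
    exact poly_norm z m hz t
  have h2 : ‖(max (t - m) 0 - t) • (Pi.single 0 1 : Fin (n + 1) → ℝ)‖ ≤ m := by
    refine (norm_single_le _).trans ?_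
    have hm : (0 : ℝ) ≤ m := Nat.cast_nonneg m
    rw [abs_le]
    constructor
    · have := le_max_left (t - m) 0
      linarith
    · have : max (t - m) 0 ≤ t := max_le (by linarith) ht
      linarith
  linarith

theorem oray_near {n : ℕ} (z : ℕ → Fin (n + 1) → ℝ) (m : ℕ)
    (hz : ∀ j < m, ‖z (j + 1) - z j‖ ≤ 1) (t : ℝ) :
    ‖oray z m t - t • (Pi.single 0 1 : Fin (n + 1) → ℝ)‖ ≤ 2 * m := by
  rcases le_total 0 t with h | h
  · rw [oray_nonneg z m h]
    exact ray_near z m hz h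
  · rw [oray_nonpos z m h]
    have := ray_near z m hz (t := -t) (by linarith)
    rw [← norm_neg] at this
    have e : -(ray z m (-t) - -t • (Pi.single 0 1 : Fin (n + 1) → ℝ)) =
        -ray z m (-t) - t • (Pi.single 0 1 : Fin (n + 1) → ℝ) := by
      rw [neg_smul]
      abel
    rwa [e] at this

theorem ray_far {n : ℕ} (z : ℕ → Fin (n + 1) → ℝ) (m : ℕ) (h0 : z 0 = 0) {t : ℝ}
    (ht : (m : ℝ) ≤ t) : ‖z m‖ ≤ ‖ray z m t‖ := by
  unfold ray
  rw [poly_end z m h0 ht, ← norm_fold (z m), pi_norm_le_iff_of_nonneg (norm_nonneg _)]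
  intro i
  refine le_trans ?_ (norm_le_pi_norm _ i)
  rw [Pi.add_apply, Real.norm_eq_abs, Real.norm_eq_abs,
    abs_of_nonneg ((fold_mem (z m)).2 i)]
  have h2 : 0 ≤ (max (t - m) 0 • (Pi.single 0 1 : Fin (n + 1) → ℝ)) i :=
    (ch_smul (e0_mem n) (le_max_right _ _)).2 i
  rw [abs_of_nonneg (add_nonneg ((fold_mem (z m)).2 i) h2)]
  linarith

theorem oray_far {n : ℕ} (z : ℕ → Fin (n + 1) → ℝ) (m : ℕ) (h0 : z 0 = 0) {t : ℝ}
    (ht : (m : ℝ) ≤ |t|) : ‖z m‖ ≤ ‖oray z m t‖ := by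
  rcases le_total 0 t with h | h
  · rw [oray_nonneg z m h]
    rw [abs_of_nonneg h] at ht
    exact ray_far z m h0 ht
  · rw [oray_nonpos z m h, norm_neg]
    rw [abs_of_nonpos h] at ht
    exact ray_far z m h0 ht

/-- the map `ℝ^d → ℝ^d` -/
noncomputable def Psi {n : ℕ} (z : Fin (n + 1) → ℕ → Fin (n + 1) → ℝ) (m : Fin (n + 1) → ℕ)
    (t : Fin (n + 1) → ℝ) : Fin (n + 1) → ℝ :=
  ∑ i, sg (n + 1) i (oray (z i) (m i) (t i))

theorem continuous_Psi {n : ℕ} (z : Fin (n + 1) → ℕ → Fin (n + 1) → ℝ) (m : Fin (n + 1) → ℕ) :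
    Continuous (Psi z m) := by
  unfold Psi
  simp only [sg_eq]
  exact continuous_finsetSum _ fun i _ => (continuous_act _).comp
    ((continuous_oray _ _).comp (continuous_apply i))

theorem sum_single_eq {n : ℕ} (t : Fin (n + 1) → ℝ) :
    ∑ i, sg (n + 1) i (t i • (Pi.single 0 1 : Fin (n + 1) → ℝ)) = t := by
  have : ∀ i, sg (n + 1) i (t i • (Pi.single 0 1 : Fin (n + 1) → ℝ)) = Pi.single i (t i) := by
    intro i
    rw [sg_eq, act_smul, ← sg_eq, sg_single]
    funext j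
    rw [Pi.smul_apply, Pi.single_apply, Pi.single_apply]
    split_ifs <;> simp
  simp only [this]
  exact Finset.univ_sum_single t

theorem Psi_near {n : ℕ} (z : Fin (n + 1) → ℕ → Fin (n + 1) → ℝ) (m : Fin (n + 1) → ℕ)
    (hz : ∀ i, ∀ j < m i, ‖z i (j + 1) - z i j‖ ≤ 1) (t : Fin (n + 1) → ℝ) :
    ‖Psi z m t - t‖ ≤ ∑ i, 2 * (m i : ℝ) := by
  have e : Psi z m t - t =
      ∑ i, sg (n + 1) i (oray (z i) (m i) (t i) - t i • (Pi.single 0 1 : Fin (n + 1) → ℝ)) := by
    have e1 : Psi z m t - ∑ i, sg (n + 1) i (t i • (Pi.single 0 1 : Fin (n + 1) → ℝ)) =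
        ∑ i, sg (n + 1) i (oray (z i) (m i) (t i) - t i • (Pi.single 0 1 : Fin (n + 1) → ℝ)) := by
      unfold Psi
      rw [← Finset.sum_sub_distrib]
      apply Finset.sum_congr rfl
      intro i _
      simp only [sg_eq]
      rw [act_sub]
    rwa [sum_single_eq] at e1
  rw [e]
  refine (norm_sum_le _ _).trans (Finset.sum_le_sum fun i _ => ?_)
  rw [sg_eq]
  exact (act_norm_le _ _).trans (oray_near _ _ (hz i) _)

theorem Psi_surj {n : ℕ} (z : Fin (n + 1) → ℕ → Fin (n + 1) → ℝ) (m : Fin (n + 1) → ℕ)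
    (hz : ∀ i, ∀ j < m i, ‖z i (j + 1) - z i j‖ ≤ 1) (y : Fin (n + 1) → ℝ) :
    ∃ t, Psi z m t = y := by
  obtain ⟨t, ht⟩ := Pool.Agent.Helper133.Brouwer.brouwer (fun t => t - Psi z m t + y)
    ((continuous_id.sub (continuous_Psi z m)).add continuous_const)
    ((∑ i, 2 * (m i : ℝ)) + ‖y‖) (by
      intro t
      refine (norm_add_le _ _).trans ?_
      rw [norm_sub_rev]
      exact add_le_add_left (Psi_near z m hz t) _)
  refine ⟨t, ?_⟩
  have h1 : t - Psi z m t + y = t := ht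
  have h2 : y - Psi z m t = 0 := by
    have : t - Psi z m t + y = t + (y - Psi z m t) := by abel
    rw [this] at h1
    exact add_eq_left.1 h1
  exact (sub_eq_zero.1 h2).symm

/-- the covering lemma, real form -/
theorem cover_real (n : ℕ) : ∃ c : ℝ, 0 < c ∧ ∀ (N : ℝ) (m : Fin (n + 1) → ℕ)
    (z : Fin (n + 1) → ℕ → Fin (n + 1) → ℝ), (∀ i, z i 0 = 0) →
    (∀ i, ∀ j < m i, ‖z i (j + 1) - z i j‖ ≤ 1) → (∀ i, N ≤ ‖z i (m i)‖) →
    ∀ y : Fin (n + 1) → ℝ, ‖y‖ < c * N →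
    ∃ (k : Fin (n + 1) → ℕ) (w : Fin (n + 1) → SPerm (n + 1)), (∀ i, k i ≤ m i) ∧
      ‖∑ i, act (w i) (z i (k i)) - y‖ ≤ n + 1 := by
  obtain ⟨c, hc, hlow⟩ := lower (n + 1)
  refine ⟨c, hc, ?_⟩
  intro N m z h0 hz hN y hy
  obtain ⟨t, ht⟩ := Psi_surj z m hz y
  set u : Fin (n + 1) → Fin (n + 1) → ℝ := fun i => oray (z i) (m i) (t i) with hu
  have h1 : c * ‖u‖ ≤ ‖y‖ := by
    have := hlow u (fun i => oray_mem _ _ _)
    rw [← ht]
    exact this
  have h2 : ∀ i, |t i| < m i := by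
    intro i
    by_contra hcon
    push Not at hcon
    have h3 := oray_far (z i) (m i) (h0 i) hcon
    have h4 : ‖u i‖ ≤ ‖u‖ := norm_le_pi_norm u i
    have h5 : N ≤ ‖u‖ := (hN i).trans (h3.trans h4)
    have h6 : c * N ≤ c * ‖u‖ := mul_le_mul_of_nonneg_left h5 hc.le
    linarith
  -- choose the vertices
  have h3 : ∀ i, ∃ (k : ℕ) (w : SPerm (n + 1)), k ≤ m i ∧
      ‖act w (z i k) - sg (n + 1) i (u i)‖ ≤ 1 := by
    intro i
    obtain ⟨hk, hk1⟩ := poly_mid (z i) (m i) (h0 i) (hz i) (abs_nonneg (t i)) (h2 i)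
    set k := ⌊|t i|⌋₊ with hkdef
    have hray : ray (z i) (m i) |t i| = fold (poly (z i) (m i) |t i|) := by
      unfold ray
      rw [max_eq_right (by linarith [h2 i]), zero_smul, add_zero]
    obtain ⟨v, hv⟩ := fold_act (z i k)
    have hnear : ‖act v (z i k) - ray (z i) (m i) |t i|‖ ≤ 1 := by
      rw [hray, ← hv]
      refine (fold_lip _ _).trans ?_
      rw [norm_sub_rev]
      exact hk1
    rcases le_total 0 (t i) with h | h
    · refine ⟨k, (v.1 * (wp (n + 1) i).1, fun j => (wp (n + 1) i).2 j * v.2 ((wp (n + 1) i).1 j)),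
        hk.le, ?_⟩
      rw [← act_mul, sg_eq, ← act_sub]
      refine (act_norm_le _ _).trans ?_
      rw [abs_of_nonneg h] at hnear
      simp only [hu]
      rw [oray_nonneg _ _ h]
      exact hnear
    · refine ⟨k, (v.1 * (wp (n + 1) i).1,
        fun j => -((wp (n + 1) i).2 j * v.2 ((wp (n + 1) i).1 j))), hk.le, ?_⟩
      have e : act (v.1 * (wp (n + 1) i).1,
          fun j => -((wp (n + 1) i).2 j * v.2 ((wp (n + 1) i).1 j))) (z i k) =
          -act (wp (n + 1) i) (act v (z i k)) := by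
        rw [act_mul]
        funext j
        simp [act]
      rw [e, ← act_neg, sg_eq, ← act_sub]
      refine (act_norm_le _ _).trans ?_
      rw [abs_of_nonpos h] at hnear
      simp only [hu]
      rw [oray_nonpos _ _ h]
      have e2 : -act v (z i k) - -ray (z i) (m i) (-t i) =
          -(act v (z i k) - ray (z i) (m i) (-t i)) := by abel
      rw [e2, norm_neg]
      exact hnear
  choose k w hk hw using h3
  refine ⟨k, w, hk, ?_⟩
  have e : ∑ i, act (w i) (z i (k i)) - y =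
      ∑ i, (act (w i) (z i (k i)) - sg (n + 1) i (u i)) := by
    rw [Finset.sum_sub_distrib, ← ht]
    rfl
  rw [e]
  refine (norm_sum_le _ _).trans ?_
  calc ∑ i, ‖act (w i) (z i (k i)) - sg (n + 1) i (u i)‖ ≤ ∑ _i : Fin (n + 1), (1 : ℝ) :=
        Finset.sum_le_sum fun i _ => hw i
    _ = n + 1 := by simp

/-- the covering lemma -/
theorem cover (n : ℕ) : ∃ c : ℝ, 0 < c ∧ ∀ (N : ℕ) (m : Fin (n + 1) → ℕ)
    (z : Fin (n + 1) → ℕ → Fin (n + 1) → ℤ), (∀ i, z i 0 = 0) →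
    (∀ i, ∀ j < m i, ∀ k, |z i (j + 1) k - z i j k| ≤ 1) → (∀ i, ∃ k, (N : ℤ) ≤ |z i (m i) k|) →
    ∀ y : Fin (n + 1) → ℤ, (∀ k, (|y k| : ℝ) < c * N) →
    ∃ (k : Fin (n + 1) → ℕ) (w : Fin (n + 1) → SPerm (n + 1)), (∀ i, k i ≤ m i) ∧
      ∀ j, |(∑ i, act (w i) (z i (k i))) j - y j| ≤ n + 1 := by
  obtain ⟨c, hc, h⟩ := cover_real n
  refine ⟨c, hc, ?_⟩
  intro N m z h0 hz hN y hy
  obtain ⟨k, w, hk, hw⟩ := h N m (fun i j l => (z i j l : ℝ)) (by
      intro i
      funext l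
      simp [h0 i]) (by
      intro i j hj
      rw [pi_norm_le_iff_of_nonneg zero_le_one]
      intro l
      have := hz i j hj l
      rw [Pi.sub_apply, Real.norm_eq_abs]
      exact_mod_cast this) (by
      intro i
      obtain ⟨l, hl⟩ := hN i
      have h1 := norm_le_pi_norm (fun l => (z i (m i) l : ℝ)) l
      rw [Real.norm_eq_abs] at h1
      refine le_trans ?_ h1
      exact_mod_cast hl) (fun l => (y l : ℝ)) (by
      rw [pi_norm_lt_iff ((abs_nonneg ((y 0 : ℤ) : ℝ)).trans_lt (hy 0))]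
      intro l
      rw [Real.norm_eq_abs]
      exact hy l)
  refine ⟨k, w, hk, ?_⟩
  intro j
  have h1 := (norm_le_pi_norm _ j).trans hw
  rw [Pi.sub_apply, Finset.sum_apply, Real.norm_eq_abs] at h1
  have e : ∀ i, (act (w i) (fun l => (z i (k i) l : ℝ))) j = ((act (w i) (z i (k i)) j : ℤ) : ℝ) := by
    intro i
    simp [act]
  simp only [e] at h1
  rw [Finset.sum_apply]
  exact_mod_cast h1

end Pool.Agent.W24.Perc
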