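import Pool.Agent.W24.Perc.Simon

set_option autoImplicit false

/-!
# The critical point and the lower bound for the connectivity
-/

namespace Pool.Agent.W24.Perc

open MeasureTheory ProbabilityTheory
open scoped ENNReal NNReal Topology

namespace Mod

variable {d : ℕ} {E : Type} {M : Mod d E}

theorem Far_of_infinite {ω : E → Bool} (h : (M.cl Set.univ ω 0).Infinite) (n : ℕ) :
    M.Far n 0 ω := by
  by_contra hn
  apply h
  apply Set.Finite.subset (bx d n).finite_toSet
  intro y hy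
  rw [Finset.mem_coe, mem_bx]
  intro k
  by_contra hk
  push Not at hk
  exact hn ⟨y, hy, k, by simpa using hk.le⟩

theorem Z_pow (hT : ∀ v, M.Inv (Equiv.addRight v)) (p : ℝ≥0) (hp : p ≤ 1)
    {B : Finset (Fin d → ℤ)} (h0 : (0 : Fin d → ℤ) ∈ B) {r : ℕ} (hB : B ⊆ bx d r) (k : ℕ) :
    M.Z p hp (k * (r + 1)) ≤ (M.phi p hp B) ^ k := by
  induction k with
  | zero =>
    rw [pow_zero]
    exact prob_le_one
  | succ k ih =>
    have e : (k + 1) * (r + 1) = k * (r + 1) + r + 1 := by ring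
    rw [e, pow_succ']
    exact (simon hT p hp h0 hB _).trans (by gcongr)

theorem zero_of_phi (hT : ∀ v, M.Inv (Equiv.addRight v)) (p : ℝ≥0) (hp : p ≤ 1)
    {B : Finset (Fin d → ℤ)} (h0 : (0 : Fin d → ℤ) ∈ B) (hphi : M.phi p hp B < 1) :
    mu E p hp {ω | (M.cl Set.univ ω 0).Infinite} = 0 := by
  obtain ⟨r, hB⟩ : ∃ r, B ⊆ bx d r := by
    refine ⟨∑ x ∈ B, ∑ k, (x k).natAbs, fun x hx => mem_bx.2 fun k => ?_⟩
    have h1 : (x k).natAbs ≤ ∑ k, (x k).natAbs :=
      Finset.single_le_sum (f := fun k => (x k).natAbs) (fun _ _ => Nat.zero_le _)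
        (Finset.mem_univ k)
    have h2 : ∑ k, (x k).natAbs ≤ ∑ x ∈ B, ∑ k, (x k).natAbs :=
      Finset.single_le_sum (f := fun x : Fin d → ℤ => ∑ k, (x k).natAbs)
        (fun _ _ => Nat.zero_le _) hx
    have h3 : ((x k).natAbs : ℤ) ≤ ((∑ x ∈ B, ∑ k, (x k).natAbs : ℕ) : ℤ) := by
      exact_mod_cast h1.trans h2
    rwa [Int.natCast_natAbs] at h3
  have h1 : ∀ k, mu E p hp {ω | (M.cl Set.univ ω 0).Infinite} ≤ (M.phi p hp B) ^ k := fun k =>
    (measure_mono fun ω (hω : (M.cl Set.univ ω 0).Infinite) =>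
      Far_of_infinite hω (k * (r + 1))).trans (Z_pow hT p hp h0 hB k)
  have h2 := ENNReal.tendsto_pow_atTop_nhds_zero_of_lt_one hphi
  exact le_antisymm (ge_of_tendsto' h2 h1) (zero_le)

theorem exit_dep (B : Finset (Fin d → ℤ)) (h0 : (0 : Fin d → ℤ) ∈ B)
    (q : (Fin d → ℤ) × (Fin d → ℤ)) :
    Dep (↑(M.T2 B B q) : Set E) {ω | q.1 ∈ M.cl ↑B ω 0 ∧ ω (M.a q.1 q.2) = true} := by
  classical
  have key : ∀ ω ω' : E → Bool, (∀ e ∈ (↑(M.T2 B B q) : Set E), ω e = ω' e) →
      (q.1 ∈ M.cl ↑B ω 0 ∧ ω (M.a q.1 q.2) = true) →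
      (q.1 ∈ M.cl ↑B ω' 0 ∧ ω' (M.a q.1 q.2) = true) := by
    rintro ω ω' h ⟨h1, h2⟩
    refine ⟨?_, ?_⟩
    · clear h2
      have key2 : ∀ y, y ∈ M.cl (↑B : Set (Fin d → ℤ)) ω 0 →
          y ∈ M.cl (↑B : Set (Fin d → ℤ)) ω' 0 := by
        intro y hy
        induction hy with
        | refl => exact self_mem_cl _ _ _
        | @tail b c hb h' ih =>
          have hbB : b ∈ B := by
            have := cl_sub (M := M) (L := (↑B : Set (Fin d → ℤ))) (by simpa using h0) hb
            simpa using this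
          refine cl_snoc ih ⟨h'.1, ?_, h'.2.2⟩
          rw [← h _ (by
            unfold T2
            exact Finset.mem_coe.2 (Finset.mem_insert_of_mem (mem_T1 h'.1 hbB h'.2.2)))]
          exact h'.2.1
      exact key2 _ h1
    · rw [← h _ (by unfold T2; exact Finset.mem_coe.2 (Finset.mem_insert_self _ _))]
      exact h2
  intro ω ω' h
  exact ⟨key ω ω' h, key ω' ω fun e he => (h e he).symm⟩

theorem phi_poly (B : Finset (Fin d → ℤ)) (h0 : (0 : Fin d → ℤ) ∈ B) :
    ∃ f : ℝ → ℝ, Continuous f ∧ ∀ (p : ℝ≥0) (hp : p ≤ 1), (M.phi p hp B).toReal = f p := by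
  have h1 := fun q => local_prob (M.T2 B B q) _ (exit_dep (M := M) B h0 q)
  choose f hf using h1
  refine ⟨fun x => ∑ q ∈ Pr B, (f q).eval x, ?_, ?_⟩
  · exact continuous_finsetSum _ fun q _ => (f q).continuous
  · intro p hp
    unfold phi
    rw [ENNReal.toReal_sum fun q _ => measure_ne_top _ _]
    exact Finset.sum_congr rfl fun q _ => hf q p hp

theorem phi_lt_top (p : ℝ≥0) (hp : p ≤ 1) (B : Finset (Fin d → ℤ)) : M.phi p hp B ≠ ⊤ := by
  unfold phi
  exact (ENNReal.sum_lt_top.2 fun q _ => measure_lt_top _ _).ne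

theorem bit_prob (p : ℝ≥0) (hp : p ≤ 1) (e : E) : mu E p hp {ω | ω e = true} = p := by
  have h := all_open p hp {e}
  simp only [Finset.mem_singleton, forall_eq, Finset.card_singleton, pow_one] at h
  exact h

end Mod

section dim

variable {n : ℕ} {E : Type} {M : Mod (n + 1) E}

theorem lat_adj {d : ℕ} {x y : Fin d → ℤ} : (lat d).Adj x y ↔ ∑ k, |x k - y k| = 1 := Iff.rfl

theorem lat_single {d : ℕ} {z : Fin d → ℤ} {k : Fin d} {t : ℤ} (ht : |t| = 1) :
    (lat d).Adj z (z + Pi.single k t) := by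
  have h1 : ∀ j, |z j - (z + (Pi.single k t : Fin d → ℤ)) j| = if j = k then 1 else 0 := by
    intro j
    rw [Pi.add_apply, Pi.single_apply]
    split_ifs with h
    · rw [sub_add_cancel_left, abs_neg, ht]
    · simp
  rw [lat_adj, Finset.sum_congr rfl fun j _ => h1 j]
  simp

theorem infinite_one {ω : E → Bool} (h : ∀ e, ω e = true) :
    (M.cl Set.univ ω 0).Infinite := by
  have h1 : ∀ k : ℕ, (Pi.single 0 (k : ℤ) : Fin (n + 1) → ℤ) ∈ M.cl Set.univ ω 0 := by
    intro k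
    induction k with
    | zero => simpa using Mod.self_mem_cl (M := M) Set.univ ω 0
    | succ k ih =>
      refine Mod.cl_snoc ih ⟨?_, h _, Set.mem_univ _⟩
      have e : (Pi.single 0 ((k + 1 : ℕ) : ℤ) : Fin (n + 1) → ℤ) =
          Pi.single 0 (k : ℤ) + Pi.single 0 1 := by
        rw [← Pi.single_add]
        push_cast
        rfl
      rw [e]
      exact lat_single (by norm_num)
  refine Set.infinite_of_injective_forall_mem (f := fun k : ℕ =>
    (Pi.single 0 (k : ℤ) : Fin (n + 1) → ℤ)) ?_ h1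
  intro a b hab
  have := congrFun hab 0
  simpa using this

theorem prob_one [Countable E] : mu E 1 le_rfl {ω | (M.cl Set.univ ω 0).Infinite} = 1 := by
  have h1 : ∀ᵐ ω ∂(mu E 1 le_rfl), ∀ e, ω e = true := by
    rw [ae_all_iff]
    intro e
    have h := Mod.bit_prob 1 le_rfl e
    rw [ENNReal.coe_one] at h
    exact mem_ae_iff_prob_eq_one (Mod.bit_meas e) |>.2 h
  have h2 : ∀ᵐ ω ∂(mu E 1 le_rfl), ω ∈ {ω : E → Bool | (M.cl Set.univ ω 0).Infinite} := by
    filter_upwards [h1] with ω hω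
    exact infinite_one hω
  refine le_antisymm prob_le_one ?_
  have h3 : mu E 1 le_rfl Set.univ ≤ mu E 1 le_rfl {ω | (M.cl Set.univ ω 0).Infinite} :=
    measure_mono_ae (by
      filter_upwards [h2] with ω hω _
      exact hω)
  rwa [measure_univ] at h3

/-- `pc` is at least the critical point -/
def AboveCrit (M : Mod (n + 1) E) (pc : ℝ≥0) : Prop :=
  ∀ (p : ℝ≥0) (hp : p ≤ 1), mu E p hp {ω | (M.cl Set.univ ω 0).Infinite} = 0 → p ≤ pc

theorem phi_ge_one [Countable E] (hT : ∀ v, M.Inv (Equiv.addRight v)) {pc : ℝ≥0} (hpc : pc ≤ 1)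
    (H : AboveCrit M pc) {B : Finset (Fin (n + 1) → ℤ)} (h0 : (0 : Fin (n + 1) → ℤ) ∈ B) :
    1 ≤ M.phi pc hpc B := by
  by_contra hcon
  push Not at hcon
  rcases hpc.lt_or_eq with h1 | h1
  · obtain ⟨f, hf, hfe⟩ := Mod.phi_poly (M := M) B h0
    have h2 : f pc < 1 := by
      rw [← hfe pc hpc]
      have := (ENNReal.toReal_lt_toReal hcon.ne_top ENNReal.one_ne_top).2 hcon
      simpa using this
    have h3 : ∀ᶠ x in 𝓝 (pc : ℝ), f x < 1 := hf.continuousAt.eventually_lt continuousAt_const h2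
    have h4 : ∀ᶠ x in 𝓝[>] (pc : ℝ), f x < 1 := h3.filter_mono nhdsWithin_le_nhds
    have h5 : ∀ᶠ x in 𝓝[>] (pc : ℝ), x ∈ Set.Ioo (pc : ℝ) 1 :=
      Ioo_mem_nhdsGT (by exact_mod_cast h1)
    obtain ⟨x, hx1, hx2⟩ := (h4.and h5).exists
    have hx0 : 0 ≤ x := le_trans pc.2 hx2.1.le
    lift x to ℝ≥0 using hx0
    have hxp : x ≤ 1 := by
      rw [← NNReal.coe_le_coe]
      exact hx2.2.le
    have h6 : M.phi x hxp B < 1 := by
      rw [← ENNReal.toReal_lt_toReal (Mod.phi_lt_top _ _ _) ENNReal.one_ne_top, hfe]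
      simpa using hx1
    have h7 := H _ hxp (Mod.zero_of_phi hT _ hxp h0 h6)
    rw [← NNReal.coe_le_coe] at h7
    exact absurd hx2.1 (not_lt.2 h7)
  · subst h1
    have h2 := Mod.zero_of_phi hT _ hpc h0 hcon
    rw [prob_one] at h2
    exact one_ne_zero h2

theorem pc_pos [Countable E] (hT : ∀ v, M.Inv (Equiv.addRight v)) {pc : ℝ≥0} (hpc : pc ≤ 1)
    (H : AboveCrit M pc) : 0 < pc := by
  rcases eq_zero_or_pos pc with h | h
  · exfalso
    have h1 := phi_ge_one hT hpc H (B := {0}) (Finset.mem_singleton_self _)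
    have h2 : M.phi pc hpc {0} = 0 := by
      unfold Mod.phi
      apply Finset.sum_eq_zero
      intro q _
      refine le_antisymm ?_ zero_le
      have h3 : mu E pc hpc {ω | q.1 ∈ M.cl ↑({0} : Finset (Fin (n + 1) → ℤ)) ω 0 ∧
          ω (M.a q.1 q.2) = true} ≤ mu E pc hpc {ω | ω (M.a q.1 q.2) = true} :=
        measure_mono (fun ω hω => hω.2)
      refine h3.trans ?_
      rw [Mod.bit_prob, h]
      simp
    rw [h2] at h1
    exact absurd h1 (by simp)
  · exact h

/-! ## the cut property -/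

theorem walk_of_reach {V : Type} {G : SimpleGraph V} {P : V → Prop} {x y : V} (hx : P x)
    (h : Relation.ReflTransGen (fun z z' => G.Adj z z' ∧ P z') x y) :
    ∃ w : G.Walk x y, ∀ z ∈ w.support, P z := by
  induction h with
  | refl => exact ⟨SimpleGraph.Walk.nil, by simpa using hx⟩
  | @tail b c _ h ih =>
    obtain ⟨w, hw⟩ := ih
    refine ⟨w.concat h.1, ?_⟩
    intro z hz
    rw [SimpleGraph.Walk.support_concat] at hz
    rw [List.mem_append] at hz
    rcases hz with hz | hz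
    · exact hw z hz
    · rw [List.mem_singleton] at hz
      rw [hz]
      exact h.2

theorem cut_prop [Countable E] (hT : ∀ v, M.Inv (Equiv.addRight v)) {pc : ℝ≥0} (hpc : pc ≤ 1)
    (H : AboveCrit M pc) (N : ℕ) :
    CutProp (n + 1) N (fun x => (mu E pc hpc {ω | x ∈ M.cl ↑(bx (n + 1) N) ω 0}).toReal)
      (1 / 3 ^ (n + 1)) := by
  classical
  intro K hK hcut
  have h0L : (0 : Fin (n + 1) → ℤ) ∈ bx (n + 1) N := mem_bx.2 fun k => by simp
  by_cases h0K : (0 : Fin (n + 1) → ℤ) ∈ K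
  · have h1 : (mu E pc hpc {ω | (0 : Fin (n + 1) → ℤ) ∈ M.cl ↑(bx (n + 1) N) ω 0}).toReal = 1 := by
      have : {ω : E → Bool | (0 : Fin (n + 1) → ℤ) ∈ M.cl ↑(bx (n + 1) N) ω 0} = Set.univ :=
        Set.eq_univ_of_forall fun ω => Mod.self_mem_cl _ _ _
      rw [this, measure_univ]
      rfl
    calc (1 : ℝ) / 3 ^ (n + 1) ≤ 1 := by
          rw [div_le_one (by positivity)]
          exact one_le_pow₀ (by norm_num)
      _ = _ := h1.symm
      _ ≤ _ := Finset.single_le_sum (f := fun x : Fin (n + 1) → ℤ =>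
          (mu E pc hpc {ω | x ∈ M.cl ↑(bx (n + 1) N) ω 0}).toReal)
          (fun _ _ => ENNReal.toReal_nonneg) h0K
  · set P : (Fin (n + 1) → ℤ) → Prop := fun z => z ∈ bx (n + 1) N ∧ z ∉ K with hP
    set B : Finset (Fin (n + 1) → ℤ) := (bx (n + 1) N).filter (fun y =>
      Relation.ReflTransGen (fun z z' => (lat (n + 1)).Adj z z' ∧ P z') 0 y) with hB
    have h0B : (0 : Fin (n + 1) → ℤ) ∈ B := by
      rw [hB, Finset.mem_filter]
      exact ⟨h0L, Relation.ReflTransGen.refl⟩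
    have hPr : ∀ q ∈ Pr B, q.2 ∈ K := by
      intro q hq
      obtain ⟨h1, h2, h3⟩ := mem_Pr.1 hq
      rw [hB, Finset.mem_filter] at h1
      have h4 : q.2 ∈ bx (n + 1) N := by
        rw [mem_bx]
        intro k
        obtain ⟨w, hw⟩ := walk_of_reach (G := lat (n + 1)) (P := P) ⟨h0L, h0K⟩ h1.2
        have h5 : |q.1 k| < N := by
          by_contra h5
          push Not at h5
          obtain ⟨x, hx1, hx2⟩ := hcut q.1 ⟨k, h5⟩ w fun z hz => (hw z hz).1
          exact (hw x hx1).2 hx2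
        have h6 := lat_adj_le h2 k
        have h7 : |q.2 k| ≤ |q.1 k| + |q.2 k - q.1 k| := by
          have := abs_add_le (q.1 k) (q.2 k - q.1 k)
          simpa using this
        linarith
      by_contra h5
      apply h3
      rw [hB, Finset.mem_filter]
      exact ⟨h4, h1.2.tail ⟨h2, h4, h5⟩⟩
    have hBL : (↑B : Set (Fin (n + 1) → ℤ)) ⊆ ↑(bx (n + 1) N) := by
      rw [hB]
      exact_mod_cast Finset.filter_subset _ _
    have h1 := phi_ge_one hT hpc H h0B
    have h2 : M.phi pc hpc B ≤ ∑ q ∈ Pr B, mu E pc hpc {ω | q.2 ∈ M.cl ↑(bx (n + 1) N) ω 0} := by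
      unfold Mod.phi
      apply Finset.sum_le_sum
      intro q hq
      apply measure_mono
      rintro ω ⟨h3, h4⟩
      have h5 : q.1 ∈ M.cl ↑(bx (n + 1) N) ω 0 := Mod.cl_mono hBL (fun _ h => h) _ h3
      exact Mod.cl_snoc h5 ⟨(mem_Pr.1 hq).2.1, h4, by simpa using hK (hPr q hq)⟩
    have h3 : ∑ q ∈ Pr B, mu E pc hpc {ω | q.2 ∈ M.cl ↑(bx (n + 1) N) ω 0} ≤
        ∑ y ∈ K, ((3 : ℝ≥0∞) ^ (n + 1)) * mu E pc hpc {ω | y ∈ M.cl ↑(bx (n + 1) N) ω 0} := by
      rw [← Finset.sum_fiberwise_of_maps_to (s := Pr B) (t := K) (g := fun q => q.2) hPr]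
      apply Finset.sum_le_sum
      intro y _
      have h4 : ∑ q ∈ (Pr B).filter (fun q => q.2 = y),
          mu E pc hpc {ω | q.2 ∈ M.cl ↑(bx (n + 1) N) ω 0} =
          ∑ q ∈ (Pr B).filter (fun q => q.2 = y),
          mu E pc hpc {ω | y ∈ M.cl ↑(bx (n + 1) N) ω 0} := by
        apply Finset.sum_congr rfl
        intro q hq
        rw [(Finset.mem_filter.1 hq).2]
      rw [h4, Finset.sum_const, nsmul_eq_mul]
      gcongr
      have h5 : ((Pr B).filter (fun q => q.2 = y)).card ≤ (bx (n + 1) 1).card := by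
        apply Finset.card_le_card_of_injOn (fun q => q.1 - y)
        · intro q hq
          rw [Finset.mem_coe, Finset.mem_filter] at hq
          rw [Finset.mem_coe, mem_bx]
          intro k
          have h6 := lat_adj_le (mem_Pr.1 hq.1).2.1.symm k
          rw [hq.2] at h6
          simpa using h6
        · intro q hq q' hq' h6
          rw [Finset.mem_coe, Finset.mem_filter] at hq hq'
          exact Prod.ext (sub_left_injective h6) (hq.2.trans hq'.2.symm)
      rw [card_bx] at h5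
      have h6 : ((Finset.card ((Pr B).filter (fun q => q.2 = y)) : ℕ) : ℝ≥0∞) ≤
          ((2 * 1 + 1) ^ (n + 1) : ℕ) := by exact_mod_cast h5
      refine h6.trans (le_of_eq ?_)
      push_cast
      norm_num
    have h4 := h1.trans (h2.trans h3)
    rw [← Finset.mul_sum] at h4
    have h5 : (1 : ℝ) ≤ 3 ^ (n + 1) *
        ∑ y ∈ K, (mu E pc hpc {ω | y ∈ M.cl ↑(bx (n + 1) N) ω 0}).toReal := by
      have h6 : (3 : ℝ≥0∞) ^ (n + 1) * ∑ y ∈ K, mu E pc hpc {ω | y ∈ M.cl ↑(bx (n + 1) N) ω 0} ≠ ⊤ := by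
        apply ENNReal.mul_ne_top
        · exact ENNReal.pow_ne_top (by norm_num)
        · exact (ENNReal.sum_lt_top.2 fun q _ => measure_lt_top _ _).ne
      have h7 := (ENNReal.toReal_le_toReal ENNReal.one_ne_top h6).2 h4
      rw [ENNReal.toReal_mul, ENNReal.toReal_sum fun q _ => measure_ne_top _ _,
        ENNReal.toReal_pow] at h7
      simpa using h7
    rw [div_le_iff₀ (by positivity), mul_comm]
    exact h5

end dim

end Pool.Agent.W24.Perc
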