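import Pool.Agent.W24.Perc.Cover

set_option autoImplicit false

/-!
# From cuts to paths: a weighted count of the solutions
-/

namespace Pool.Agent.W24.Perc

open Finset MeasureTheory

/-- lengths of walks from `o` to `x` inside `L` -/
def lens {V : Type} (G : SimpleGraph V) (o : V) (L : Finset V) (l : V → ℝ) (x : V) : Set ℝ :=
  {s | ∃ w : G.Walk o x, (∀ z ∈ w.support, z ∈ L) ∧ s = (w.support.map l).sum}

/-- distance -/
noncomputable def Dst {V : Type} (G : SimpleGraph V) (o : V) (L : Finset V) (l : V → ℝ) (x : V) : ℝ :=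
  sInf (lens G o L l x)

theorem toFinset_sum_le {V : Type} [DecidableEq V] (s : List V) {l : V → ℝ} (hl : ∀ x, 0 ≤ l x) :
    ∑ x ∈ s.toFinset, l x ≤ (s.map l).sum := by
  induction s with
  | nil => simp
  | cons a s ih =>
    rw [List.toFinset_cons, List.map_cons, List.sum_cons]
    by_cases h : a ∈ s.toFinset
    · rw [Finset.insert_eq_of_mem h]
      have := hl a
      linarith
    · rw [Finset.sum_insert h]
      linarith

section
variable {V : Type} {G : SimpleGraph V} {o : V} {L : Finset V} {l : V → ℝ}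

theorem lens_bdd (hl : ∀ x, 0 ≤ l x) (x : V) : BddBelow (lens G o L l x) := by
  refine ⟨0, ?_⟩
  rintro s ⟨w, -, rfl⟩
  apply List.sum_nonneg
  intro a ha
  obtain ⟨z, -, rfl⟩ := List.mem_map.1 ha
  exact hl z

theorem Dst_step (hl : ∀ x, 0 ≤ l x) {x y : V} (hx : (lens G o L l x).Nonempty) (h : G.Adj x y)
    (hy : y ∈ L) : (lens G o L l y).Nonempty ∧ Dst G o L l y - l y ≤ Dst G o L l x := by
  have key : ∀ s ∈ lens G o L l x, s + l y ∈ lens G o L l y := by
    rintro s ⟨w, hw, rfl⟩
    refine ⟨w.concat h, ?_, ?_⟩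
    · intro z hz
      rw [SimpleGraph.Walk.support_concat] at hz
      simp only [List.mem_append, List.mem_singleton] at hz
      rcases hz with hz | rfl
      · exact hw z hz
      · exact hy
    · rw [SimpleGraph.Walk.support_concat]
      simp
  obtain ⟨s, hs⟩ := hx
  refine ⟨⟨_, key s hs⟩, ?_⟩
  apply le_csInf ⟨s, hs⟩
  intro s hs
  have := csInf_le (lens_bdd hl y) (key s hs)
  unfold Dst
  linarith

theorem cut_walk (hl : ∀ x, 0 ≤ l x) (t : ℝ) {u v : V} (w : G.Walk u v)
    (hw : ∀ z ∈ w.support, z ∈ L) (hu : (lens G o L l u).Nonempty)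
    (h1 : Dst G o L l u - l u < t) (h2 : t ≤ Dst G o L l v) :
    ∃ x ∈ w.support, Dst G o L l x - l x < t ∧ t ≤ Dst G o L l x := by
  induction w with
  | nil => exact ⟨_, by simp, h1, h2⟩
  | @cons u u' v h w ih =>
    by_cases hc : t ≤ Dst G o L l u
    · exact ⟨u, by simp, h1, hc⟩
    · push Not at hc
      have hu' : u' ∈ L := hw u' (by simp)
      obtain ⟨e1, e2⟩ := Dst_step hl hu h hu'
      obtain ⟨x, hx, hx'⟩ := ih (fun z hz => hw z (by simp [hz])) e1 (by linarith) h2
      exact ⟨x, by simp [hx], hx'⟩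

/-- the length-area inequality -/
theorem length_area [DecidableEq V] (ho : o ∈ L) (B : Set V) (tau : V → ℝ) (ht : ∀ x, 0 ≤ tau x)
    (c : ℝ) (hcut : ∀ K ⊆ L, (∀ b ∈ B, ∀ w : G.Walk o b, (∀ z ∈ w.support, z ∈ L) →
      ∃ x ∈ w.support, x ∈ K) → c ≤ ∑ x ∈ K, tau x)
    (hl : ∀ x, 0 ≤ l x) (h : ∀ b ∈ B, ∀ w : G.Walk o b, (∀ z ∈ w.support, z ∈ L) →
      1 ≤ ∑ x ∈ w.support.toFinset, l x) :
    c ≤ ∑ x ∈ L, tau x * l x := by
  classical
  set D := Dst G o L l with hD
  have hnil : l o ∈ lens G o L l o := ⟨SimpleGraph.Walk.nil, by simpa using ho, by simp⟩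
  have hDo : D o - l o ≤ 0 := by
    have : D o ≤ l o := csInf_le (lens_bdd hl o) hnil
    linarith
  have hDb : ∀ b ∈ B, ∀ w : G.Walk o b, (∀ z ∈ w.support, z ∈ L) → 1 ≤ D b := by
    intro b hb w hw
    have hne : (lens G o L l b).Nonempty := ⟨_, w, hw, rfl⟩
    apply le_csInf hne
    rintro s ⟨w', hw', rfl⟩
    exact (h b hb w' hw').trans (toFinset_sum_le _ hl)
  have hK : ∀ t : ℝ, 0 < t → t ≤ 1 →
      c ≤ ∑ x ∈ L.filter (fun x => D x - l x < t ∧ t ≤ D x), tau x := by
    intro t h1 h2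
    apply hcut _ (Finset.filter_subset _ _)
    intro b hb w hw
    obtain ⟨x, hx, hx'⟩ := cut_walk hl t w hw ⟨_, hnil⟩ (by rw [← hD]; linarith)
      (by rw [← hD]; exact h2.trans (hDb b hb w hw))
    exact ⟨x, hx, Finset.mem_filter.2 ⟨hw x hx, hx'⟩⟩
  have hint : ∀ x, IntegrableOn (fun t : ℝ => tau x *
      (Set.Ioc (D x - l x) (D x)).indicator (fun _ => (1 : ℝ)) t) (Set.Ioc 0 1) := by
    intro x
    apply Integrable.const_mul
    exact (integrable_const (1 : ℝ)).indicator measurableSet_Ioc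
  have hI : ∀ x, ∫ t in Set.Ioc (0 : ℝ) 1, tau x *
      (Set.Ioc (D x - l x) (D x)).indicator (fun _ => (1 : ℝ)) t ≤ tau x * l x := by
    intro x
    rw [integral_const_mul]
    apply mul_le_mul_of_nonneg_left _ (ht x)
    rw [setIntegral_indicator measurableSet_Ioc, setIntegral_const, smul_eq_mul, mul_one]
    have e1 : volume.real (Set.Ioc (0 : ℝ) 1 ∩ Set.Ioc (D x - l x) (D x)) ≤
        volume.real (Set.Ioc (D x - l x) (D x)) := by
      apply measureReal_mono Set.inter_subset_right (by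
        rw [Real.volume_Ioc]
        exact ENNReal.ofReal_ne_top)
    refine e1.trans ?_
    rw [Real.volume_real_Ioc_of_le (by linarith [hl x])]
    linarith
  calc c = ∫ t in Set.Ioc (0 : ℝ) 1, c := by
        rw [setIntegral_const]
        simp
    _ ≤ ∫ t in Set.Ioc (0 : ℝ) 1, ∑ x ∈ L, tau x *
      (Set.Ioc (D x - l x) (D x)).indicator (fun _ => (1 : ℝ)) t := by
        apply setIntegral_mono_on
        · exact integrable_const _
        · exact integrable_finsetSum _ fun x _ => hint x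
        · exact measurableSet_Ioc
        · intro t ht'
          refine (hK t ht'.1 ht'.2).trans (le_of_eq ?_)
          rw [Finset.sum_filter]
          apply Finset.sum_congr rfl
          intro x _
          by_cases hx : D x - l x < t ∧ t ≤ D x
          · rw [if_pos hx, Set.indicator_of_mem (show t ∈ Set.Ioc _ _ from hx), mul_one]
          · rw [if_neg hx, Set.indicator_of_notMem (show t ∉ Set.Ioc _ _ from hx), mul_zero]
    _ = ∑ x ∈ L, ∫ t in Set.Ioc (0 : ℝ) 1, tau x *
      (Set.Ioc (D x - l x) (D x)).indicator (fun _ => (1 : ℝ)) t :=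
        integral_finsetSum _ fun x _ => hint x
    _ ≤ _ := Finset.sum_le_sum fun x _ => hI x

end

/-- sums over products of finite sets -/
theorem sum_piFinset_succ {V : Type} [DecidableEq V] (k : ℕ) (S : Fin (k + 1) → Finset V)
    (f : (Fin (k + 1) → V) → ℝ) :
    ∑ x ∈ Fintype.piFinset S, f x =
      ∑ x' ∈ Fintype.piFinset (fun i : Fin k => S i.succ), ∑ x0 ∈ S 0, f (Fin.cons x0 x') := by
  rw [← Finset.sum_product']
  refine Finset.sum_bij' (fun x _ => (Fin.tail x, x 0)) (fun q _ => Fin.cons q.2 q.1) ?_ ?_ ?_ ?_ ?_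
  · intro x hx
    rw [Fintype.mem_piFinset] at hx
    rw [Finset.mem_product, Fintype.mem_piFinset]
    exact ⟨fun i => hx i.succ, hx 0⟩
  · intro q hq
    rw [Finset.mem_product, Fintype.mem_piFinset] at hq
    rw [Fintype.mem_piFinset]
    intro i
    refine Fin.cases ?_ (fun i => ?_) i
    · exact hq.2
    · rw [Fin.cons_succ]
      exact hq.1 i
  · intro x _
    simp
  · intro q _
    simp
  · intro x _
    simp

/-- the multilinear form -/
theorem multi {V : Type} [DecidableEq V] (L : Finset V) (F : Set (Finset V)) (tau : V → ℝ)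
    (ht : ∀ x, 0 ≤ tau x) (c : ℝ) (hc : 0 < c)
    (hF : ∀ l : V → ℝ, (∀ x, 0 ≤ l x) → (∀ S ∈ F, 1 ≤ ∑ x ∈ S, l x) → c ≤ ∑ x ∈ L, tau x * l x) :
    ∀ (k : ℕ) (Phi : (Fin k → V) → ℝ), (∀ x, 0 ≤ Phi x) →
      (∀ S : Fin k → Finset V, (∀ i, S i ∈ F) → 1 ≤ ∑ x ∈ Fintype.piFinset S, Phi x) →
      c ^ k ≤ ∑ x ∈ Fintype.piFinset (fun _ : Fin k => L), (∏ i, tau (x i)) * Phi x := by
  intro k
  induction k with
  | zero =>
    intro Phi _ h
    have h1 := h (fun i => i.elim0) (fun i => i.elim0)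
    have e1 : (Fintype.piFinset (fun i : Fin 0 => (i.elim0 : Finset V))) = {default} := by
      ext x
      simp [Subsingleton.elim x default]
    have e2 : (Fintype.piFinset (fun _ : Fin 0 => L)) = {default} := by
      ext x
      simp [Subsingleton.elim x default]
    rw [e1, Finset.sum_singleton] at h1
    rw [e2, Finset.sum_singleton]
    simpa using h1
  | succ k ih =>
    intro Phi hPhi h
    have h2 := ih (fun x' => c⁻¹ * ∑ x0 ∈ L, tau x0 * Phi (Fin.cons x0 x'))
      (fun x' => mul_nonneg (inv_nonneg.2 hc.le)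
        (Finset.sum_nonneg fun x0 _ => mul_nonneg (ht _) (hPhi _))) (by
      intro S hS
      have h3 := hF (fun x0 => ∑ x' ∈ Fintype.piFinset S, Phi (Fin.cons x0 x'))
        (fun x0 => Finset.sum_nonneg fun x' _ => hPhi _) (by
        intro S0 hS0
        have h4 := h (Fin.cons S0 S) (by
          intro i
          refine Fin.cases ?_ (fun i => ?_) i
          · exact hS0
          · exact hS i)
        rw [sum_piFinset_succ] at h4
        simp only [Fin.cons_succ, Fin.cons_zero] at h4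
        rw [Finset.sum_comm] at h4
        exact h4)
      rw [← Finset.mul_sum, ← div_eq_inv_mul, le_div_iff₀ hc, one_mul]
      refine h3.trans (le_of_eq ?_)
      simp only [Finset.mul_sum]
      rw [Finset.sum_comm])
    rw [sum_piFinset_succ]
    have e : ∀ x' : Fin k → V, ∑ x0 ∈ L, (∏ i, tau ((Fin.cons x0 x' : Fin (k + 1) → V) i)) *
        Phi (Fin.cons x0 x') = c * ((∏ i, tau (x' i)) *
          (c⁻¹ * ∑ x0 ∈ L, tau x0 * Phi (Fin.cons x0 x'))) := by
      intro x'
      have e3 : c * ((∏ i, tau (x' i)) * (c⁻¹ * ∑ x0 ∈ L, tau x0 * Phi (Fin.cons x0 x'))) =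
          (∏ i, tau (x' i)) * ∑ x0 ∈ L, tau x0 * Phi (Fin.cons x0 x') := by
        field_simp
      rw [e3, Finset.mul_sum]
      apply Finset.sum_congr rfl
      intro x0 _
      rw [Fin.prod_univ_succ]
      simp only [Fin.cons_zero, Fin.cons_succ]
      ring
    simp only [e]
    rw [← Finset.mul_sum, pow_succ, mul_comm]
    exact mul_le_mul_of_nonneg_left h2 hc.le

end Pool.Agent.W24.Perc
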