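import Pool.Agent.W24.Perc.SPerm

set_option autoImplicit false

/-!
# Folding into the Weyl chamber, and folded paths
-/

namespace Pool.Agent.W24.Perc

open Finset

/-- the permutation sorting the absolute values in decreasing order -/
noncomputable def srt {n : ℕ} (x : Fin n → ℝ) : Equiv.Perm (Fin n) :=
  Tuple.sort (fun i => -|x i|)

/-- folding: the absolute values in decreasing order -/
noncomputable def fold {n : ℕ} (x : Fin n → ℝ) : Fin n → ℝ := fun k => |x (srt x k)|

theorem fold_anti {n : ℕ} (x : Fin n → ℝ) {i j : Fin n} (h : i ≤ j) :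
    |x (srt x j)| ≤ |x (srt x i)| := by
  have := Tuple.monotone_sort (fun i => -|x i|) h
  simpa [srt] using this

theorem fold_mem {n : ℕ} (x : Fin n → ℝ) : fold x ∈ Ch n :=
  ⟨fun _ _ h => fold_anti x h, fun _ => abs_nonneg _⟩

theorem fold_act {n : ℕ} (x : Fin n → ℝ) : ∃ w : SPerm n, fold x = act w x := by
  classical
  refine ⟨(srt x, fun k => if 0 ≤ x (srt x k) then 1 else -1), ?_⟩
  funext k
  simp only [fold, act]
  split_ifs with h
  · simp [abs_of_nonneg h]
  · simp [abs_of_neg (not_le.1 h)]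

theorem fold_zero (n : ℕ) : fold (0 : Fin n → ℝ) = 0 := by
  funext k
  simp [fold]

theorem pigeon {n : ℕ} (σ ρ : Equiv.Perm (Fin n)) (k : Fin n) :
    ∃ j, j ≤ k ∧ k ≤ ρ.symm (σ j) := by
  by_contra hcon
  push Not at hcon
  have h1 : (Finset.univ.filter (fun j : Fin n => j ≤ k)).card ≤
      (Finset.univ.filter (fun j : Fin n => j < k)).card := by
    apply Finset.card_le_card_of_injOn (fun j => ρ.symm (σ j))
    · intro j hj
      simp only [Finset.coe_filter, Finset.mem_univ, true_and, Set.mem_ofPred_eq] at hj ⊢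
      exact hcon j hj
    · intro a _ b _ h
      exact σ.injective (ρ.symm.injective h)
  have h2 : (Finset.univ.filter (fun j : Fin n => j < k)).card <
      (Finset.univ.filter (fun j : Fin n => j ≤ k)).card := by
    apply Finset.card_lt_card
    refine ⟨?_, ?_⟩
    · intro j hj
      simp only [Finset.mem_filter, Finset.mem_univ, true_and] at hj ⊢
      exact hj.le
    · intro h
      have := h (show k ∈ _ by simp)
      simp at this
  omega

theorem fold_le {n : ℕ} (x y : Fin n → ℝ) (k : Fin n) : fold x k ≤ fold y k + ‖x - y‖ := by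
  obtain ⟨j, hj, hk⟩ := pigeon (srt x) (srt y) k
  set a := srt x j with ha
  have h1 : fold x k ≤ |x a| := fold_anti x hj
  have h2 : |y a| ≤ fold y k := by
    have := fold_anti y hk
    rw [Equiv.apply_symm_apply] at this
    exact this
  have h3 : |x a| ≤ |y a| + ‖x - y‖ := by
    have e1 : |x a - y a| ≤ ‖x - y‖ := by
      have := norm_le_pi_norm (x - y) a
      simpa [Real.norm_eq_abs] using this
    have e2 : |x a| ≤ |y a| + |x a - y a| := by
      have := abs_add_le (y a) (x a - y a)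
      simpa using this
    linarith
  linarith

theorem fold_lip {n : ℕ} (x y : Fin n → ℝ) : ‖fold x - fold y‖ ≤ ‖x - y‖ := by
  rw [pi_norm_le_iff_of_nonneg (norm_nonneg _)]
  intro k
  rw [Pi.sub_apply, Real.norm_eq_abs, abs_le]
  have h1 := fold_le x y k
  have h2 := fold_le y x k
  rw [norm_sub_rev] at h2
  constructor <;> linarith

theorem continuous_fold (n : ℕ) : Continuous (fold : (Fin n → ℝ) → Fin n → ℝ) := by
  have : LipschitzWith 1 (fold : (Fin n → ℝ) → Fin n → ℝ) := by
    apply LipschitzWith.of_dist_le_mul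
    intro x y
    rw [dist_eq_norm, dist_eq_norm]
    simpa using fold_lip x y
  exact this.continuous

theorem norm_fold {n : ℕ} (x : Fin n → ℝ) : ‖fold x‖ = ‖x‖ := by
  apply le_antisymm
  · obtain ⟨w, hw⟩ := fold_act x
    rw [hw]
    exact act_norm_le w x
  · rw [pi_norm_le_iff_of_nonneg (norm_nonneg _)]
    intro i
    have h := norm_le_pi_norm (fold x) ((srt x).symm i)
    simp only [fold, Equiv.apply_symm_apply, Real.norm_eq_abs, abs_abs] at h
    rw [Real.norm_eq_abs]
    exact h

/-- the ramp function -/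
noncomputable def clamp (s : ℝ) : ℝ := max 0 (min s 1)

theorem clamp_cont : Continuous clamp := by
  unfold clamp
  fun_prop

theorem clamp_nonneg (s : ℝ) : 0 ≤ clamp s := le_max_left _ _

theorem clamp_le_one (s : ℝ) : clamp s ≤ 1 := max_le zero_le_one (min_le_right _ _)

theorem clamp_one {s : ℝ} (h : 1 ≤ s) : clamp s = 1 := by
  unfold clamp
  rw [min_eq_right h]
  exact max_eq_right zero_le_one

theorem clamp_zero {s : ℝ} (h : s ≤ 0) : clamp s = 0 := by
  unfold clamp
  exact max_eq_left ((min_le_left _ _).trans h)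

theorem clamp_id {s : ℝ} (h0 : 0 ≤ s) (h1 : s ≤ 1) : clamp s = s := by
  unfold clamp
  rw [min_eq_left h1]
  exact max_eq_right h0

/-- the polygonal path through `z 0, ..., z m` -/
noncomputable def poly {n : ℕ} (z : ℕ → Fin n → ℝ) (m : ℕ) (t : ℝ) : Fin n → ℝ :=
  ∑ j ∈ Finset.range m, clamp (t - j) • (z (j + 1) - z j)

theorem continuous_poly {n : ℕ} (z : ℕ → Fin n → ℝ) (m : ℕ) : Continuous (poly z m) := by
  unfold poly
  refine continuous_finsetSum _ fun j _ => ?_
  exact (clamp_cont.comp (continuous_id.sub continuous_const)).smul continuous_const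

theorem poly_zero {n : ℕ} (z : ℕ → Fin n → ℝ) (m : ℕ) : poly z m 0 = 0 := by
  unfold poly
  apply Finset.sum_eq_zero
  intro j _
  rw [clamp_zero (by simp), zero_smul]

theorem poly_norm {n : ℕ} (z : ℕ → Fin n → ℝ) (m : ℕ) (hz : ∀ j < m, ‖z (j + 1) - z j‖ ≤ 1)
    (t : ℝ) : ‖poly z m t‖ ≤ m := by
  unfold poly
  refine (norm_sum_le _ _).trans ?_
  calc ∑ j ∈ Finset.range m, ‖clamp (t - j) • (z (j + 1) - z j)‖ ≤ ∑ j ∈ Finset.range m, (1 : ℝ) := by
        apply Finset.sum_le_sum
        intro j hj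
        rw [norm_smul, Real.norm_eq_abs, abs_of_nonneg (clamp_nonneg _)]
        have h1 := hz j (Finset.mem_range.1 hj)
        have h2 := clamp_le_one (t - j)
        calc clamp (t - j) * ‖z (j + 1) - z j‖ ≤ 1 * 1 :=
              mul_le_mul h2 h1 (norm_nonneg _) zero_le_one
          _ = 1 := one_mul 1
    _ = m := by simp

theorem poly_end {n : ℕ} (z : ℕ → Fin n → ℝ) (m : ℕ) (h0 : z 0 = 0) {t : ℝ} (ht : (m : ℝ) ≤ t) :
    poly z m t = z m := by
  unfold poly
  have : ∀ j ∈ Finset.range m, clamp (t - j) • (z (j + 1) - z j) = z (j + 1) - z j := by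
    intro j hj
    have hj' := Finset.mem_range.1 hj
    have : ((j : ℝ) + 1) ≤ m := by exact_mod_cast hj'
    rw [clamp_one (by linarith), one_smul]
  rw [Finset.sum_congr rfl this, Finset.sum_range_sub, h0, sub_zero]

theorem poly_mid {n : ℕ} (z : ℕ → Fin n → ℝ) (m : ℕ) (h0 : z 0 = 0)
    (hz : ∀ j < m, ‖z (j + 1) - z j‖ ≤ 1) {t : ℝ} (ht0 : 0 ≤ t) (ht : t < m) :
    ⌊t⌋₊ < m ∧ ‖poly z m t - z ⌊t⌋₊‖ ≤ 1 := by
  set k := ⌊t⌋₊ with hk
  have hk1 : (k : ℝ) ≤ t := Nat.floor_le ht0
  have hk2 : t < k + 1 := Nat.lt_floor_add_one t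
  have hkm : k < m := by
    have : (k : ℝ) < m := lt_of_le_of_lt hk1 ht
    exact_mod_cast this
  refine ⟨hkm, ?_⟩
  have hsplit : poly z m t = z k + clamp (t - k) • (z (k + 1) - z k) := by
    unfold poly
    obtain ⟨r, rfl⟩ : ∃ r, m = k + 1 + r := ⟨m - (k + 1), by omega⟩
    rw [Finset.sum_range_add, Finset.sum_range_succ]
    have e1 : ∀ j ∈ Finset.range k, clamp (t - j) • (z (j + 1) - z j) = z (j + 1) - z j := by
      intro j hj
      have : ((j : ℝ) + 1) ≤ k := by exact_mod_cast Finset.mem_range.1 hj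
      rw [clamp_one (by linarith), one_smul]
    have e2 : ∑ j ∈ Finset.range r, clamp (t - ((k + 1 + j : ℕ) : ℝ)) •
        (z (k + 1 + j + 1) - z (k + 1 + j)) = 0 := by
      apply Finset.sum_eq_zero
      intro j _
      rw [clamp_zero (by push_cast; have : (0:ℝ) ≤ j := Nat.cast_nonneg j; linarith), zero_smul]
    rw [e2, add_zero, Finset.sum_congr rfl e1, Finset.sum_range_sub, h0, sub_zero]
  rw [hsplit, add_sub_cancel_left, norm_smul, Real.norm_eq_abs, abs_of_nonneg (clamp_nonneg _)]
  calc clamp (t - k) * ‖z (k + 1) - z k‖ ≤ 1 * 1 :=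
        mul_le_mul (clamp_le_one _) (hz k hkm) (norm_nonneg _) zero_le_one
    _ = 1 := one_mul 1

end Pool.Agent.W24.Perc
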