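import Pool.Agent.W24.Perc.Meas
import Pool.Agent.W24.Perc.Abstract

set_option autoImplicit false

/-!
# Bond and site percolation on `ℤ^d` treated together

A model assigns to every step `x → y` between neighbours a bit `a x y` that must be open.  For bond
percolation `a x y` is the edge `{x, y}`, for site percolation it is the vertex `y`.
-/

namespace Pool.Agent.W24.Perc

open MeasureTheory ProbabilityTheory
open scoped ENNReal NNReal

/-- a percolation model -/
structure Mod (d : ℕ) (E : Type) where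
  a : (Fin d → ℤ) → (Fin d → ℤ) → E
  ax : ∀ z z' u u', (lat d).Adj z z' → (lat d).Adj u u' → a z z' = a u u' →
    u' = z' ∨ (u = z' ∧ u' = z)

namespace Mod

variable {d : ℕ} {E : Type} (M : Mod d E)

/-- one open step inside `L` -/
def rel (L : Set (Fin d → ℤ)) (ω : E → Bool) (x y : Fin d → ℤ) : Prop :=
  (lat d).Adj x y ∧ ω (M.a x y) = true ∧ y ∈ L

/-- the points reached from `x` by open steps inside `L` -/
def cl (L : Set (Fin d → ℤ)) (ω : E → Bool) (x : Fin d → ℤ) : Set (Fin d → ℤ) :=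
  {y | Relation.ReflTransGen (M.rel L ω) x y}

variable {M}

theorem self_mem_cl (L : Set (Fin d → ℤ)) (ω : E → Bool) (x : Fin d → ℤ) : x ∈ M.cl L ω x :=
  Relation.ReflTransGen.refl

theorem cl_mono {L L' : Set (Fin d → ℤ)} (h : L ⊆ L') {ω ω' : E → Bool}
    (hω : ∀ e, ω e = true → ω' e = true) (x : Fin d → ℤ) : M.cl L ω x ⊆ M.cl L' ω' x := by
  intro y hy
  induction hy with
  | refl => exact Relation.ReflTransGen.refl
  | tail _ h' ih => exact ih.tail ⟨h'.1, hω _ h'.2.1, h h'.2.2⟩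

theorem cl_trans {L : Set (Fin d → ℤ)} {ω : E → Bool} {x y z : Fin d → ℤ}
    (h1 : y ∈ M.cl L ω x) (h2 : z ∈ M.cl L ω y) : z ∈ M.cl L ω x :=
  Relation.ReflTransGen.trans h1 h2

theorem cl_snoc {L : Set (Fin d → ℤ)} {ω : E → Bool} {x y z : Fin d → ℤ}
    (h1 : y ∈ M.cl L ω x) (h2 : M.rel L ω y z) : z ∈ M.cl L ω x :=
  Relation.ReflTransGen.tail h1 h2

theorem cl_sub {L : Set (Fin d → ℤ)} {ω : E → Bool} {x y : Fin d → ℤ} (hx : x ∈ L)
    (h : y ∈ M.cl L ω x) : y ∈ L := by
  induction h with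
  | refl => exact hx
  | tail _ h _ => exact h.2.2

/-! ## measurability -/

/-- reachability in `n` steps for a general random relation -/
def reachN {V Ω : Type} (S : V → V → Set Ω) (x : V) : ℕ → V → Set Ω
  | 0, y => {_ω | x = y}
  | n + 1, y => ⋃ z, reachN S x n z ∩ S z y

theorem reachN_meas {V Ω : Type} [Countable V] [MeasurableSpace Ω] (S : V → V → Set Ω)
    (hS : ∀ x y, MeasurableSet (S x y)) (x : V) (n : ℕ) :
    ∀ y, MeasurableSet (reachN S x n y) := by
  induction n with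
  | zero => intro y; exact MeasurableSet.const _
  | succ n ih => intro y; exact MeasurableSet.iUnion fun z => (ih z).inter (hS z y)

theorem reach_iff {V Ω : Type} (S : V → V → Set Ω) (x y : V) (ω : Ω) :
    Relation.ReflTransGen (fun a b => ω ∈ S a b) x y ↔ ∃ n, ω ∈ reachN S x n y := by
  constructor
  · intro h
    induction h with
    | refl => exact ⟨0, rfl⟩
    | @tail b c _ h ih =>
      obtain ⟨n, hn⟩ := ih
      exact ⟨n + 1, Set.mem_iUnion.2 ⟨b, hn, h⟩⟩
  · rintro ⟨n, hn⟩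
    induction n generalizing y with
    | zero =>
      have : x = y := hn
      rw [this]
    | succ n ih =>
      obtain ⟨z, hz1, hz2⟩ := Set.mem_iUnion.1 hn
      exact (ih z hz1).tail hz2

theorem reach_meas {V Ω : Type} [Countable V] [MeasurableSpace Ω] (S : V → V → Set Ω)
    (hS : ∀ x y, MeasurableSet (S x y)) (x y : V) :
    MeasurableSet {ω | Relation.ReflTransGen (fun a b => ω ∈ S a b) x y} := by
  have : {ω | Relation.ReflTransGen (fun a b => ω ∈ S a b) x y} = ⋃ n, reachN S x n y := by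
    ext ω
    rw [Set.mem_iUnion]
    exact reach_iff S x y ω
  rw [this]
  exact MeasurableSet.iUnion fun n => reachN_meas S hS x n y

theorem bit_meas (e : E) : MeasurableSet {ω : E → Bool | ω e = true} := by
  have h : Measurable (fun ω : E → Bool => ω e) := measurable_pi_apply e
  exact h (MeasurableSet.singleton true)

theorem cl_meas (L : Set (Fin d → ℤ)) (x y : Fin d → ℤ) :
    MeasurableSet {ω : E → Bool | y ∈ M.cl L ω x} := by
  have := reach_meas (fun (u v : Fin d → ℤ) => {ω : E → Bool | M.rel L ω u v}) (by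
    intro u v
    have : {ω : E → Bool | M.rel L ω u v} = {_ω | (lat d).Adj u v} ∩
        ({ω | ω (M.a u v) = true} ∩ {_ω | v ∈ L}) := rfl
    rw [this]
    exact (MeasurableSet.const _).inter ((bit_meas _).inter (MeasurableSet.const _))) x y
  exact this

/-! ## reaching far -/

/-- the cluster of `x` reaches sup-distance at least `n` -/
def Far (M : Mod d E) (n : ℕ) (x : Fin d → ℤ) (ω : E → Bool) : Prop :=
  ∃ y ∈ M.cl Set.univ ω x, ∃ k, (n : ℤ) ≤ |y k - x k|

theorem Far_meas (n : ℕ) (x : Fin d → ℤ) : MeasurableSet {ω : E → Bool | M.Far n x ω} := by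
  have : {ω : E → Bool | M.Far n x ω} = ⋃ y : Fin d → ℤ, {ω : E → Bool | y ∈ M.cl Set.univ ω x} ∩
      {_ω | ∃ k, (n : ℤ) ≤ |y k - x k|} := by
    ext ω
    simp [Far]
  rw [this]
  exact MeasurableSet.iUnion fun y => (cl_meas _ x y).inter (MeasurableSet.const _)

/-! ## symmetries -/

/-- `g` is a symmetry of the model -/
def Inv (M : Mod d E) (g : (Fin d → ℤ) ≃ (Fin d → ℤ)) : Prop :=
  (∀ x y, (lat d).Adj x y ↔ (lat d).Adj (g x) (g y)) ∧
    ∃ φ : E ≃ E, ∀ x y, (lat d).Adj x y → φ (M.a x y) = M.a (g x) (g y)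

theorem cl_map {g : (Fin d → ℤ) ≃ (Fin d → ℤ)} (φ : E ≃ E)
    (hg : ∀ x y, (lat d).Adj x y ↔ (lat d).Adj (g x) (g y))
    (hφ : ∀ x y, (lat d).Adj x y → φ (M.a x y) = M.a (g x) (g y))
    (L : Set (Fin d → ℤ)) (ω : E → Bool) (x y : Fin d → ℤ) :
    y ∈ M.cl L (fun e => ω (φ e)) x ↔ g y ∈ M.cl (g '' L) ω (g x) := by
  constructor
  · intro h
    induction h with
    | refl => exact self_mem_cl _ _ _
    | @tail b c _ h ih =>
      refine cl_snoc ih ⟨(hg _ _).1 h.1, ?_, Set.mem_image_of_mem g h.2.2⟩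
      rw [← hφ _ _ h.1]
      exact h.2.1
  · intro h
    have key : ∀ v, v ∈ M.cl (g '' L) ω (g x) → g.symm v ∈ M.cl L (fun e => ω (φ e)) x := by
      intro v hv
      induction hv with
      | refl => rw [Equiv.symm_apply_apply]; exact self_mem_cl _ _ _
      | @tail b c _ h ih =>
        have h1 : (lat d).Adj (g.symm b) (g.symm c) := by
          rw [hg, Equiv.apply_symm_apply, Equiv.apply_symm_apply]
          exact h.1
        refine cl_snoc ih ⟨h1, ?_, ?_⟩
        · show ω (φ (M.a (g.symm b) (g.symm c))) = true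
          rw [hφ _ _ h1, Equiv.apply_symm_apply, Equiv.apply_symm_apply]
          exact h.2.1
        · obtain ⟨c', hc', rfl⟩ := h.2.2
          rw [Equiv.symm_apply_apply]
          exact hc'
    have := key _ h
    rwa [Equiv.symm_apply_apply] at this

theorem cl_inv {g : (Fin d → ℤ) ≃ (Fin d → ℤ)} (hg : M.Inv g) (p : ℝ≥0) (hp : p ≤ 1)
    (L : Set (Fin d → ℤ)) (x y : Fin d → ℤ) :
    mu E p hp {ω | g y ∈ M.cl (g '' L) ω (g x)} = mu E p hp {ω | y ∈ M.cl L ω x} := by
  obtain ⟨h1, φ, hφ⟩ := hg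
  have h2 := (perm_inv p hp φ).measure_preimage (cl_meas (M := M) L x y).nullMeasurableSet
  rw [← h2]
  congr 1
  ext ω
  exact (cl_map φ h1 hφ L ω x y).symm

theorem Far_inv (v : Fin d → ℤ) (hg : M.Inv (Equiv.addRight v)) (p : ℝ≥0) (hp : p ≤ 1)
    (n : ℕ) (x : Fin d → ℤ) :
    mu E p hp {ω | M.Far n (x + v) ω} = mu E p hp {ω | M.Far n x ω} := by
  obtain ⟨h1, φ, hφ⟩ := hg
  have h2 := (perm_inv p hp φ).measure_preimage (Far_meas (M := M) n x).nullMeasurableSet
  rw [← h2]
  congr 1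
  ext ω
  have key := cl_map φ h1 hφ Set.univ ω
  rw [Set.image_univ, Equiv.range_eq_univ] at key
  constructor
  · rintro ⟨y, hy, k, hk⟩
    refine ⟨y - v, ?_, k, ?_⟩
    · rw [key]
      simpa using hy
    · simpa [sub_sub, add_comm] using hk
  · rintro ⟨y, hy, k, hk⟩
    refine ⟨y + v, ?_, k, ?_⟩
    · have := (key x y).1 hy
      simpa using this
    · simpa using hk

/-! ## FKG -/

theorem cl_fkg [Countable E] (p : ℝ≥0) (hp : p ≤ 1) (L : Set (Fin d → ℤ)) (x y z : Fin d → ℤ) :
    mu E p hp {ω | y ∈ M.cl L ω x} * mu E p hp {ω | z ∈ M.cl L ω y} ≤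
      mu E p hp {ω | z ∈ M.cl L ω x} := by
  refine (harris p hp _ _ (cl_meas L x y) (cl_meas L y z) ?_ ?_).trans ?_
  · intro ω ω' h hω
    exact cl_mono (Set.Subset.refl L) h x hω
  · intro ω ω' h hω
    exact cl_mono (Set.Subset.refl L) h y hω
  · exact measure_mono fun ω hω => cl_trans hω.1 hω.2

end Mod

end Pool.Agent.W24.Perc
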