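import Pool.Agent.IIC.P_harris

set_option autoImplicit false
set_option linter.deprecated false

/-!
# Bernoulli product measures: local events, independence, invariance
-/

namespace Pool.Agent.W24.Perc

open MeasureTheory ProbabilityTheory
open scoped ENNReal NNReal

variable {E : Type}

/-- Bernoulli product measure -/
noncomputable def mu (E : Type) (p : ℝ≥0) (hp : p ≤ 1) : Measure (E → Bool) :=
  Measure.infinitePi (fun _ : E => (PMF.bernoulli p hp).toMeasure)

instance (p : ℝ≥0) (hp : p ≤ 1) : IsProbabilityMeasure (mu E p hp) := by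
  unfold mu; infer_instance

/-- the event `A` depends only on the bits in `T` -/
def Dep (T : Set E) (A : Set (E → Bool)) : Prop :=
  ∀ ω ω' : E → Bool, (∀ e ∈ T, ω e = ω' e) → (ω ∈ A ↔ ω' ∈ A)

theorem cyl_meas (F B : Finset E) : MeasurableSet {ω : E → Bool | ∀ e ∈ F, (ω e = true ↔ e ∈ B)} := by
  have : {ω : E → Bool | ∀ e ∈ F, (ω e = true ↔ e ∈ B)}
      = ⋂ e ∈ F, (fun ω : E → Bool => ω e) ⁻¹' {b : Bool | b = true ↔ e ∈ B} := by
    ext ω; simp
  rw [this]
  refine Finset.measurableSet_biInter _ (fun e _ => ?_)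
  exact measurable_pi_apply e (MeasurableSet.of_discrete)

theorem cyl_prob (p : ℝ≥0) (hp : p ≤ 1) (F A : Finset E) (hA : A ⊆ F) :
    mu E p hp {ω | ∀ e ∈ F, (ω e = true ↔ e ∈ A)}
      = (p : ℝ≥0∞) ^ A.card * ((1 - p : ℝ≥0) : ℝ≥0∞) ^ (F.card - A.card) := by
  classical
  have hset : {ω : E → Bool | ∀ e ∈ F, (ω e = true ↔ e ∈ A)} =
      Set.pi (F : Set E) (fun e => {decide (e ∈ A)}) := by
    ext ω
    simp only [Set.mem_ofPred_eq, Set.mem_pi, Finset.mem_coe, Set.mem_singleton_iff]
    refine forall_congr' fun e => forall_congr' fun _ => ?_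
    by_cases h : e ∈ A
    · simp [h]
    · simp [h]
  rw [hset]
  unfold mu
  rw [Measure.infinitePi_pi _ (fun _ _ => MeasurableSet.singleton _)]
  have hterm : ∀ e ∈ F, (PMF.bernoulli p hp).toMeasure {decide (e ∈ A)} =
      if e ∈ A then (p : ℝ≥0∞) else ((1 - p : ℝ≥0) : ℝ≥0∞) := by
    intro e _
    rw [PMF.toMeasure_apply_singleton _ _ (MeasurableSet.singleton _)]
    by_cases h : e ∈ A
    · simp only [h, decide_true, if_true]
      rfl
    · simp only [h, decide_false, if_false]
      rfl
  rw [Finset.prod_congr rfl hterm, Finset.prod_ite, Finset.prod_const, Finset.prod_const]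
  have h1 : F.filter (fun e => e ∈ A) = A := by
    ext e
    simp only [Finset.mem_filter]
    exact ⟨fun h => h.2, fun h => ⟨hA h, h⟩⟩
  have h2 : F.filter (fun e => e ∉ A) = F \ A := by
    ext e
    simp
  rw [h1, h2, Finset.card_sdiff_of_subset hA]

/-- all bits of `F` are open -/
theorem all_open (p : ℝ≥0) (hp : p ≤ 1) (F : Finset E) :
    mu E p hp {ω | ∀ e ∈ F, ω e = true} = (p : ℝ≥0∞) ^ F.card := by
  have h := cyl_prob p hp F F (Finset.Subset.refl F)
  rw [Nat.sub_self, pow_zero, mul_one] at h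
  rw [← h]
  congr 1
  ext ω
  simp only [Set.mem_ofPred_eq]
  exact forall_congr' fun e => forall_congr' fun he => by simp [he]

theorem dep_cover (F : Finset E) (A : Set (E → Bool)) (hA : Dep (↑F : Set E) A) :
    ∃ I : Finset (Finset E), (∀ B ∈ I, B ⊆ F) ∧
      A = ⋃ B ∈ I, {ω : E → Bool | ∀ e ∈ F, (ω e = true ↔ e ∈ B)} := by
  classical
  refine ⟨F.powerset.filter (fun B => (fun e => decide (e ∈ B) : E → Bool) ∈ A), ?_, ?_⟩
  · intro B hB
    exact Finset.mem_powerset.1 (Finset.mem_filter.1 hB).1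
  ext ω
  simp only [Set.mem_iUnion, Set.mem_ofPred_eq, exists_prop]
  constructor
  · intro h
    refine ⟨F.filter (fun e => ω e = true), ?_, ?_⟩
    · rw [Finset.mem_filter, Finset.mem_powerset]
      refine ⟨Finset.filter_subset _ _, ?_⟩
      refine (hA ω _ ?_).1 h
      intro e he
      have he' : e ∈ F := he
      simp only [Finset.mem_filter, he', true_and]
      cases h' : ω e <;> simp
    · intro e he
      simp [he]
  · rintro ⟨B, hB, h⟩
    rw [Finset.mem_filter, Finset.mem_powerset] at hB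
    refine (hA ω _ ?_).2 hB.2
    intro e he
    have := h e he
    cases h' : ω e
    · have : e ∉ B := fun hh => by simp [h'] at this; exact this hh
      simp [this]
    · have : e ∈ B := this.1 h'
      simp [this]

theorem dep_meas (F : Finset E) (A : Set (E → Bool)) (hA : Dep (↑F : Set E) A) :
    MeasurableSet A := by
  obtain ⟨I, -, h⟩ := dep_cover F A hA
  rw [h]
  exact Finset.measurableSet_biUnion _ fun B _ => cyl_meas F B

/-- the probability of a local event is a polynomial in `p` -/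
theorem local_prob (F : Finset E) (A : Set (E → Bool)) (hA : Dep (↑F : Set E) A) :
    ∃ q : Polynomial ℝ, ∀ (p : ℝ≥0) (hp : p ≤ 1), (mu E p hp A).toReal = q.eval (p : ℝ) := by
  classical
  obtain ⟨I, hI, hAU⟩ := dep_cover F A hA
  refine ⟨∑ B ∈ I, Polynomial.X ^ B.card * (1 - Polynomial.X) ^ (F.card - B.card), ?_⟩
  intro p hp
  have hdis : Set.PairwiseDisjoint (I : Set (Finset E))
      (fun B => {ω : E → Bool | ∀ e ∈ F, (ω e = true ↔ e ∈ B)}) := by
    intro B hB C hC hne
    rw [Function.onFun, Set.disjoint_left]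
    intro ω h1 h2
    apply hne
    have hB' := hI B hB
    have hC' := hI C hC
    ext e
    constructor
    · intro he
      exact ((h2 e (hB' he)).1 ((h1 e (hB' he)).2 he))
    · intro he
      exact ((h1 e (hC' he)).1 ((h2 e (hC' he)).2 he))
  have h1 : mu E p hp A = ∑ B ∈ I, mu E p hp {ω : E → Bool | ∀ e ∈ F, (ω e = true ↔ e ∈ B)} := by
    conv_lhs => rw [hAU]
    exact measure_biUnion_finset hdis (fun B _ => cyl_meas F B)
  rw [h1, ENNReal.toReal_sum (fun B _ => measure_ne_top _ _), Polynomial.eval_finsetSum]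
  refine Finset.sum_congr rfl (fun B hB => ?_)
  rw [cyl_prob p hp F B (hI B hB)]
  have h2 : ((1 - p : ℝ≥0) : ℝ) = 1 - (p : ℝ) := by
    rw [NNReal.coe_sub hp]; simp
  rw [ENNReal.toReal_mul, ENNReal.toReal_pow, ENNReal.toReal_pow, ENNReal.coe_toReal,
    ENNReal.coe_toReal, h2]
  simp

/-- independence of events that depend on disjoint sets of bits -/
theorem dep_indep (p : ℝ≥0) (hp : p ≤ 1) (T : Finset E) (A B : Set (E → Bool))
    (hA : Dep (↑T : Set E) A) (hB : Dep ((↑T : Set E)ᶜ) B) (hBm : MeasurableSet B) :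
    mu E p hp (A ∩ B) = mu E p hp A * mu E p hp B := by
  classical
  let m : E → MeasurableSpace (E → Bool) := fun e =>
    MeasurableSpace.comap (fun ω : E → Bool => ω e) inferInstance
  have hle : ∀ e, m e ≤ (inferInstance : MeasurableSpace (E → Bool)) := fun e =>
    (measurable_pi_apply e).comap_le
  have hi : iIndepFun (fun (e : E) (ω : E → Bool) => ω e) (mu E p hp) := by
    unfold mu
    exact iIndepFun_infinitePi (X := fun _ b => b) (fun _ => measurable_id)
  have him : iIndep m (mu E p hp) := hi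
  have hdisj : Disjoint (T : Set E) ((T : Set E)ᶜ) := disjoint_compl_right
  have hind := indep_iSup_of_disjoint hle him hdisj
  have hm1 : ∀ e ∈ (T : Set E), m e ≤ ⨆ e ∈ (T : Set E), m e := fun e he =>
    le_iSup₂ (f := fun e (_ : e ∈ (T : Set E)) => m e) e he
  have hm2 : ∀ e ∈ ((T : Set E)ᶜ), m e ≤ ⨆ e ∈ ((T : Set E)ᶜ), m e := fun e he =>
    le_iSup₂ (f := fun e (_ : e ∈ ((T : Set E)ᶜ)) => m e) e he
  have hAm : @MeasurableSet (E → Bool) (⨆ e ∈ (T : Set E), m e) A := by
    obtain ⟨I, -, h⟩ := dep_cover T A hA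
    rw [h]
    refine @Finset.measurableSet_biUnion _ _ (⨆ e ∈ (T : Set E), m e) _ _ (fun B _ => ?_)
    have : {ω : E → Bool | ∀ e ∈ T, (ω e = true ↔ e ∈ B)}
        = ⋂ e ∈ T, (fun ω : E → Bool => ω e) ⁻¹' {b : Bool | b = true ↔ e ∈ B} := by
      ext ω; simp
    rw [this]
    refine @Finset.measurableSet_biInter _ _ (⨆ e ∈ (T : Set E), m e) _ _ (fun e he => ?_)
    exact hm1 e he _ ⟨_, MeasurableSet.of_discrete, rfl⟩
  have hBm' : @MeasurableSet (E → Bool) (⨆ e ∈ ((T : Set E)ᶜ), m e) B := by
    have hcl : @Measurable (E → Bool) (E → Bool) (⨆ e ∈ ((T : Set E)ᶜ), m e) _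
        (fun ω e => if e ∈ T then false else ω e) := by
      refine @measurable_pi_lambda _ _ _ (⨆ e ∈ ((T : Set E)ᶜ), m e) _ _ ?_
      intro e
      by_cases he : e ∈ T
      · have : (fun ω : E → Bool => if e ∈ T then false else ω e) = fun _ => false := by
          funext ω
          simp [he]
        rw [this]
        exact measurable_const
      · have : (fun ω : E → Bool => if e ∈ T then false else ω e) = fun ω => ω e := by
          funext ω
          simp [he]
        rw [this]
        exact (comap_measurable (fun ω : E → Bool => ω e)).mono (hm2 e (by simpa using he)) le_rfl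
    have h1 : B = (fun (ω : E → Bool) e => if e ∈ T then false else ω e) ⁻¹' B := by
      ext ω
      rw [Set.mem_preimage]
      apply hB
      intro e he
      have : e ∉ T := he
      simp [this]
    rw [h1]
    exact hcl hBm
  exact (Indep_iff _ _ _).1 hind A B hAm hBm'

/-- relabelling the bits -/
theorem perm_inv {E' : Type} (p : ℝ≥0) (hp : p ≤ 1) (φ : E' ≃ E) :
    MeasurePreserving (fun (ω : E → Bool) (e : E') => ω (φ e)) (mu E p hp) (mu E' p hp) := by
  refine ⟨?_, ?_⟩
  · exact measurable_pi_lambda _ fun e => measurable_pi_apply _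
  have h1 : (fun (ω : E → Bool) (e : E') => ω (φ e)) =
      MeasurableEquiv.piCongrLeft (fun _ : E' => Bool) φ.symm := by
    funext ω i
    obtain ⟨j, rfl⟩ := φ.symm.surjective i
    rw [MeasurableEquiv.coe_piCongrLeft, Equiv.piCongrLeft_apply_apply]
    simp
  rw [h1]
  unfold mu
  exact Measure.infinitePi_map_piCongrLeft
    (fun _ : E' => (PMF.bernoulli p hp).toMeasure) φ.symm

/-- Harris' inequality -/
theorem harris [Countable E] (p : ℝ≥0) (hp : p ≤ 1) (A B : Set (E → Bool))
    (hA : MeasurableSet A) (hB : MeasurableSet B)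
    (hAi : ∀ ω ω' : E → Bool, (∀ e, ω e = true → ω' e = true) → ω ∈ A → ω' ∈ A)
    (hBi : ∀ ω ω' : E → Bool, (∀ e, ω e = true → ω' e = true) → ω ∈ B → ω' ∈ B) :
    mu E p hp A * mu E p hp B ≤ mu E p hp (A ∩ B) :=
  Pool.Agent.IIC.harris E p hp A B hA hB hAi hBi

end Pool.Agent.W24.Perc
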