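import Pool.Agent.W24.Perc.Chamber

set_option autoImplicit false

/-!
# Signed permutations, and the quantitative form of the linear independence
-/

namespace Pool.Agent.W24.Perc

open Finset

/-- signed permutations of `n` letters -/
abbrev SPerm (n : ℕ) : Type := Equiv.Perm (Fin n) × (Fin n → ℤˣ)

/-- the action on vectors -/
def act {R : Type} [AddCommGroup R] {n : ℕ} (w : SPerm n) (x : Fin n → R) : Fin n → R :=
  fun j => ((w.2 j : ℤˣ) : ℤ) • x (w.1 j)

theorem act_mul {R : Type} [AddCommGroup R] {n : ℕ} (w v : SPerm n) (x : Fin n → R) :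
    act w (act v x) = act (v.1 * w.1, fun j => w.2 j * v.2 (w.1 j)) x := by
  funext j
  simp [act, mul_smul]

theorem act_add {R : Type} [AddCommGroup R] {n : ℕ} (w : SPerm n) (x y : Fin n → R) :
    act w (x + y) = act w x + act w y := by
  funext j
  simp [act]

theorem act_neg {R : Type} [AddCommGroup R] {n : ℕ} (w : SPerm n) (x : Fin n → R) :
    act w (-x) = -act w x := by
  funext j
  simp [act]

theorem act_sub {R : Type} [AddCommGroup R] {n : ℕ} (w : SPerm n) (x y : Fin n → R) :
    act w (x - y) = act w x - act w y := by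
  rw [sub_eq_add_neg, act_add, act_neg, ← sub_eq_add_neg]

theorem act_zero {R : Type} [AddCommGroup R] {n : ℕ} (w : SPerm n) :
    act w (0 : Fin n → R) = 0 := by
  funext j
  simp [act]

theorem act_smul {n : ℕ} (w : SPerm n) (t : ℝ) (x : Fin n → ℝ) :
    act w (t • x) = t • act w x := by
  funext j
  simp only [act, Pi.smul_apply, smul_eq_mul, zsmul_eq_mul]
  ring

theorem act_norm_le {n : ℕ} (w : SPerm n) (x : Fin n → ℝ) : ‖act w x‖ ≤ ‖x‖ := by
  rw [pi_norm_le_iff_of_nonneg (norm_nonneg _)]
  intro j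
  have h := norm_le_pi_norm x (w.1 j)
  rcases Int.units_eq_one_or (w.2 j) with h1 | h1 <;> simpa [act, h1] using h

theorem continuous_act {n : ℕ} (w : SPerm n) : Continuous (act w : (Fin n → ℝ) → Fin n → ℝ) := by
  apply continuous_pi
  intro j
  have h : Continuous (fun x : Fin n → ℝ => x (w.1 j)) := continuous_apply (w.1 j)
  exact h.const_smul ((w.2 j : ℤˣ) : ℤ)

theorem sg_perm (n : ℕ) : ∀ i : Fin n, ∃ w : SPerm n, ∀ (R : Type) [AddCommGroup R] (x : Fin n → R),
    sg n i x = act w x := by
  induction n with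
  | zero => intro i; exact i.elim0
  | succ n ih =>
    intro i
    refine Fin.cases ?_ (fun i => ?_) i
    · refine ⟨(1, Fin.cases 1 (fun _ => -1)), ?_⟩
      intro R _ x
      funext j
      refine Fin.cases ?_ (fun j => ?_) j
      · simp [act]
      · simp [act]
    · obtain ⟨w, hw⟩ := ih i
      have hinj : Function.Injective (Fin.cases (motive := fun _ => Fin (n + 1)) (Fin.last n)
          (fun j => (w.1 j).castSucc)) := by
        intro a b
        refine Fin.cases ?_ (fun a => ?_) a <;> refine Fin.cases ?_ (fun b => ?_) b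
        · intro _; rfl
        · intro h
          simp only [Fin.cases_zero, Fin.cases_succ] at h
          exact absurd h.symm (Fin.castSucc_lt_last _).ne
        · intro h
          simp only [Fin.cases_zero, Fin.cases_succ] at h
          exact absurd h (Fin.castSucc_lt_last _).ne
        · intro h
          simp only [Fin.cases_succ] at h
          rw [Fin.castSucc_inj] at h
          rw [w.1.injective h]
      refine ⟨(Equiv.ofBijective _ (Finite.injective_iff_bijective.1 hinj),
        Fin.cases 1 (fun j => w.2 j)), ?_⟩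
      intro R _ x
      funext j
      refine Fin.cases ?_ (fun j => ?_) j
      · simp [act]
      · simp only [sg_succ_succ]
        rw [hw R]
        simp [act]

/-- the signed permutation `w_i` -/
noncomputable def wp (n : ℕ) (i : Fin n) : SPerm n := (sg_perm n i).choose

theorem sg_eq {R : Type} [AddCommGroup R] (n : ℕ) (i : Fin n) (x : Fin n → R) :
    sg n i x = act (wp n i) x := (sg_perm n i).choose_spec R x

theorem sg_single (n : ℕ) (i : Fin (n + 1)) :
    sg (n + 1) i (Pi.single 0 (1 : ℝ)) = Pi.single i 1 := by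
  induction n with
  | zero =>
    funext j
    have hi : i = 0 := Fin.fin_one_eq_zero i
    have hj : j = 0 := Fin.fin_one_eq_zero j
    subst hi hj
    simp
  | succ n ih =>
    funext j
    refine Fin.cases ?_ (fun i => ?_) i
    · refine Fin.cases ?_ (fun j => ?_) j
      · simp
      · simp
    · refine Fin.cases ?_ (fun j => ?_) j
      · rw [sg_succ_zero]
        rw [Pi.single_apply, if_neg (Fin.last_pos).ne', Pi.single_apply,
          if_neg (Fin.succ_ne_zero i).symm]
      · rw [sg_succ_succ]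
        have e : (fun k : Fin (n + 1) => (Pi.single 0 (1 : ℝ) : Fin (n + 1 + 1) → ℝ) k.castSucc) =
            Pi.single 0 1 := by
          funext k
          rw [Pi.single_apply, Pi.single_apply]
          congr 1
          simp
        rw [e, ih i, Pi.single_apply, Pi.single_apply]
        simp

theorem isClosed_ch (n : ℕ) : IsClosed (Ch n) := by
  have h1 : Ch n = (⋂ i : Fin n, ⋂ j : Fin n, ⋂ (_ : i ≤ j), {x : Fin n → ℝ | x j ≤ x i}) ∩
      ⋂ i : Fin n, {x : Fin n → ℝ | 0 ≤ x i} := by
    ext x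
    simp only [Ch, Set.mem_ofPred_eq, Set.mem_inter_iff, Set.mem_iInter]
    exact ⟨fun h => ⟨fun i j hij => h.1 hij, h.2⟩, fun h => ⟨fun i j hij => h.1 i j hij, h.2⟩⟩
  rw [h1]
  refine IsClosed.inter ?_ ?_
  · exact isClosed_iInter fun i => isClosed_iInter fun j => isClosed_iInter fun _ =>
      isClosed_le (continuous_apply j) (continuous_apply i)
  · exact isClosed_iInter fun i => isClosed_le continuous_const (continuous_apply i)

theorem ch_smul {n : ℕ} {x : Fin n → ℝ} (hx : x ∈ Ch n) {t : ℝ} (ht : 0 ≤ t) : t • x ∈ Ch n :=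
  ⟨fun _ _ h => mul_le_mul_of_nonneg_left (hx.1 h) ht, fun i => mul_nonneg ht (hx.2 i)⟩

theorem ch_add {n : ℕ} {x y : Fin n → ℝ} (hx : x ∈ Ch n) (hy : y ∈ Ch n) : x + y ∈ Ch n :=
  ⟨fun _ _ h => add_le_add (hx.1 h) (hy.1 h), fun i => add_nonneg (hx.2 i) (hy.2 i)⟩

theorem sum_sg_ne (n : ℕ) (u : Fin n → Fin n → ℝ) (hu : ∀ i, u i ∈ Ch n ∨ -u i ∈ Ch n)
    (h : ∑ i, sg n i (u i) = 0) : u = 0 := by
  classical
  rcases n with _ | n
  · funext i; exact i.elim0
  have he : (Pi.single 0 1 : Fin (n + 1) → ℝ) ∈ Ch (n + 1) := by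
    refine ⟨fun i j hij => ?_, fun i => ?_⟩
    · rw [Pi.single_apply, Pi.single_apply]
      split_ifs with h1 h2
      · exact le_rfl
      · subst h1
        exact absurd (Fin.le_zero_iff.1 hij) h2
      · exact zero_le_one
      · exact le_rfl
    · rw [Pi.single_apply]
      split_ifs
      · exact zero_le_one
      · exact le_rfl
  have he0 : (Pi.single 0 1 : Fin (n + 1) → ℝ) ≠ 0 := by
    intro h1
    have := congrFun h1 0
    simp at this
  let q : Fin (n + 1) → Fin (n + 1) → ℝ := fun i =>
    if u i = 0 then Pi.single 0 1 else if u i ∈ Ch (n + 1) then u i else -u i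
  let a : Fin (n + 1) → ℝ := fun i =>
    if u i = 0 then 0 else if u i ∈ Ch (n + 1) then 1 else -1
  have hq : ∀ i, q i ∈ Ch (n + 1) := by
    intro i
    simp only [q]
    split_ifs with h1 h2
    · exact he
    · exact h2
    · exact (hu i).resolve_left h2
  have hq0 : ∀ i, q i ≠ 0 := by
    intro i
    simp only [q]
    split_ifs with h1 h2
    · exact he0
    · exact h1
    · exact neg_ne_zero.2 h1
  have hlc : lc (n + 1) q a = 0 := by
    rw [← h]
    funext j
    rw [Finset.sum_apply]
    apply Finset.sum_congr rfl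
    intro i _
    rw [sg_eq, sg_eq]
    simp only [q, a]
    split_ifs with h1 h2
    · rw [h1, act_zero, zero_mul]
      rfl
    · rw [one_mul]
    · rw [act_neg]
      simp
  have ha := lc_inj (n + 1) q hq hq0 a hlc
  by_contra hne
  obtain ⟨i, h1⟩ := Function.ne_iff.1 hne
  have h1' : ¬ u i = 0 := h1
  have h2 := congrFun ha i
  simp only [a, Pi.zero_apply] at h2
  rw [if_neg h1'] at h2
  split_ifs at h2 <;> norm_num at h2

/-- the lower bound for the sum of the `w_i u_i` -/
theorem lower (n : ℕ) : ∃ c : ℝ, 0 < c ∧ ∀ u : Fin n → Fin n → ℝ,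
    (∀ i, u i ∈ Ch n ∨ -u i ∈ Ch n) → c * ‖u‖ ≤ ‖∑ i, sg n i (u i)‖ := by
  set K : Set (Fin n → Fin n → ℝ) :=
    {u | ∀ i, u i ∈ Ch n ∨ -u i ∈ Ch n} ∩ Metric.sphere 0 1 with hK
  have hcl : IsClosed {u : Fin n → Fin n → ℝ | ∀ i, u i ∈ Ch n ∨ -u i ∈ Ch n} := by
    have : {u : Fin n → Fin n → ℝ | ∀ i, u i ∈ Ch n ∨ -u i ∈ Ch n} =
        ⋂ i, ((fun u : Fin n → Fin n → ℝ => u i) ⁻¹' Ch n ∪
          (fun u : Fin n → Fin n → ℝ => -u i) ⁻¹' Ch n) := by
      ext u
      simp
    rw [this]
    exact isClosed_iInter fun i => ((isClosed_ch n).preimage (continuous_apply i)).union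
      ((isClosed_ch n).preimage (continuous_apply i).neg)
  have hKc : IsCompact K := (isCompact_sphere 0 1).inter_left hcl
  have hg : Continuous (fun u : Fin n → Fin n → ℝ => ‖∑ i, sg n i (u i)‖) := by
    have : (fun u : Fin n → Fin n → ℝ => ‖∑ i, sg n i (u i)‖) =
        fun u : Fin n → Fin n → ℝ => ‖∑ i, act (wp n i) (u i)‖ := by
      funext u
      simp only [sg_eq]
    rw [this]
    exact (continuous_finsetSum _ fun i _ => (continuous_act _).comp (continuous_apply i)).norm
  obtain ⟨c, hc, hmin⟩ : ∃ c : ℝ, 0 < c ∧ ∀ u ∈ K, c ≤ ‖∑ i, sg n i (u i)‖ := by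
    rcases K.eq_empty_or_nonempty with h | h
    · exact ⟨1, one_pos, fun u hu => by rw [h] at hu; exact hu.elim⟩
    · obtain ⟨u0, hu0, hmin⟩ := hKc.exists_isMinOn h hg.continuousOn
      refine ⟨‖∑ i, sg n i (u0 i)‖, ?_, fun u hu => hmin hu⟩
      rw [norm_pos_iff]
      intro h0
      have h1 := sum_sg_ne n u0 hu0.1 h0
      have h2 := hu0.2
      rw [h1] at h2
      simp at h2
  refine ⟨c, hc, fun u hu => ?_⟩
  rcases (norm_nonneg u).eq_or_lt with h0 | h0
  · rw [← h0, mul_zero]
    exact norm_nonneg _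
  · have h1 : ‖u‖⁻¹ • u ∈ K := by
      refine ⟨fun i => ?_, ?_⟩
      · rcases hu i with h | h
        · left
          exact ch_smul h (inv_nonneg.2 h0.le)
        · right
          have : -((‖u‖⁻¹ • u) i) = ‖u‖⁻¹ • (-u i) := by
            simp
          rw [this]
          exact ch_smul h (inv_nonneg.2 h0.le)
      · rw [mem_sphere_zero_iff_norm, norm_smul, norm_inv, norm_norm, inv_mul_cancel₀ h0.ne']
    have h2 := hmin _ h1
    have h3 : ∑ i, sg n i ((‖u‖⁻¹ • u) i) = ‖u‖⁻¹ • ∑ i, sg n i (u i) := by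
      rw [Finset.smul_sum]
      apply Finset.sum_congr rfl
      intro i _
      rw [sg_eq, sg_eq, Pi.smul_apply, act_smul]
    rw [h3, norm_smul, norm_inv, norm_norm] at h2
    rw [inv_mul_eq_div, le_div_iff₀ h0] at h2
    exact h2

end Pool.Agent.W24.Perc
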