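import Pool.Agent.W24.Perc.Gen

set_option autoImplicit false

/-!
# The Simon-Hammersley inequality for arbitrary finite sets
-/

namespace Pool.Agent.W24.Perc

open MeasureTheory ProbabilityTheory
open scoped ENNReal NNReal

/-- pairs `(x, y)` of neighbours with `x ∈ B`, `y ∉ B` -/
noncomputable def Pr {d : ℕ} (B : Finset (Fin d → ℤ)) : Finset ((Fin d → ℤ) × (Fin d → ℤ)) := by
  classical
  exact (B ×ˢ (B.biUnion (fun x => (bx d 1).image (fun e => x + e)))).filter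
    (fun q => (lat d).Adj q.1 q.2 ∧ q.2 ∉ B)

theorem mem_Pr {d : ℕ} {B : Finset (Fin d → ℤ)} {q : (Fin d → ℤ) × (Fin d → ℤ)} :
    q ∈ Pr B ↔ q.1 ∈ B ∧ (lat d).Adj q.1 q.2 ∧ q.2 ∉ B := by
  classical
  unfold Pr
  rw [Finset.mem_filter, Finset.mem_product]
  constructor
  · rintro ⟨⟨h1, -⟩, h2⟩
    exact ⟨h1, h2⟩
  · rintro ⟨h1, h2⟩
    refine ⟨⟨h1, ?_⟩, h2⟩
    rw [Finset.mem_biUnion]
    refine ⟨q.1, h1, ?_⟩
    rw [Finset.mem_image]
    refine ⟨q.2 - q.1, mem_bx.2 fun k => ?_, by abel⟩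
    have := lat_adj_le h2.1 k
    simpa using this

theorem last_exit {V : Type} {r : V → V → Prop} (K : Set V) {x t : V}
    (h : Relation.ReflTransGen r x t) (hx : x ∈ K) :
    t ∈ K ∨ ∃ y x', y ∈ K ∧ x' ∉ K ∧ r y x' ∧
      Relation.ReflTransGen (fun z z' => r z z' ∧ z ∉ K ∧ z' ∉ K) x' t ∧ t ∉ K := by
  induction h with
  | refl => exact Or.inl hx
  | @tail b c _ h ih =>
    by_cases hc : c ∈ K
    · exact Or.inl hc
    · right
      rcases ih with hb | ⟨y, x', h1, h2, h3, h4, h5⟩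
      · exact ⟨b, c, hb, hc, h, Relation.ReflTransGen.refl, hc⟩
      · exact ⟨y, x', h1, h2, h3, h4.tail ⟨h, h5, hc⟩, hc⟩

theorem no_return {V : Type} {r : V → V → Prop} {x t : V} (h : Relation.ReflTransGen r x t) :
    Relation.ReflTransGen (fun z z' => r z z' ∧ z' ≠ x) x t := by
  induction h with
  | refl => exact Relation.ReflTransGen.refl
  | @tail b c _ h ih =>
    by_cases hc : c = x
    · rw [hc]
    · exact ih.tail ⟨h, hc⟩

namespace Mod

variable {d : ℕ} {E : Type} {M : Mod d E}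

/-- the bits that determine the cluster `K` of `0` in `B` -/
noncomputable def T1 (M : Mod d E) (B K : Finset (Fin d → ℤ)) : Finset E := by
  classical
  exact ((K ×ˢ B).filter (fun q => (lat d).Adj q.1 q.2)).image (fun q => M.a q.1 q.2)

theorem mem_T1 {B K : Finset (Fin d → ℤ)} {z z' : Fin d → ℤ} (h : (lat d).Adj z z') (hz : z ∈ K)
    (hz' : z' ∈ B) : M.a z z' ∈ M.T1 B K := by
  classical
  unfold T1
  rw [Finset.mem_image]
  exact ⟨(z, z'), by rw [Finset.mem_filter, Finset.mem_product]; exact ⟨⟨hz, hz'⟩, h⟩, rfl⟩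

theorem cl_eq_of {B K : Finset (Fin d → ℤ)} {ω ω' : E → Bool} (h : ∀ e ∈ M.T1 B K, ω e = ω' e)
    (hK : M.cl ↑B ω 0 = ↑K) : M.cl ↑B ω' 0 = ↑K := by
  apply Set.Subset.antisymm
  · intro y hy
    induction hy with
    | refl => rw [← hK]; exact self_mem_cl _ _ _
    | @tail b c _ h' ih =>
      have hb : b ∈ M.cl ↑B ω 0 := by rw [hK]; exact ih
      rw [← hK]
      refine cl_snoc hb ⟨h'.1, ?_, h'.2.2⟩
      rw [h _ (mem_T1 h'.1 ih h'.2.2)]
      exact h'.2.1
  · intro y hy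
    rw [← hK] at hy
    have key : ∀ y, y ∈ M.cl ↑B ω 0 → y ∈ M.cl ↑B ω' 0 := by
      intro y hy
      induction hy with
      | refl => exact self_mem_cl _ _ _
      | @tail b c hb h' ih =>
        have hbK : b ∈ (↑K : Set (Fin d → ℤ)) := by rw [← hK]; exact hb
        refine cl_snoc ih ⟨h'.1, ?_, h'.2.2⟩
        rw [← h _ (mem_T1 h'.1 hbK h'.2.2)]
        exact h'.2.1
    exact key y hy

/-- all the bits used -/
noncomputable def T2 (M : Mod d E) (B K : Finset (Fin d → ℤ)) (q : (Fin d → ℤ) × (Fin d → ℤ)) :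
    Finset E := by
  classical
  exact insert (M.a q.1 q.2) (M.T1 B K)

/-- the cluster of `0` in `B` is `K` and it is left through the pair `q` -/
def Q (M : Mod d E) (B K : Finset (Fin d → ℤ)) (q : (Fin d → ℤ) × (Fin d → ℤ)) (ω : E → Bool) :
    Prop :=
  M.cl ↑B ω 0 = ↑K ∧ q.1 ∈ K ∧ ω (M.a q.1 q.2) = true

/-- far reaching off the bits used -/
def R (M : Mod d E) (n : ℕ) (B K : Finset (Fin d → ℤ)) (q : (Fin d → ℤ) × (Fin d → ℤ))
    (ω : E → Bool) : Prop :=
  ∃ t, (∃ k, (n : ℤ) ≤ |t k - q.2 k|) ∧ Relation.ReflTransGen (fun z z' => (lat d).Adj z z' ∧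
    ω (M.a z z') = true ∧ M.a z z' ∉ M.T2 B K q) q.2 t

theorem Q_dep (B K : Finset (Fin d → ℤ)) (q : (Fin d → ℤ) × (Fin d → ℤ)) :
    Dep (↑(M.T2 B K q) : Set E) {ω | M.Q B K q ω} := by
  classical
  have key : ∀ ω ω' : E → Bool, (∀ e ∈ (↑(M.T2 B K q) : Set E), ω e = ω' e) →
      M.Q B K q ω → M.Q B K q ω' := by
    rintro ω ω' h ⟨h1, h2, h3⟩
    refine ⟨cl_eq_of (fun e he => h e ?_) h1, h2, ?_⟩
    · unfold T2
      exact Finset.mem_coe.2 (Finset.mem_insert_of_mem he)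
    · rw [← h _ (by unfold T2; exact Finset.mem_coe.2 (Finset.mem_insert_self _ _))]
      exact h3
  intro ω ω' h
  exact ⟨key ω ω' h, key ω' ω fun e he => (h e he).symm⟩

theorem R_dep (n : ℕ) (B K : Finset (Fin d → ℤ)) (q : (Fin d → ℤ) × (Fin d → ℤ)) :
    Dep ((↑(M.T2 B K q) : Set E)ᶜ) {ω | M.R n B K q ω} := by
  have key : ∀ ω ω' : E → Bool, (∀ e ∈ ((↑(M.T2 B K q) : Set E)ᶜ), ω e = ω' e) →
      M.R n B K q ω → M.R n B K q ω' := by
    rintro ω ω' h ⟨t, ht, hr⟩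
    refine ⟨t, ht, ?_⟩
    clear ht
    induction hr with
    | refl => exact Relation.ReflTransGen.refl
    | tail _ h' ih =>
      refine ih.tail ⟨h'.1, ?_, h'.2.2⟩
      rw [← h _ (by simpa using h'.2.2)]
      exact h'.2.1
  intro ω ω' h
  exact ⟨key ω ω' h, key ω' ω fun e he => (h e he).symm⟩

theorem R_meas (n : ℕ) (B K : Finset (Fin d → ℤ)) (q : (Fin d → ℤ) × (Fin d → ℤ)) :
    MeasurableSet {ω : E → Bool | M.R n B K q ω} := by
  have h1 : ∀ t, MeasurableSet {ω : E → Bool | Relation.ReflTransGen (fun z z' =>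
      (lat d).Adj z z' ∧ ω (M.a z z') = true ∧ M.a z z' ∉ M.T2 B K q) q.2 t} := by
    intro t
    exact reach_meas (fun z z' => {ω : E → Bool | (lat d).Adj z z' ∧
      ω (M.a z z') = true ∧ M.a z z' ∉ M.T2 B K q}) (by
      intro u v
      exact (MeasurableSet.const _).inter ((bit_meas _).inter (MeasurableSet.const _))) q.2 t
  have : {ω : E → Bool | M.R n B K q ω} = ⋃ t : Fin d → ℤ,
      {_ω | ∃ k, (n : ℤ) ≤ |t k - q.2 k|} ∩ {ω : E → Bool | Relation.ReflTransGen (fun z z' =>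
      (lat d).Adj z z' ∧ ω (M.a z z') = true ∧ M.a z z' ∉ M.T2 B K q) q.2 t} := by
    ext ω
    simp [R]
  rw [this]
  exact MeasurableSet.iUnion fun t => (MeasurableSet.const _).inter (h1 t)

theorem R_le (n : ℕ) (B K : Finset (Fin d → ℤ)) (q : (Fin d → ℤ) × (Fin d → ℤ)) {ω : E → Bool}
    (h : M.R n B K q ω) : M.Far n q.2 ω := by
  obtain ⟨t, ht, hr⟩ := h
  refine ⟨t, ?_, ht⟩
  clear ht
  induction hr with
  | refl => exact self_mem_cl _ _ _
  | tail _ h' ih => exact cl_snoc ih ⟨h'.1, h'.2.1, Set.mem_univ _⟩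

theorem simon_det {B : Finset (Fin d → ℤ)} (h0 : (0 : Fin d → ℤ) ∈ B) {r n : ℕ}
    (hB : B ⊆ bx d r) {ω : E → Bool} (hF : M.Far (n + r + 1) 0 ω) :
    ∃ K ⊆ B, ∃ q ∈ Pr B, M.Q B K q ω ∧ M.R n B K q ω := by
  classical
  obtain ⟨t, ht, k, hk⟩ := hF
  have hclB : ∀ z ∈ M.cl (↑B : Set (Fin d → ℤ)) ω 0, z ∈ B := fun z hz => cl_sub (by simpa using h0) hz
  set K : Finset (Fin d → ℤ) := B.filter (fun z => z ∈ M.cl (↑B : Set (Fin d → ℤ)) ω 0) with hK
  have hKc : M.cl (↑B : Set (Fin d → ℤ)) ω 0 = ↑K := by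
    ext z
    rw [hK, Finset.mem_coe, Finset.mem_filter]
    exact ⟨fun h => ⟨hclB z h, h⟩, fun h => h.2⟩
  have h0K : (0 : Fin d → ℤ) ∈ (↑K : Set (Fin d → ℤ)) := by
    rw [← hKc]; exact self_mem_cl _ _ _
  have htK : t ∉ (↑K : Set (Fin d → ℤ)) := by
    rw [← hKc]
    intro h
    have h1 := mem_bx.1 (hB (hclB t h)) k
    simp only [Pi.zero_apply, sub_zero] at hk
    push_cast at hk
    linarith
  obtain ⟨y, x', hy, hx', hstep, hrest, -⟩ := (last_exit (↑K : Set (Fin d → ℤ)) ht h0K).resolve_left htK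
  have hycl : y ∈ M.cl (↑B : Set (Fin d → ℤ)) ω 0 := by rw [hKc]; exact hy
  have hyB : y ∈ B := hclB y hycl
  have hx'B : x' ∉ B := by
    intro h
    apply hx'
    rw [← hKc]
    exact cl_snoc hycl ⟨hstep.1, hstep.2.1, h⟩
  refine ⟨K, Finset.filter_subset _ _, (y, x'), mem_Pr.2 ⟨hyB, hstep.1, hx'B⟩,
    ⟨hKc, hy, hstep.2.1⟩, t, ⟨k, ?_⟩, ?_⟩
  · have h1 := mem_bx.1 (hB hyB) k
    have h2 := lat_adj_le hstep.1 k
    simp only [Pi.zero_apply, sub_zero] at hk
    have h3 : |x' k| ≤ |y k| + |x' k - y k| := by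
      have := abs_add_le (y k) (x' k - y k)
      simpa using this
    have h4 : |t k| ≤ |x' k| + |t k - x' k| := by
      have := abs_add_le (x' k) (t k - x' k)
      simpa using this
    push_cast at hk
    show (n : ℤ) ≤ |t k - x' k|
    linarith
  · have hnr := no_return hrest
    clear hk htK ht
    show Relation.ReflTransGen _ x' t
    induction hnr with
    | refl => exact Relation.ReflTransGen.refl
    | @tail b c hb h' ih =>
      refine Relation.ReflTransGen.tail ?_ ⟨h'.1.1.1, h'.1.1.2.1, ?_⟩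
      · have : Relation.ReflTransGen (fun z z' => M.rel Set.univ ω z z' ∧
            z ∉ (↑K : Set (Fin d → ℤ)) ∧ z' ∉ (↑K : Set (Fin d → ℤ))) x' b := by
          clear ih h'
          induction hb with
          | refl => exact Relation.ReflTransGen.refl
          | tail _ h2 ih => exact ih.tail h2.1
        exact ih this
      · intro hmem
        unfold T2 at hmem
        rw [Finset.mem_insert] at hmem
        rcases hmem with h1 | h1
        · rcases M.ax _ _ _ _ hstep.1 h'.1.1.1 h1.symm with h2 | ⟨h2, h3⟩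
          · exact h'.2 h2
          · exact h'.1.2.2 (by rw [h3]; exact hy)
        · unfold T1 at h1
          rw [Finset.mem_image] at h1
          obtain ⟨⟨z, z'⟩, hz, he⟩ := h1
          rw [Finset.mem_filter, Finset.mem_product] at hz
          rcases M.ax _ _ _ _ hz.2 h'.1.1.1 he with h2 | ⟨h2, h3⟩
          · apply h'.1.2.2
            rw [← hKc]
            have hzc : z ∈ M.cl (↑B : Set (Fin d → ℤ)) ω 0 := by rw [hKc]; exact hz.1.1
            rw [h2]
            refine cl_snoc hzc ⟨hz.2, ?_, hz.1.2⟩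
            show ω (M.a z z') = true
            have he' : M.a z z' = M.a b c := he
            rw [he']
            exact h'.1.1.2.1
          · exact h'.1.2.2 (by rw [h3]; exact hz.1.1)

/-- the expected number of open exits from the cluster of `0` in `B` -/
noncomputable def phi (M : Mod d E) (p : ℝ≥0) (hp : p ≤ 1) (B : Finset (Fin d → ℤ)) : ℝ≥0∞ :=
  ∑ q ∈ Pr B, mu E p hp {ω | q.1 ∈ M.cl ↑B ω 0 ∧ ω (M.a q.1 q.2) = true}

/-- the one-arm probability -/
noncomputable def Z (M : Mod d E) (p : ℝ≥0) (hp : p ≤ 1) (n : ℕ) : ℝ≥0∞ :=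
  mu E p hp {ω | M.Far n 0 ω}

theorem simon (hT : ∀ v, M.Inv (Equiv.addRight v)) (p : ℝ≥0) (hp : p ≤ 1)
    {B : Finset (Fin d → ℤ)} (h0 : (0 : Fin d → ℤ) ∈ B) {r : ℕ} (hB : B ⊆ bx d r) (n : ℕ) :
    M.Z p hp (n + r + 1) ≤ M.phi p hp B * M.Z p hp n := by
  classical
  have hRz : ∀ K q, mu E p hp {ω | M.R n B K q ω} ≤ M.Z p hp n := by
    intro K q
    have h1 := Far_inv (M := M) q.2 (hT q.2) p hp n 0
    rw [zero_add] at h1
    unfold Z
    rw [← h1]
    exact measure_mono fun ω h => R_le n B K q h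
  have hprod : ∀ K q, mu E p hp ({ω | M.Q B K q ω} ∩ {ω | M.R n B K q ω}) ≤
      mu E p hp {ω | M.Q B K q ω} * M.Z p hp n := by
    intro K q
    rw [dep_indep p hp (M.T2 B K q) _ _ (Q_dep B K q) (R_dep n B K q) (R_meas n B K q)]
    gcongr
    exact hRz K q
  have hsum : ∀ q ∈ Pr B, ∑ K ∈ B.powerset, mu E p hp {ω | M.Q B K q ω} ≤
      mu E p hp {ω | q.1 ∈ M.cl ↑B ω 0 ∧ ω (M.a q.1 q.2) = true} := by
    intro q hq
    rw [← measure_biUnion_finset]
    · apply measure_mono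
      intro ω hω
      simp only [Set.mem_iUnion] at hω
      obtain ⟨K, -, h1, h2, h3⟩ := hω
      refine ⟨?_, h3⟩
      rw [h1]
      exact h2
    · intro K _ K' _ hne
      rw [Function.onFun, Set.disjoint_left]
      rintro ω ⟨h1, -⟩ ⟨h2, -⟩
      apply hne
      have : (↑K : Set (Fin d → ℤ)) = ↑K' := h1.symm.trans h2
      exact_mod_cast this
    · intro K _
      exact dep_meas _ _ (Q_dep B K q)
  calc M.Z p hp (n + r + 1) ≤ mu E p hp (⋃ K ∈ B.powerset, ⋃ q ∈ Pr B,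
        ({ω | M.Q B K q ω} ∩ {ω | M.R n B K q ω})) := by
        apply measure_mono
        intro ω hω
        obtain ⟨K, hK, q, hq, h1, h2⟩ := simon_det h0 hB hω
        simp only [Set.mem_iUnion]
        exact ⟨K, Finset.mem_powerset.2 hK, q, hq, h1, h2⟩
    _ ≤ ∑ K ∈ B.powerset, mu E p hp (⋃ q ∈ Pr B, ({ω | M.Q B K q ω} ∩ {ω | M.R n B K q ω})) :=
        measure_biUnion_finset_le _ _
    _ ≤ ∑ K ∈ B.powerset, ∑ q ∈ Pr B, mu E p hp ({ω | M.Q B K q ω} ∩ {ω | M.R n B K q ω}) :=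
        Finset.sum_le_sum fun K _ => measure_biUnion_finset_le _ _
    _ ≤ ∑ K ∈ B.powerset, ∑ q ∈ Pr B, mu E p hp {ω | M.Q B K q ω} * M.Z p hp n :=
        Finset.sum_le_sum fun K _ => Finset.sum_le_sum fun q _ => hprod K q
    _ = ∑ q ∈ Pr B, (∑ K ∈ B.powerset, mu E p hp {ω | M.Q B K q ω}) * M.Z p hp n := by
        rw [Finset.sum_comm]
        exact Finset.sum_congr rfl fun q _ => (Finset.sum_mul _ _ _).symm
    _ ≤ ∑ q ∈ Pr B, mu E p hp {ω | q.1 ∈ M.cl ↑B ω 0 ∧ ω (M.a q.1 q.2) = true} * M.Z p hp n := by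
        apply Finset.sum_le_sum
        intro q hq
        gcongr
        exact hsum q hq
    _ = M.phi p hp B * M.Z p hp n := by
        unfold phi
        rw [Finset.sum_mul]

end Mod

end Pool.Agent.W24.Perc
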