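import Pool.Agent.W24.Perc.Bond

set_option autoImplicit false

/-!
# Site percolation
-/

namespace Pool.Agent.W24.Perc

open MeasureTheory ProbabilityTheory
open scoped ENNReal NNReal

/-- site percolation as a model -/
def siteMod (n : ℕ) : Mod (n + 1) (Fin (n + 1) → ℤ) where
  a _ y := y
  ax := fun _ _ _ _ _ _ h => Or.inl h.symm

theorem site_inv {n : ℕ} (g : (Fin (n + 1) → ℤ) ≃ (Fin (n + 1) → ℤ))
    (hg : ∀ x y, (lat (n + 1)).Adj x y ↔ (lat (n + 1)).Adj (g x) (g y)) : (siteMod n).Inv g :=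
  ⟨hg, g, fun _ _ _ => rfl⟩

namespace Site

/-- site percolation on `ℤ^d` -/
noncomputable def perc (d : ℕ) (p : ℝ≥0) (hp : p ≤ 1) : Measure ((Fin d → ℤ) → Bool) :=
  Measure.infinitePi fun _ => (PMF.bernoulli p hp).toMeasure

/-- the graph of the neighbouring pairs of open sites of `S` -/
def openIn {d : ℕ} (ω : (Fin d → ℤ) → Bool) (S : Set (Fin d → ℤ)) :
    SimpleGraph (Fin d → ℤ) :=
  SimpleGraph.fromRel fun x z => x ∈ S ∧ z ∈ S ∧ ω x = true ∧ ω z = true ∧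
    ∃ i : Fin d, z = x + Pi.single i 1

/-- the percolation probability -/
noncomputable def theta (d : ℕ) (p : ℝ≥0) (hp : p ≤ 1) : ℝ :=
  (perc d p hp).real {ω | {y | (openIn ω Set.univ).Reachable 0 y}.Infinite}

/-- the critical point -/
noncomputable def pc (d : ℕ) : ℝ≥0 := sSup {p : ℝ≥0 | ∃ hp : p ≤ 1, theta d p hp = 0}

theorem pc_le_one (d : ℕ) : pc d ≤ 1 := csSup_le' (by rintro p ⟨hp, -⟩; exact hp)

theorem openIn_adj {n : ℕ} {ω : (Fin (n + 1) → ℤ) → Bool}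
    {S : Set (Fin (n + 1) → ℤ)} {x y : Fin (n + 1) → ℤ} :
    (openIn ω S).Adj x y ↔ x ∈ S ∧ y ∈ S ∧ (lat (n + 1)).Adj x y ∧ ω x = true ∧ ω y = true := by
  unfold openIn
  rw [SimpleGraph.fromRel_adj]
  constructor
  · rintro ⟨hne, ⟨h1, h2, h3, h4, i, h5⟩ | ⟨h1, h2, h3, h4, i, h5⟩⟩
    · exact ⟨h1, h2, adj_iff.2 ⟨i, Or.inl h5⟩, h3, h4⟩
    · exact ⟨h2, h1, adj_iff.2 ⟨i, Or.inr h5⟩, h4, h3⟩
  · rintro ⟨h1, h2, h3, h4, h5⟩
    refine ⟨h3.ne, ?_⟩
    obtain ⟨i, h6 | h6⟩ := adj_iff.1 h3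
    · left
      exact ⟨h1, h2, h4, h5, i, h6⟩
    · right
      exact ⟨h2, h1, h5, h4, i, h6⟩

theorem reach_cl {n : ℕ} {ω : (Fin (n + 1) → ℤ) → Bool}
    {S : Set (Fin (n + 1) → ℤ)} {x y : Fin (n + 1) → ℤ}
    (h : (openIn ω S).Reachable x y) : y ∈ (siteMod n).cl S ω x := by
  rw [SimpleGraph.reachable_iff_reflTransGen] at h
  induction h with
  | refl => exact Mod.self_mem_cl _ _ _
  | @tail b c hb h ih =>
    obtain ⟨h1, h2, h3, h4, h5⟩ := openIn_adj.1 h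
    exact Mod.cl_snoc ih ⟨h3, h5, h2⟩

theorem cl_reach {n : ℕ} {ω : (Fin (n + 1) → ℤ) → Bool}
    {S : Set (Fin (n + 1) → ℤ)} {x y : Fin (n + 1) → ℤ} (hx : x ∈ S) (hω : ω x = true)
    (h : y ∈ (siteMod n).cl S ω x) : ω y = true ∧ (openIn ω S).Reachable x y := by
  rw [SimpleGraph.reachable_iff_reflTransGen]
  induction h with
  | refl => exact ⟨hω, Relation.ReflTransGen.refl⟩
  | @tail b c hb h ih =>
    exact ⟨h.2.1, ih.2.tail (openIn_adj.2 ⟨Mod.cl_sub hx hb, h.2.2, h.1, ih.1, h.2.1⟩)⟩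

theorem aboveCrit (n : ℕ) : AboveCrit (siteMod n) (pc (n + 1)) := by
  intro p hp h
  refine le_csSup ⟨1, by rintro q ⟨hq, -⟩; exact hq⟩ ⟨hp, ?_⟩
  unfold theta
  have h1 : {ω : (Fin (n + 1) → ℤ) → Bool |
      {y | (openIn ω Set.univ).Reachable 0 y}.Infinite} ⊆
      {ω | ((siteMod n).cl Set.univ ω 0).Infinite} := by
    intro ω hω
    exact Set.Infinite.mono (fun y hy => reach_cl hy) hω
  have h2 : (perc (n + 1) p hp) {ω | ((siteMod n).cl Set.univ ω 0).Infinite} = 0 := h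
  have h3 := measure_mono_null h1 h2
  rw [Measure.real, h3]
  rfl

theorem pc_pos (n : ℕ) : 0 < pc (n + 1) :=
  Pool.Agent.W24.Perc.pc_pos (fun v => site_inv _ (adj_add v)) (pc_le_one _) (aboveCrit n)

theorem cl_shift {n : ℕ} (p : ℝ≥0) (hp : p ≤ 1) (x y : Fin (n + 1) → ℤ) (r : ℕ) :
    mu _ p hp {ω | y ∈ (siteMod n).cl (Bond.box x r) ω x} =
      mu _ p hp {ω | y - x ∈ (siteMod n).cl ↑(bx (n + 1) r) ω 0} := by
  have h := Mod.cl_inv (site_inv (Equiv.addRight x) (adj_add x)) p hp (↑(bx (n + 1) r)) 0 (y - x)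
  have e1 : Equiv.addRight x '' ↑(bx (n + 1) r) = Bond.box x r := by
    ext z
    constructor
    · rintro ⟨z', hz', rfl⟩
      rw [Finset.mem_coe, mem_bx] at hz'
      intro i
      show |z' i + x i - x i| ≤ r
      rw [add_sub_cancel_right]
      exact hz' i
    · intro hz
      refine ⟨z - x, ?_, ?_⟩
      · rw [Finset.mem_coe, mem_bx]
        exact hz
      · show z - x + x = z
        abel
  have e2 : Equiv.addRight x (0 : Fin (n + 1) → ℤ) = x := zero_add x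
  have e3 : Equiv.addRight x (y - x) = y := sub_add_cancel y x
  rw [e1, e2, e3] at h
  exact h

theorem final (d : ℕ) (hd : 1 ≤ d) : ∃ c : ℝ, 0 < c ∧ ∃ C : ℕ, ∀ m : ℕ, 1 ≤ m →
    ∀ x y : Fin d → ℤ, (∀ i, |y i - x i| ≤ m) →
      c / (m : ℝ) ^ (d * (d - 1)) ≤ (perc d (pc d) (pc_le_one d)).real
        {ω | ω x = true ∧ ω y = true ∧ (openIn ω (Bond.box x (C * m))).Reachable x y} := by
  obtain ⟨n, rfl⟩ : ∃ n, d = n + 1 := ⟨d - 1, by omega⟩
  obtain ⟨c, hc, C, h⟩ := main (M := siteMod n) (fun v => site_inv _ (adj_add v))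
    (fun w => site_inv _ (adj_act w)) (pc_le_one (n + 1)) (aboveCrit n)
  have hpos : (0 : ℝ) < pc (n + 1) := pc_pos n
  refine ⟨pc (n + 1) * c, by positivity, C, ?_⟩
  intro m hm x y hxy
  have h1 := h m (y - x) hm hxy
  rw [← cl_shift] at h1
  have e : (n + 1) * (n + 1 - 1) = n * (n + 1) := by
    rw [Nat.add_sub_cancel, mul_comm]
  rw [e]
  have h2 := harris (pc (n + 1)) (pc_le_one _) {ω : (Fin (n + 1) → ℤ) → Bool | ω x = true}
    {ω | y ∈ (siteMod n).cl (Bond.box x (C * m)) ω x} (Mod.bit_meas x) (Mod.cl_meas _ _ _)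
    (fun ω ω' hω h => hω _ h) (fun ω ω' hω h => Mod.cl_mono (Set.Subset.refl _) hω _ h)
  rw [Mod.bit_prob] at h2
  have h3 : mu _ (pc (n + 1)) (pc_le_one _) ({ω : (Fin (n + 1) → ℤ) → Bool | ω x = true} ∩
      {ω | y ∈ (siteMod n).cl (Bond.box x (C * m)) ω x}) ≤ perc (n + 1) (pc (n + 1)) (pc_le_one _)
      {ω | ω x = true ∧ ω y = true ∧ (openIn ω (Bond.box x (C * m))).Reachable x y} := by
    show perc (n + 1) (pc (n + 1)) (pc_le_one _) _ ≤ _
    apply measure_mono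
    rintro ω ⟨h4, h5⟩
    have h6 := cl_reach (fun i => by simp; positivity) h4 h5
    exact ⟨h4, h6.1, h6.2⟩
  have h4 : IsProbabilityMeasure (perc (n + 1) (pc (n + 1)) (pc_le_one _)) := by
    unfold perc
    infer_instance
  have h5 := ENNReal.toReal_mono (measure_ne_top _ _) (h2.trans h3)
  rw [ENNReal.toReal_mul, ENNReal.coe_toReal] at h5
  refine le_trans ?_ h5
  rw [mul_div_assoc]
  gcongr

end Site

end Pool.Agent.W24.Perc
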